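import Pool.Agent.Work.MP_f5ed0a_al.Glue

set_option autoImplicit false

namespace Pool.Agent.Work.MP_f5ed0a_al

section alpha

/-- Stabilisation of the coloured identities. -/
theorem MM_acc {S : Type} [NonUnitalRing S] [Finite S] {p : ℕ} [Fact p.Prime]
    (N : ℕ → AddSubgroup Poly) (hN : Monotone N) (hpN : ∀ k, ∀ f : Poly, p • f ∈ N k) :
    ∃ K, ∀ k, K ≤ k → MM S p (N k) = MM S p (N K) := by
  classical
  obtain ⟨Q, hQ, π, hπ, hker⟩ := exists_quotient_ring (MM S p (N 0)) (MM_left (hpN 0))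
    (MM_right (hpN 0))
  have hle : ∀ σ : ℕ → ℕ, RingHom.ker π ≤ RingHom.ker (π.comp (FreeRing.map (mv σ))) := by
    intro σ x hx
    rw [RingHom.mem_ker] at *
    rw [RingHom.comp_apply, hker]
    exact MM_map σ x ((hker x).1 hx)
  let B := Option S × Option S
  have hsub : ∀ (σ : ℕ → ℕ) (g : FreeRing (ℕ × B)),
      (π.liftOfSurjective hπ) ⟨π.comp (FreeRing.map (mv σ)), hle σ⟩ (π g) =
        π (FreeRing.map (mv σ) g) := by
    intro σ g
    rw [RingHom.liftOfSurjective_comp_apply]
    rfl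
  have hgen : ∀ g : FreeRing (ℕ × B),
      π g ∈ Subring.closure (Set.range (fun x => π (FreeRing.of x))) := by
    intro g
    induction g using FreeRing.induction_on with
    | hn1 => rw [map_neg, map_one]; exact neg_mem (one_mem _)
    | hb b => exact Subring.subset_closure ⟨b, rfl⟩
    | ha x y hx hy => rw [map_add]; exact add_mem hx hy
    | hm x y hx hy => rw [map_mul]; exact mul_mem hx hy
  have haug : ∀ x ∈ NonUnitalSubring.closure (Set.range (fun x : ℕ × B => π (FreeRing.of x))),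
      ∃ g ∈ Aug S, π g = x := by
    intro x hx
    induction hx using NonUnitalSubring.closure_induction with
    | mem x hx =>
      obtain ⟨b, rfl⟩ := hx
      exact ⟨FreeRing.of b, NonUnitalSubring.subset_closure ⟨b, rfl⟩, rfl⟩
    | zero => exact ⟨0, zero_mem _, map_zero _⟩
    | add x y _ _ hx hy =>
      obtain ⟨g, hg, rfl⟩ := hx
      obtain ⟨g', hg', rfl⟩ := hy
      exact ⟨g + g', add_mem hg hg', map_add _ _ _⟩
    | neg x _ hx =>
      obtain ⟨g, hg, rfl⟩ := hx
      exact ⟨-g, neg_mem hg, map_neg _ _⟩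
    | mul x y _ _ hx hy =>
      obtain ⟨g, hg, rfl⟩ := hx
      obtain ⟨g', hg', rfl⟩ := hy
      exact ⟨g * g', mul_mem hg hg', map_mul _ _ _⟩
  let T : Sys p B Q :=
    { z := fun x => π (FreeRing.of x)
      sub := fun σ => (π.liftOfSurjective hπ) ⟨π.comp (FreeRing.map (mv σ)), hle σ⟩
      sub_z := fun σ x => by rw [hsub, FreeRing.map_of]
      gen := by
        rw [eq_top_iff]
        intro q _
        obtain ⟨g, rfl⟩ := hπ q
        exact hgen g
      char := by
        intro q
        obtain ⟨g, rfl⟩ := hπ q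
        rw [← map_nsmul, hker]
        intro R _ ι y h
        have htor := torsion_of_satisfies (hpN 0) h.sat
        rw [nsmul_eq_mul, map_mul, map_natCast]
        have : Null p (((p : ℕ) : UU R)) := by
          have h1 : ∀ k : ℕ, (((k : ℕ) : UU R)).snd = 0 ∧ (((k : ℕ) : UU R)).fst = k := by
            intro k
            induction k with
            | zero =>
              rw [Nat.cast_zero]
              exact ⟨rfl, rfl⟩
            | succ k ih =>
              rw [Nat.cast_succ]
              refine ⟨?_, ?_⟩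
              · rw [UU.snd_add, ih.1, zero_add]; rfl
              · rw [UU.fst_add, ih.2]; rfl
          exact ⟨(h1 p).1, by rw [(h1 p).2]⟩
        exact this.mul_right htor _
      nil := by
        intro x hx
        obtain ⟨g, hg, rfl⟩ := haug x hx
        rw [← map_mul, ← map_mul, hker]
        intro R _ ι y h
        obtain ⟨J, h1, h2, h3, h4⟩ := h.ideal
        obtain ⟨a, ha, ha'⟩ := EV_aug ι y J h1 h2 h4 g hg
        rw [map_mul, map_mul, ha', ← map_mul, ← map_mul, h3 a ha, map_zero]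
        exact Null.zero }
  have hmem : ∀ k g, π g ∈ (MM S p (N k)).map π.toAddMonoidHom ↔ g ∈ MM S p (N k) := by
    intro k g
    constructor
    · rintro ⟨g', hg', hgg'⟩
      have h1 : g' - g ∈ MM S p (N 0) := by
        rw [← hker, map_sub]
        exact sub_eq_zero.2 hgg'
      have h2 := sub_mem hg' (MM_mono (hN (Nat.zero_le k)) h1)
      rwa [sub_sub_cancel] at h2
    · intro hg
      exact ⟨g, hg, rfl⟩
  obtain ⟨K, hK⟩ := T.acc (fun k => (MM S p (N k)).map π.toAddMonoidHom)
    (fun i j hij => AddSubgroup.map_mono (MM_mono (hN hij)))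
    (fun k =>
      { left := by
          intro a x hx
          obtain ⟨g', rfl⟩ := hπ a
          obtain ⟨g, rfl⟩ := hπ x
          rw [← map_mul, hmem]
          exact MM_left (hpN k) _ _ ((hmem k g).1 hx)
        right := by
          intro a x hx
          obtain ⟨g', rfl⟩ := hπ a
          obtain ⟨g, rfl⟩ := hπ x
          rw [← map_mul, hmem]
          exact MM_right (hpN k) _ _ ((hmem k g).1 hx)
        sub := by
          intro σ x hx
          obtain ⟨g, rfl⟩ := hπ x
          change (π.liftOfSurjective hπ) ⟨π.comp (FreeRing.map (mv σ)), hle σ⟩ (π g) ∈ _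
          rw [hsub, hmem]
          exact MM_map σ _ ((hmem k g).1 hx) })
  refine ⟨K, fun k hk => ?_⟩
  ext g
  rw [← hmem k g, ← hmem K g, hK k hk]

/-- Pairs describing the identities around the elements of `S`. -/
def PP {S : Type} [NonUnitalRing S] (p : ℕ) (N : AddSubgroup Poly) (c : S)
    (g : FreeRing (ℕ × (Option S × Option S))) : Prop :=
  ∀ (R : Type) [NonUnitalRing R] (ι : S →ₙ+* R) (y : ℕ → R), Good N R y →
    Null p (inrU R (ι c) + EV ι y g)

theorem PP_acc {S : Type} [NonUnitalRing S] [Finite S] {p : ℕ} [Fact p.Prime]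
    (N : ℕ → AddSubgroup Poly) (hN : Monotone N) (hpN : ∀ k, ∀ f : Poly, p • f ∈ N k) :
    ∃ K, ∀ k, K ≤ k → ∀ (c : S) g, PP p (N k) c g → PP p (N K) c g := by
  classical
  have hmono : ∀ {i j : ℕ} (c : S) g, i ≤ j → PP p (N i) c g → PP p (N j) c g := by
    intro i j c g hij h R _ ι y hG
    exact h R ι y ⟨fun f hf => hG.sat f (hN hij hf), hG.ideal⟩
  obtain ⟨K₁, hK₁⟩ := MM_acc (S := S) N hN hpN
  -- the projections to the finite set `S`
  have h2 : ∀ c : S, ∃ K, ∀ k, K ≤ k → (∃ g, PP p (N k) c g) → ∃ g, PP p (N K) c g := by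
    intro c
    by_cases h : ∃ K, ∃ g, PP p (N K) c g
    · obtain ⟨K, hK⟩ := h
      exact ⟨K, fun k _ _ => hK⟩
    · exact ⟨0, fun k _ h' => absurd ⟨k, h'⟩ h⟩
  choose K₂ hK₂ using h2
  have := Fintype.ofFinite S
  let K := max K₁ (Finset.univ.sup K₂)
  refine ⟨K, fun k hk c g hg => ?_⟩
  have hK1 : K₁ ≤ K := le_max_left _ _
  have hK2 : K₂ c ≤ K := (Finset.le_sup (Finset.mem_univ c)).trans (le_max_right _ _)
  obtain ⟨g', hg'⟩ := hK₂ c k (hK2.trans hk) ⟨g, hg⟩
  have hg'K : PP p (N K) c g' := hmono c g' hK2 hg'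
  have hg'k : PP p (N k) c g' := hmono c g' hk hg'K
  have h3 : g - g' ∈ MM S p (N k) := by
    intro R _ ι y hG
    have h4 := (hg R ι y hG).add (hg'k R ι y hG).neg
    have h5 : inrU R (ι c) + EV ι y g + -(inrU R (ι c) + EV ι y g') = EV ι y (g - g') := by
      rw [map_sub]; abel
    rwa [h5] at h4
  rw [hK₁ k (hK1.trans hk), ← hK₁ K hK1] at h3
  intro R _ ι y hG
  have h6 := (hg'K R ι y hG).add (h3 R ι y hG)
  have h7 : inrU R (ι c) + EV ι y g' + EV ι y (g - g') = inrU R (ι c) + EV ι y g := by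
    rw [map_sub]; abel
  rwa [h7] at h6

theorem alpha {n : ℕ} (hn : 4 ≤ n) {p : ℕ} [Fact p.Prime] (N : ℕ → AddSubgroup Poly)
    (hmono : Monotone N) (hT : ∀ k, IsTIdeal (N k))
    (hcube : ∀ f : Poly, mpow f 3 - mpow f n ∈ N 0) (hp : ∀ f : Poly, p • f ∈ N 0) :
    ∃ K, ∀ k, K ≤ k → N k = N K := by
  classical
  by_contra hcon
  push Not at hcon
  -- a strictly increasing subsequence
  have hstep : ∀ K, ∃ k, K ≤ k ∧ ∃ f, f ∈ N k ∧ f ∉ N K := by
    intro K
    obtain ⟨k, hk, hne⟩ := hcon K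
    refine ⟨k, hk, ?_⟩
    by_contra h
    push Not at h
    exact hne (le_antisymm (fun f hf => h f hf) (hmono hk))
  choose nx hnx1 hnx2 using hstep
  let a : ℕ → ℕ := fun j => Nat.rec 0 (fun _ x => nx x) j
  have ha : ∀ j, a (j + 1) = nx (a j) := fun j => rfl
  let M : ℕ → AddSubgroup Poly := fun j => N (a j)
  have hamono : Monotone a := monotone_nat_of_le_succ (fun j => by rw [ha]; exact hnx1 _)
  have hM : Monotone M := fun i j hij => hmono (hamono hij)
  have hMT : ∀ j, IsTIdeal (M j) := fun j => hT _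
  have hM0 : ∀ j, N 0 ≤ M j := fun j => hmono (Nat.zero_le _)
  have hex : ∀ j, ∃ f, f ∈ M (j + 1) ∧ f ∉ M j := fun j => by
    obtain ⟨f, hf, hf'⟩ := hnx2 (a j)
    exact ⟨f, hf, hf'⟩
  choose f hf1 hf2 using hex
  have hpM : ∀ j, ∀ f : Poly, p • f ∈ M j := fun j f => hM0 j (hp f)
  have hcM : ∀ j, ∀ f : Poly, mpow f 3 - mpow f n ∈ M j := fun j f => hM0 j (hcube f)
  choose R hR hRsat hRf J hJl hJr hJnil E hE using
    fun j => exists_min_ring hn (M j) (hMT j) (hcM j) (hpM j) (f j) (hf2 j)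
  -- the finite ring `S`
  let P := ∀ j, R j
  let evalP : ∀ j, P →ₙ+* R j := fun j => Pi.evalNonUnitalRingHom R j
  have hPcube : ∀ x : P, mpow x 3 = mpow x n := by
    intro x
    funext j
    have h1 := map_mpow (evalP j) x 3
    have h2 := map_mpow (evalP j) x n
    rw [mpow_of_satisfies (hcM j) (hRsat j)] at h1
    exact h1.trans h2.symm
  have hPtor : ∀ x : P, p • x = 0 := by
    intro x
    funext j
    exact torsion_of_satisfies (hpM j) (hRsat j) (x j)
  have hfin := locally_finite_nu hn (Fact.out : p.Prime).pos hPcube hPtor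
    (fun (b : Fin ((n ^ 9) ^ 3)) (j : ℕ) => E j b)
  set S := NonUnitalSubring.closure
    (Set.range (fun (b : Fin ((n ^ 9) ^ 3)) (j : ℕ) => E j b)) with hS
  have hSfin : Finite S := hfin.to_subtype
  let ι : ∀ j, S →ₙ+* R j := fun j => (evalP j).comp (NonUnitalSubringClass.subtype S)
  have hι : ∀ j (r : R j), ∃ s : S, r - ι j s ∈ J j := by
    intro j r
    obtain ⟨b, hb⟩ := hE j r
    exact ⟨⟨_, NonUnitalSubring.subset_closure ⟨b, rfl⟩⟩, hb⟩
  obtain ⟨K, hK⟩ := PP_acc (S := S) (p := p) M hM hpM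
  -- the contradiction
  obtain ⟨v, hv⟩ : ∃ v : ℕ → R K, ev v (f K) ≠ 0 := by
    have := hRf K
    unfold Satisfies at this
    push Not at this
    exact this
  choose s hs using fun i => hι K (v i)
  obtain ⟨g, hg, hexp⟩ := expansion s (f K)
  have h1 : PP p (M (K + 1)) (ev s (f K)) g := by
    intro R' _ ι' y hG
    rw [← hexp R' ι' y, hG.sat (f K) (hf1 K), map_zero]
    exact Null.zero
  have h2 := hK (K + 1) (Nat.le_succ K) _ g h1
  have h3 := h2 (R K) (ι K) (fun i => v i - ι K (s i))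
    ⟨hRsat K, J K, hJl K, hJr K, hJnil K, hs⟩
  rw [← hexp (R K) (ι K)] at h3
  have h4 : (fun i => ι K (s i) + (v i - ι K (s i))) = v := by funext i; abel
  rw [h4] at h3
  apply hv
  have h5 := h3.1
  rwa [snd_inrU] at h5

end alpha

end Pool.Agent.Work.MP_f5ed0a_al
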