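import Pool.Agent.Work.MP_f5ed0a_al.Layer

set_option autoImplicit false

namespace Pool.Agent.Work.MP_f5ed0a_al

namespace Sys

variable {p : ℕ} {B : Type*} {A : Type*} [Ring A] (S : Sys p B A)

/-- The span of the words of length at least `j`. -/
def pw (j : ℕ) : AddSubgroup A := AddSubgroup.closure {x | ∃ l : List (ℕ × B), j ≤ l.length ∧ x = S.w l}

theorem pw_zero : S.pw 0 = ⊤ := by
  rw [eq_top_iff]
  intro a _
  refine (AddSubgroup.closure_mono ?_) (S.mem_closure_words a)
  rintro _ ⟨l, rfl⟩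
  exact ⟨l, by simp, rfl⟩

theorem w_mem_pw {j : ℕ} {l : List (ℕ × B)} (h : j ≤ l.length) : S.w l ∈ S.pw j :=
  AddSubgroup.subset_closure ⟨l, h, rfl⟩

theorem z_mem_pw (x : ℕ × B) : S.z x ∈ S.pw 1 := by
  have : S.z x = S.w [x] := by simp
  rw [this]
  exact S.w_mem_pw (by simp)

theorem pw_mul {i j : ℕ} {x y : A} (hx : x ∈ S.pw i) (hy : y ∈ S.pw j) : x * y ∈ S.pw (i + j) := by
  refine closure_mul_mem ?_ hx hy
  rintro _ ⟨l, hl, rfl⟩ _ ⟨l', hl', rfl⟩
  rw [← w_append]
  exact S.w_mem_pw (by simp; omega)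

theorem pw_anti {i j : ℕ} (h : i ≤ j) : S.pw j ≤ S.pw i := by
  refine AddSubgroup.closure_mono ?_
  rintro _ ⟨l, hl, rfl⟩
  exact ⟨l, h.trans hl, rfl⟩

theorem mem_pw_zero (a : A) : a ∈ S.pw 0 := by rw [pw_zero]; trivial

theorem pw_left {j : ℕ} (a : A) {x : A} (hx : x ∈ S.pw j) : a * x ∈ S.pw j := by
  simpa using S.pw_mul (S.mem_pw_zero a) hx

theorem pw_right {j : ℕ} (a : A) {x : A} (hx : x ∈ S.pw j) : x * a ∈ S.pw j := by
  simpa using S.pw_mul hx (S.mem_pw_zero a)

theorem pw_inv (j : ℕ) : S.Inv (S.pw j) where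
  left a x hx := S.pw_left a hx
  right a x hx := S.pw_right a hx
  sub σ x hx := by
    induction hx using AddSubgroup.closure_induction with
    | mem x hx =>
      obtain ⟨l, hl, rfl⟩ := hx
      rw [S.sub_w]
      exact S.w_mem_pw (by simpa using hl)
    | zero => simp
    | add x y _ _ hx hy => rw [map_add]; exact add_mem hx hy
    | neg x _ hx => rw [map_neg]; exact neg_mem hx

theorem aug_le {x : A} (hx : x ∈ S.pw 1) : x ∈ NonUnitalSubring.closure (Set.range S.z) := by
  induction hx using AddSubgroup.closure_induction with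
  | mem x hx =>
    obtain ⟨l, hl, rfl⟩ := hx
    exact S.w_mem_closure (by rintro rfl; simp at hl)
  | zero => exact zero_mem _
  | add x y _ _ hx hy => exact add_mem hx hy
  | neg x _ hx => exact neg_mem hx

theorem aug_cube {x : A} (hx : x ∈ S.pw 1) : x * x * x = 0 := S.nil x (S.aug_le hx)

/-- Every element is an integer plus an element of the augmentation ideal. -/
theorem exists_aug (a : A) : ∃ (m : ℤ), ∃ x ∈ S.pw 1, a = m • (1 : A) + x := by
  have ha := S.mem_closure_words a
  induction ha using AddSubgroup.closure_induction with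
  | mem x hx =>
    obtain ⟨l, rfl⟩ := hx
    by_cases h : l = []
    · subst h
      exact ⟨1, 0, zero_mem _, by simp⟩
    · refine ⟨0, S.w l, S.w_mem_pw ?_, by simp⟩
      exact List.length_pos_iff.2 h
  | zero => exact ⟨0, 0, zero_mem _, by simp⟩
  | add x y _ _ hx hy =>
    obtain ⟨m, g, hg, rfl⟩ := hx
    obtain ⟨m', g', hg', rfl⟩ := hy
    exact ⟨m + m', g + g', add_mem hg hg', by rw [add_smul]; abel⟩
  | neg x _ hx =>
    obtain ⟨m, g, hg, rfl⟩ := hx
    exact ⟨-m, -g, neg_mem hg, by rw [neg_smul]; abel⟩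

/-- Every element is an integer, plus a combination of letters, plus an element of the square of
the augmentation ideal. -/
theorem mem_span_letters (a : A) :
    a ∈ AddSubgroup.closure ({1} ∪ Set.range S.z) ⊔ S.pw 2 := by
  have ha := S.mem_closure_words a
  induction ha using AddSubgroup.closure_induction with
  | mem x hx =>
    obtain ⟨l, rfl⟩ := hx
    match l with
    | [] => exact AddSubgroup.mem_sup_left (AddSubgroup.subset_closure (by simp))
    | [x] =>
      refine AddSubgroup.mem_sup_left (AddSubgroup.subset_closure ?_)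
      right
      exact ⟨x, by simp⟩
    | x :: y :: l => exact AddSubgroup.mem_sup_right (S.w_mem_pw (by simp))
  | zero => exact zero_mem _
  | add x y _ _ hx hy => exact add_mem hx hy
  | neg x _ hx => exact neg_mem hx

theorem acc_refl (X : AddSubgroup A) : S.Acc X X := fun _ _ _ h => by
  obtain ⟨K, hK⟩ := h
  exact ⟨K, hK⟩

theorem acc_trans {X Y Z : AddSubgroup A} (h : S.Acc X Y) (h' : S.Acc Y Z) : S.Acc X Z :=
  fun N hN hI hs => h N hN hI (h' N hN hI hs)

theorem acc_bot (h : S.Acc ⊤ ⊥) (N : ℕ → AddSubgroup A) (hN : Monotone N)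
    (hNI : ∀ k, S.Inv (N k)) : ∃ K, ∀ k, K ≤ k → N k = N K := by
  obtain ⟨K, hK⟩ := h N hN hNI ⟨0, fun k _ => by simp⟩
  refine ⟨K, fun k hk => le_antisymm ?_ (hN hk)⟩
  simpa using hK k hk

end Sys

/-- The Nagata-Higman argument for exponent three, with torsion. -/
theorem nagata_higman {R : Type*} [NonUnitalRing R] (m : ℕ) (h : ∀ x : R, m • (x * x * x) = 0)
    (x₁ x₂ x₃ z x₄ x₅ x₆ : R) :
    (24 * m) • (x₁ * x₂ * x₃ * z * (x₄ * x₅ * x₆)) = 0 := by
  have q : ∀ x y : R, (2 * m) • (x * x * y + x * y * x + y * x * x) = 0 := by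
    intro x y
    have h1 := h (x + y)
    have h2 := h (x - y)
    have h3 := h y
    have e : (2 * m) • (x * x * y + x * y * x + y * x * x) =
        m • ((x + y) * (x + y) * (x + y)) - m • ((x - y) * (x - y) * (x - y))
          - 2 • (m • (y * y * y)) := by
      rw [mul_comm, mul_smul, smul_comm 2 m, ← smul_sub, ← smul_sub]
      congr 1
      simp only [mul_add, add_mul, mul_sub, sub_mul, two_smul]
      abel
    rw [e, h1, h2, h3]
    simp
  have r : ∀ x z y : R, (6 * m) • (x * x * z * (y * y)) = 0 := by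
    intro x z y
    have h1 := congrArg (· * (y * y)) (q x z)
    have h2 := congrArg (· * y) (q x (z * y))
    have h3 := q x (z * (y * y))
    have h4 := congrArg ((x * z) * ·) (q y x)
    have h5 := congrArg (z * ·) (q y (x * x))
    simp only [smul_mul_assoc, mul_smul_comm, zero_mul, mul_zero] at h1 h2 h4 h5
    have e : (6 * m) • (x * x * z * (y * y)) =
        (2 * m) • ((x * x * z + x * z * x + z * x * x) * (y * y)) +
        (2 * m) • ((x * x * (z * y) + x * (z * y) * x + (z * y) * x * x) * y) +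
        (2 * m) • (x * x * (z * (y * y)) + x * (z * (y * y)) * x + (z * (y * y)) * x * x) -
        (2 * m) • (x * z * (y * y * x + y * x * y + x * y * y)) -
        (2 * m) • (z * (y * y * (x * x) + y * (x * x) * y + (x * x) * y * y)) := by
      rw [show 6 * m = (2 * m) * 3 by ring, mul_smul, ← smul_add, ← smul_add, ← smul_sub,
        ← smul_sub]
      congr 1
      simp only [mul_add, add_mul, ← mul_assoc]
      abel
    rw [e, h1, h2, h3, h4, h5]
    simp
  have r1 : ∀ a b z y : R, (6 * m) • ((a * b + b * a) * z * (y * y)) = 0 := by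
    intro a b z y
    have h1 := r (a + b) z y
    have h2 := r a z y
    have h3 := r b z y
    have e : (6 * m) • ((a * b + b * a) * z * (y * y)) =
        (6 * m) • ((a + b) * (a + b) * z * (y * y)) - (6 * m) • (a * a * z * (y * y)) -
          (6 * m) • (b * b * z * (y * y)) := by
      rw [← smul_sub, ← smul_sub]
      congr 1
      simp only [mul_add, add_mul]
      abel
    rw [e, h1, h2, h3]
    simp
  have r2 : ∀ a b z c d : R, (6 * m) • ((a * b + b * a) * z * (c * d + d * c)) = 0 := by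
    intro a b z c d
    have h1 := r1 a b z (c + d)
    have h2 := r1 a b z c
    have h3 := r1 a b z d
    have e : (6 * m) • ((a * b + b * a) * z * (c * d + d * c)) =
        (6 * m) • ((a * b + b * a) * z * ((c + d) * (c + d))) -
          (6 * m) • ((a * b + b * a) * z * (c * c)) -
          (6 * m) • ((a * b + b * a) * z * (d * d)) := by
      rw [← smul_sub, ← smul_sub]
      congr 1
      simp only [mul_add, add_mul]
      abel
    rw [e, h1, h2, h3]
    simp
  have r3 : ∀ u a b z c d v : R,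
      (6 * m) • (u * ((a * b + b * a) * z * (c * d + d * c)) * v) = 0 := by
    intro u a b z c d v
    rw [← smul_mul_assoc, ← mul_smul_comm, r2]
    simp
  have r4 : ∀ u a b z c d : R,
      (6 * m) • (u * ((a * b + b * a) * z * (c * d + d * c))) = 0 := by
    intro u a b z c d
    rw [← mul_smul_comm, r2]
    simp
  have r5 : ∀ a b z c d v : R,
      (6 * m) • (((a * b + b * a) * z * (c * d + d * c)) * v) = 0 := by
    intro a b z c d v
    rw [← smul_mul_assoc, r2]
    simp
  -- nine products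
  have e : (24 * m) • (x₁ * x₂ * x₃ * z * (x₄ * x₅ * x₆)) =
      (6 * m) • (((x₁ * x₂) * x₃ + x₃ * (x₁ * x₂)) * z * ((x₄ * x₅) * x₆ + x₆ * (x₄ * x₅)))
      - (6 * m) • (((x₁ * x₂) * x₃ + x₃ * (x₁ * x₂)) * z * (x₆ * x₄ + x₄ * x₆) * x₅)
      + (6 * m) • (((x₁ * x₂) * x₃ + x₃ * (x₁ * x₂)) * (z * x₄) * (x₆ * x₅ + x₅ * x₆))
      - (6 * m) • ((x₃ * x₁ + x₁ * x₃) * (x₂ * z) * ((x₄ * x₅) * x₆ + x₆ * (x₄ * x₅)))
      + (6 * m) • ((x₃ * x₁ + x₁ * x₃) * (x₂ * z) * (x₆ * x₄ + x₄ * x₆) * x₅)
      - (6 * m) • ((x₃ * x₁ + x₁ * x₃) * (x₂ * z * x₄) * (x₆ * x₅ + x₅ * x₆))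
      + (6 * m) • (x₁ * ((x₃ * x₂ + x₂ * x₃) * z * ((x₄ * x₅) * x₆ + x₆ * (x₄ * x₅))))
      - (6 * m) • (x₁ * ((x₃ * x₂ + x₂ * x₃) * z * (x₆ * x₄ + x₄ * x₆)) * x₅)
      + (6 * m) • (x₁ * ((x₃ * x₂ + x₂ * x₃) * (z * x₄) * (x₆ * x₅ + x₅ * x₆))) := by
    rw [show 24 * m = (6 * m) * 4 by ring, mul_smul]
    simp only [← smul_add, ← smul_sub]
    congr 1
    simp only [mul_add, add_mul, ← mul_assoc]
    abel
  rw [e, r2, r5, r2, r2, r5, r2, r4, r3, r4]
  simp

end Pool.Agent.Work.MP_f5ed0a_al
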