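import Pool.Agent.Work.MP_f5ed0a_al.PolyLemmas

set_option autoImplicit false

namespace Pool.Agent.Work.MP_f5ed0a_al

/-- The span of the words with a given property. -/
noncomputable def Wd (P : List ℕ → Prop) : AddSubgroup Poly :=
  AddSubgroup.closure {g | ∃ i l, P (i :: l) ∧ g = pwd i l}

theorem pwd_mem_Wd {P : List ℕ → Prop} {i : ℕ} {l : List ℕ} (h : P (i :: l)) : pwd i l ∈ Wd P :=
  AddSubgroup.subset_closure ⟨i, l, h, rfl⟩

theorem ev_pwd_of_eq {v : ℕ → Poly} {i : ℕ} {l : List ℕ} (h : ∀ j ∈ i :: l, v j = X j) :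
    ev v (pwd i l) = pwd i l := by
  induction l using List.reverseRecOn with
  | nil => rw [← X, ev_X]; exact h i (by simp)
  | append_singleton l j ih =>
    rw [pwd_append_single, map_mul, ih (fun k hk => h k (by
      simp only [List.mem_cons, List.mem_append] at *
      tauto)), ev_X, h j (by simp)]

theorem ev_pwd_zero {v : ℕ → Poly} {i : ℕ} {l : List ℕ} {k : ℕ} (hk : v k = 0)
    (h : k ∈ i :: l) : ev v (pwd i l) = 0 := by
  induction l using List.reverseRecOn with
  | nil =>
    rw [← X, ev_X]
    simp only [List.mem_cons, List.not_mem_nil, or_false] at h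
    rw [← h, hk]
  | append_singleton l j ih =>
    rw [pwd_append_single, map_mul]
    by_cases hj : k = j
    · rw [ev_X, ← hj, hk, mul_zero]
    · rw [ih, zero_mul]
      simp only [List.mem_cons, List.mem_append, List.not_mem_nil, or_false] at h
      simp only [List.mem_cons]
      tauto

theorem ev_pwd_rename (σ : ℕ → ℕ) (i : ℕ) (l : List ℕ) :
    ev (fun k => X (σ k)) (pwd i l) = pwd (σ i) (l.map σ) := by
  induction l using List.reverseRecOn with
  | nil => rw [← X, ev_X]; rfl
  | append_singleton l j ih =>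
    rw [pwd_append_single, map_mul, ih, ev_X, List.map_append, List.map_cons, List.map_nil,
      pwd_append_single]

/-- Setting a variable to zero. -/
noncomputable def kill (i : ℕ) : Poly →ₙₐ[ℤ] Poly := ev (fun j => if j = i then 0 else X j)

theorem kill_pwd_mem {i j : ℕ} {l : List ℕ} (h : i ∈ j :: l) : kill i (pwd j l) = 0 :=
  ev_pwd_zero (k := i) (if_pos rfl) h

theorem kill_pwd_notMem {i j : ℕ} {l : List ℕ} (h : i ∉ j :: l) :
    kill i (pwd j l) = pwd j l :=
  ev_pwd_of_eq (fun k hk => if_neg (fun hki : k = i => h (hki ▸ hk)))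

theorem kill_mem_Wd {s : Finset ℕ} (i : ℕ) {f : Poly} (hf : f ∈ Wd (fun w => ∀ x ∈ w, x ∈ s)) :
    kill i f ∈ Wd (fun w => ∀ x ∈ w, x ∈ s.erase i) := by
  induction hf using AddSubgroup.closure_induction with
  | mem x hx =>
    obtain ⟨j, l, h, rfl⟩ := hx
    by_cases hi : i ∈ j :: l
    · rw [kill_pwd_mem hi]; exact zero_mem _
    · rw [kill_pwd_notMem hi]
      apply pwd_mem_Wd
      intro x hx
      rw [Finset.mem_erase]
      exact ⟨fun h' => hi (h' ▸ hx), h x hx⟩
  | zero => rw [map_zero]; exact zero_mem _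
  | add x y _ _ hx hy => rw [map_add]; exact add_mem hx hy
  | neg x _ hx => rw [map_neg]; exact neg_mem hx

theorem Wd_mono {P Q : List ℕ → Prop} (h : ∀ w, P w → Q w) : Wd P ≤ Wd Q := by
  apply AddSubgroup.closure_mono
  rintro _ ⟨i, l, hP, rfl⟩
  exact ⟨i, l, h _ hP, rfl⟩

theorem sub_kill_mem_Wd {s : List ℕ} (i : ℕ) {f : Poly} (hf : f ∈ Wd (fun w => ∀ x ∈ s, x ∈ w)) :
    f - kill i f ∈ Wd (fun w => ∀ x ∈ i :: s, x ∈ w) := by
  induction hf using AddSubgroup.closure_induction with
  | mem x hx =>
    obtain ⟨j, l, h, rfl⟩ := hx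
    by_cases hi : i ∈ j :: l
    · rw [kill_pwd_mem hi, sub_zero]
      apply pwd_mem_Wd
      intro x hx
      rcases List.mem_cons.1 hx with rfl | hx
      · exact hi
      · exact h x hx
    · rw [kill_pwd_notMem hi, sub_self]; exact zero_mem _
  | zero => rw [map_zero, sub_zero]; exact zero_mem _
  | add x y _ _ hx hy =>
    have : x + y - kill i (x + y) = (x - kill i x) + (y - kill i y) := by
      rw [map_add]; abel
    rw [this]; exact add_mem hx hy
  | neg x _ hx =>
    have : -x - kill i (-x) = -(x - kill i x) := by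
      rw [map_neg]; abel
    rw [this]; exact neg_mem hx

theorem Wd_le {P : List ℕ → Prop} {N : AddSubgroup Poly} (h : ∀ i l, P (i :: l) → pwd i l ∈ N) :
    Wd P ≤ N := by
  rw [Wd, AddSubgroup.closure_le]
  rintro _ ⟨i, l, hP, rfl⟩
  exact h i l hP

theorem exists_rename (L : ℕ) (s : Finset ℕ) (hs : s.card ≤ L) :
    ∃ σ τ : ℕ → ℕ, (∀ x ∈ s, σ x < L) ∧ ∀ x ∈ s, τ (σ x) = x := by
  classical
  have e := s.equivFin
  refine ⟨fun x => if h : x ∈ s then (e ⟨x, h⟩ : ℕ) else 0,
    fun y => if h : y < s.card then (e.symm ⟨y, h⟩ : ℕ) else 0, ?_, ?_⟩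
  · intro x hx
    simp only [dif_pos hx]
    exact lt_of_lt_of_le (Fin.is_lt _) hs
  · intro x hx
    simp only [dif_pos hx]
    rw [dif_pos (Fin.is_lt _)]
    simp

theorem reduce_vars {L : ℕ} {N N' : AddSubgroup Poly} (hN : IsTIdeal N) (hN' : IsTIdeal N')
    (hL : ∀ i l, L ≤ l.length + 1 → pwd i l ∈ N)
    (h : ∀ f ∈ N', f ∈ Wd (fun w => ∀ x ∈ w, x < L) → f ∈ N) :
    ∀ (c : ℕ) (s : Finset ℕ), s.card = c → ∀ f ∈ N', f ∈ Wd (fun w => ∀ x ∈ w, x ∈ s) → f ∈ N := by
  intro c
  induction c with
  | zero =>
    intro s hs f _ hf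
    have : s = ∅ := Finset.card_eq_zero.1 hs
    subst this
    refine (Wd_le ?_) hf
    intro i l hP
    exact absurd (hP i (by simp)) (by simp)
  | succ c ih =>
    intro s hs f hf hfs
    by_cases hsL : s.card ≤ L
    · obtain ⟨σ, τ, hσ, hτ⟩ := exists_rename L s hsL
      have h1 : ev (fun k => X (σ k)) f ∈ N' := hN'.subst _ f hf
      have h2 : ev (fun k => X (σ k)) f ∈ Wd (fun w => ∀ x ∈ w, x < L) := by
        clear hf h1
        induction hfs using AddSubgroup.closure_induction with
        | mem x hx =>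
          obtain ⟨i, l, hP, rfl⟩ := hx
          rw [ev_pwd_rename]
          apply pwd_mem_Wd
          intro x hx
          rw [← List.map_cons (f := σ), List.mem_map] at hx
          obtain ⟨y, hy, rfl⟩ := hx
          exact hσ y (hP y hy)
        | zero => rw [map_zero]; exact zero_mem _
        | add x y _ _ hx hy => rw [map_add]; exact add_mem hx hy
        | neg x _ hx => rw [map_neg]; exact neg_mem hx
      have h3 : ev (fun k => X (τ k)) (ev (fun k => X (σ k)) f) = f := by
        clear hf h1 h2
        induction hfs using AddSubgroup.closure_induction with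
        | mem x hx =>
          obtain ⟨i, l, hP, rfl⟩ := hx
          rw [ev_pwd_rename, ev_pwd_rename, hτ i (hP i (by simp)), List.map_map]
          congr 1
          rw [List.map_congr_left (g := id)]
          · simp
          · intro y hy
            exact hτ y (hP y (List.mem_cons_of_mem _ hy))
        | zero => rw [map_zero, map_zero]
        | add x y _ _ hx hy => rw [map_add, map_add, hx, hy]
        | neg x _ hx => rw [map_neg, map_neg, hx]
      rw [← h3]
      exact hN.subst _ _ (h _ h1 h2)
    · push Not at hsL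
      -- remove all the words that miss a variable
      have key : ∀ l : List ℕ, (∀ x ∈ l, x ∈ s) → ∃ g ∈ N', g ∈ Wd (fun w => ∀ x ∈ w, x ∈ s) ∧
          f - g ∈ N ∧ g ∈ Wd (fun w => ∀ x ∈ l, x ∈ w) := by
        intro l
        induction l with
        | nil =>
          intro _
          exact ⟨f, hf, hfs, by rw [sub_self]; exact zero_mem _,
            Wd_mono (fun w _ x hx => absurd hx (by simp)) hfs⟩
        | cons i l ihl =>
          intro hl
          obtain ⟨g, hg1, hg2, hg3, hg4⟩ := ihl (fun x hx => hl x (List.mem_cons_of_mem _ hx))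
          have hi : i ∈ s := hl i (by simp)
          have hk1 : kill i g ∈ N' := hN'.subst _ g hg1
          have hk2 := kill_mem_Wd i hg2
          have hk3 : kill i g ∈ N := by
            refine ih (s.erase i) ?_ _ hk1 hk2
            rw [Finset.card_erase_of_mem hi, hs]
            rfl
          refine ⟨g - kill i g, sub_mem hg1 hk1, ?_, ?_, sub_kill_mem_Wd i hg4⟩
          · exact sub_mem hg2 (Wd_mono (fun w hw x hx => Finset.mem_of_mem_erase (hw x hx)) hk2)
          · have : f - (g - kill i g) = (f - g) + kill i g := by abel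
            rw [this]
            exact add_mem hg3 hk3
      obtain ⟨g, hg1, hg2, hg3, hg4⟩ := key s.toList (fun x hx => Finset.mem_toList.1 hx)
      have hg5 : g ∈ N := by
        refine (Wd_le ?_) hg4
        intro i l hP
        apply hL
        have h1 : s ⊆ (i :: l).toFinset := by
          intro x hx
          rw [List.mem_toFinset]
          exact hP x (Finset.mem_toList.2 hx)
        have h2 := (Finset.card_le_card h1).trans (List.toFinset_card_le _)
        simp only [List.length_cons] at h2
        omega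
      have : f = (f - g) + g := by abel
      rw [this]
      exact add_mem hg3 hg5

theorem exists_finset (f : Poly) : ∃ s : Finset ℕ, f ∈ Wd (fun w => ∀ x ∈ w, x ∈ s) := by
  induction f using poly_induction with
  | h0 => exact ⟨∅, zero_mem _⟩
  | hadd f g hf hg =>
    obtain ⟨s, hs⟩ := hf
    obtain ⟨t, ht⟩ := hg
    refine ⟨s ∪ t, add_mem ?_ ?_⟩
    · exact Wd_mono (fun w hw x hx => Finset.mem_union_left _ (hw x hx)) hs
    · exact Wd_mono (fun w hw x hx => Finset.mem_union_right _ (hw x hx)) ht
  | hneg f hf =>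
    obtain ⟨s, hs⟩ := hf
    exact ⟨s, neg_mem hs⟩
  | hw i l => exact ⟨(i :: l).toFinset, pwd_mem_Wd (fun x hx => List.mem_toFinset.2 hx)⟩

theorem beta (L : ℕ) (N : ℕ → AddSubgroup Poly) (hmono : Monotone N) (hT : ∀ k, IsTIdeal (N k))
    (hL : ∀ i l, L ≤ l.length + 1 → pwd i l ∈ N 0) : ∃ K, ∀ k, K ≤ k → N k = N K := by
  classical
  let W := Fin L × {l : List (Fin L) // l.length < L}
  have hW1 : Finite {l : List (Fin L) // l.length < L} :=
    (List.finite_length_lt (Fin L) L).to_subtype
  have := Fintype.ofFinite {l : List (Fin L) // l.length < L}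
  let wd : W → Poly := fun w => pwd (w.1 : ℕ) (w.2.1.map Fin.val)
  let Φ : (W → ℤ) →ₗ[ℤ] Poly := Fintype.linearCombination ℤ wd
  let C : ℕ →o Submodule ℤ (W → ℤ) :=
    { toFun := fun k => (AddSubgroup.toIntSubmodule (N k)).comap Φ
      monotone' := by
        intro i j hij x hx
        exact hmono hij hx }
  obtain ⟨K, hK⟩ := monotone_stabilizes_iff_noetherian.2 (inferInstance : IsNoetherian ℤ (W → ℤ)) C
  refine ⟨K, fun k hk => le_antisymm ?_ (hmono hk)⟩
  have hsmall : ∀ f ∈ N k, f ∈ Wd (fun w => ∀ x ∈ w, x < L) → f ∈ N K := by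
    intro f hf hfW
    have h1 : ∃ c : W → ℤ, f - Φ c ∈ N 0 := by
      clear hf
      induction hfW using AddSubgroup.closure_induction with
      | mem x hx =>
        obtain ⟨i, l, hP, rfl⟩ := hx
        by_cases hlen : l.length + 1 < L
        · have hl : ∃ l' : List (Fin L), l'.map Fin.val = l := by
            refine ⟨l.pmap (fun x hx => (⟨x, hx⟩ : Fin L)) (fun x hx => hP x (by simp [hx])), ?_⟩
            rw [List.map_pmap]
            simp
          obtain ⟨l', hl'⟩ := hl
          have hlen' : l'.length < L := by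
            rw [← hl', List.length_map] at hlen
            omega
          refine ⟨Pi.single (⟨i, hP i (by simp)⟩, ⟨l', hlen'⟩) 1, ?_⟩
          have : Φ (Pi.single (⟨i, hP i (by simp)⟩, ⟨l', hlen'⟩) 1) = pwd i l := by
            simp only [Φ]
            rw [Fintype.linearCombination_apply_single, one_smul]
            simp only [wd, hl']
          rw [this, sub_self]
          exact zero_mem _
        · exact ⟨0, by rw [map_zero, sub_zero]; exact hL i l (by omega)⟩
      | zero => exact ⟨0, by rw [map_zero, sub_zero]; exact zero_mem _⟩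
      | add x y _ _ hx hy =>
        obtain ⟨c, hc⟩ := hx
        obtain ⟨d, hd⟩ := hy
        refine ⟨c + d, ?_⟩
        have : x + y - Φ (c + d) = (x - Φ c) + (y - Φ d) := by rw [map_add]; abel
        rw [this]
        exact add_mem hc hd
      | neg x _ hx =>
        obtain ⟨c, hc⟩ := hx
        refine ⟨-c, ?_⟩
        have : -x - Φ (-c) = -(x - Φ c) := by rw [map_neg]; abel
        rw [this]
        exact neg_mem hc
    obtain ⟨c, hc⟩ := h1
    have h2 : Φ c ∈ N k := by
      have : Φ c = f - (f - Φ c) := by abel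
      rw [this]
      exact sub_mem hf (hmono (Nat.zero_le k) hc)
    have h3 : c ∈ C k := h2
    rw [← hK k hk] at h3
    have h4 : Φ c ∈ N K := h3
    have : f = (f - Φ c) + Φ c := by abel
    rw [this]
    exact add_mem (hmono (Nat.zero_le K) hc) h4
  intro f hf
  obtain ⟨s, hs⟩ := exists_finset f
  exact reduce_vars (hT K) (hT k) (fun i l h => hmono (Nat.zero_le K) (hL i l h)) hsmall
    s.card s rfl f hf hs

end Pool.Agent.Work.MP_f5ed0a_al
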