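import Pool.Agent.Work.MP_f5ed0a_al.CharBig

set_option autoImplicit false

namespace Pool.Agent.Work.MP_f5ed0a_al

/-- The commutator. -/
def cm {A : Type*} [Ring A] (a b : A) : A := a * b - b * a

namespace Sys

section general

variable {p : ℕ} {B : Type*} {A : Type*} [Ring A] (S : Sys p B A)

theorem sub_cm (σ : ℕ → ℕ) (a b : A) : S.sub σ (cm a b) = cm (S.sub σ a) (S.sub σ b) := by
  simp [cm]

theorem cm_aug (x y : A) : ∃ x' ∈ S.pw 1, ∃ y' ∈ S.pw 1, cm x y = cm x' y' := by
  obtain ⟨m, x', hx', rfl⟩ := S.exists_aug x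
  obtain ⟨n, y', hy', rfl⟩ := S.exists_aug y
  refine ⟨x', hx', y', hy', ?_⟩
  simp only [cm, add_mul, mul_add, smul_mul_assoc, mul_smul_comm, one_mul, mul_one, smul_add,
    smul_smul]
  rw [mul_comm n m]
  abel

theorem cm_mem_pw (x y : A) : cm x y ∈ S.pw 1 := by
  obtain ⟨x', hx', y', hy', h⟩ := S.cm_aug x y
  rw [h, cm]
  exact sub_mem (S.pw_right _ hx') (S.pw_right _ hy')

/-- The powers of the commutator ideal. -/
def K : ℕ → AddSubgroup A
  | 0 => ⊤
  | j + 1 => AddSubgroup.closure {x | ∃ k ∈ K j, ∃ a b c, x = k * cm a b * c}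

theorem mem_K_succ {j : ℕ} {k : A} (hk : k ∈ K (A := A) j) (a b c : A) :
    k * cm a b * c ∈ K (A := A) (j + 1) :=
  AddSubgroup.subset_closure ⟨k, hk, a, b, c, rfl⟩

theorem mem_K_zero (a : A) : a ∈ K (A := A) 0 := AddSubgroup.mem_top a

theorem K_left (j : ℕ) (a : A) : ∀ x ∈ K (A := A) j, a * x ∈ K (A := A) j := by
  induction j with
  | zero => intro x _; exact mem_K_zero _
  | succ j ih =>
    intro x hx
    induction hx using AddSubgroup.closure_induction with
    | mem x hx =>
      obtain ⟨k, hk, b, c, d, rfl⟩ := hx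
      have := mem_K_succ (ih k hk) b c d
      simpa [mul_assoc] using this
    | zero => simp
    | add x y _ _ hx hy => rw [mul_add]; exact add_mem hx hy
    | neg x _ hx => rw [mul_neg]; exact neg_mem hx

theorem K_right (j : ℕ) (a : A) : ∀ x ∈ K (A := A) j, x * a ∈ K (A := A) j := by
  cases j with
  | zero => intro x _; exact mem_K_zero _
  | succ j =>
    intro x hx
    induction hx using AddSubgroup.closure_induction with
    | mem x hx =>
      obtain ⟨k, hk, b, c, d, rfl⟩ := hx
      have := mem_K_succ hk b c (d * a)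
      simpa [mul_assoc] using this
    | zero => simp
    | add x y _ _ hx hy => rw [add_mul]; exact add_mem hx hy
    | neg x _ hx => rw [neg_mul]; exact neg_mem hx

theorem K_inv (j : ℕ) : S.Inv (K (A := A) j) where
  left a x hx := K_left j a x hx
  right a x hx := K_right j a x hx
  sub σ := by
    induction j with
    | zero => intro x _; exact mem_K_zero _
    | succ j ih =>
      intro x hx
      induction hx using AddSubgroup.closure_induction with
      | mem x hx =>
        obtain ⟨k, hk, b, c, d, rfl⟩ := hx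
        rw [map_mul, map_mul, S.sub_cm]
        exact mem_K_succ (ih k hk) _ _ _
      | zero => simp
      | add x y _ _ hx hy => rw [map_add]; exact add_mem hx hy
      | neg x _ hx => rw [map_neg]; exact neg_mem hx

theorem K_mul {i j : ℕ} {x y : A} (hx : x ∈ K (A := A) i) (hy : y ∈ K (A := A) j) :
    x * y ∈ K (A := A) (i + j) := by
  induction j generalizing y with
  | zero => exact K_right i y x hx
  | succ j ih =>
    induction hy using AddSubgroup.closure_induction with
    | mem y hy =>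
      obtain ⟨k, hk, b, c, d, rfl⟩ := hy
      have := mem_K_succ (ih hk) b c d
      simpa [mul_assoc, add_assoc] using this
    | zero => simp
    | add x y _ _ hx hy => rw [mul_add]; exact add_mem hx hy
    | neg x _ hx => rw [mul_neg]; exact neg_mem hx

theorem K_succ_le (j : ℕ) : K (A := A) (j + 1) ≤ K (A := A) j := by
  rw [K, AddSubgroup.closure_le]
  rintro _ ⟨k, hk, a, b, c, rfl⟩
  rw [mul_assoc]
  exact K_right j _ k hk

theorem cm_mem_K (a b : A) : cm a b ∈ K (A := A) 1 := by
  simpa using mem_K_succ (mem_K_zero (1 : A)) a b 1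

theorem K_one_le : K (A := A) 1 ≤ S.pw 1 := by
  rw [K, AddSubgroup.closure_le]
  rintro _ ⟨k, hk, a, b, c, rfl⟩
  exact S.pw_right _ (S.pw_left _ (S.cm_mem_pw a b))

end general

section two

variable {B : Type*} {A : Type*} [Ring A] (S : Sys 2 B A)
include S

theorem add_self2 (x : A) : x + x = 0 := by
  have := S.char x
  rwa [two_smul] at this

theorem neg_eq2 (x : A) : -x = x := by
  rw [neg_eq_iff_add_eq_zero]
  exact S.add_self2 x

theorem cm_symm2 (x y : A) : cm x y = cm y x := by
  have h : cm x y = -cm y x := by simp [cm]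
  rw [h, S.neg_eq2]

theorem s3 {x y z : A} (hx : x ∈ S.pw 1) (hy : y ∈ S.pw 1) (hz : z ∈ S.pw 1) :
    x * y * z + x * z * y + y * x * z + y * z * x + z * x * y + z * y * x = 0 := by
  have h1 := S.aug_cube (add_mem (add_mem hx hy) hz)
  have h2 := S.aug_cube (add_mem hx hy)
  have h3 := S.aug_cube (add_mem hx hz)
  have h4 := S.aug_cube (add_mem hy hz)
  have h5 := S.aug_cube hx
  have h6 := S.aug_cube hy
  have h7 := S.aug_cube hz
  have e : x * y * z + x * z * y + y * x * z + y * z * x + z * x * y + z * y * x =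
      (x + y + z) * (x + y + z) * (x + y + z) - (x + y) * (x + y) * (x + y)
      - (x + z) * (x + z) * (x + z) - (y + z) * (y + z) * (y + z) + x * x * x + y * y * y
      + z * z * z := by
    noncomm_ring
  rw [e, h1, h2, h3, h4, h5, h6, h7]
  simp

theorem star {x y z t : A} (hx : x ∈ S.pw 1) (hy : y ∈ S.pw 1) (hz : z ∈ S.pw 1)
    (ht : t ∈ S.pw 1) : z * cm x y * t = cm x z * cm y t + cm y z * cm x t := by
  have h1 := S.s3 hx hy (S.pw_right t hz)
  have h2 := S.s3 hx hy hz
  have h3 := S.s3 hx hy ht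
  have h4 := S.add_self2 (-(x*y*z*t) - (x*z*y*t) - (y*x*z*t) - (y*z*x*t) - (z*t*x*y) - (z*t*y*x)
    - (z*x*t*y) - (z*y*t*x) - (z*y*x*t))
  have e : z * cm x y * t - (cm x z * cm y t + cm y z * cm x t) =
      (x * y * (z * t) + x * (z * t) * y + y * x * (z * t) + y * (z * t) * x + (z * t) * x * y
        + (z * t) * y * x)
      + (x * y * z + x * z * y + y * x * z + y * z * x + z * x * y + z * y * x) * t
      + z * (x * y * t + x * t * y + y * x * t + y * t * x + t * x * y + t * y * x)
      + ((-(x*y*z*t) - (x*z*y*t) - (y*x*z*t) - (y*z*x*t) - (z*t*x*y) - (z*t*y*x)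
    - (z*x*t*y) - (z*y*t*x) - (z*y*x*t)) + (-(x*y*z*t) - (x*z*y*t) - (y*x*z*t) - (y*z*x*t)
    - (z*t*x*y) - (z*t*y*x) - (z*x*t*y) - (z*y*t*x) - (z*y*x*t))) := by
    simp only [cm]
    noncomm_ring
  rw [h1, h2, h3, h4] at e
  rw [← sub_eq_zero, e]
  simp

theorem sw {x y z t w : A} (hx : x ∈ S.pw 1) (hy : y ∈ S.pw 1) (hz : z ∈ S.pw 1)
    (ht : t ∈ S.pw 1) (hw : w ∈ S.pw 1) : cm x y * w * cm z t = cm z y * w * cm x t := by
  have h1 := S.star hx hz (S.pw_right w hy) ht
  have h2 := S.star hx hz hw ht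
  have e : cm x y * w * cm z t + cm z y * w * cm x t =
      (cm x (y * w) * cm z t + cm z (y * w) * cm x t) - y * (cm x w * cm z t + cm z w * cm x t) := by
    simp only [cm]
    noncomm_ring
  rw [← h1, ← h2] at e
  have e2 : (y * w) * cm x z * t - y * (w * cm x z * t) = 0 := by noncomm_ring
  rw [e2] at e
  rw [← sub_eq_zero, sub_eq_add_neg, S.neg_eq2]
  exact e

theorem F1 {a b : A} (x y : A) (ha : a ∈ S.pw 1) (hb : b ∈ S.pw 1) :
    a * cm x y * b ∈ K (A := A) 2 := by
  obtain ⟨x', hx', y', hy', h⟩ := S.cm_aug x y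
  rw [h, S.star hx' hy' ha hb]
  exact add_mem (K_mul (cm_mem_K _ _) (cm_mem_K _ _)) (K_mul (cm_mem_K _ _) (cm_mem_K _ _))

theorem F2a {x y z t v w : A} (hx : x ∈ S.pw 1) (hy : y ∈ S.pw 1) (hz : z ∈ S.pw 1)
    (ht : t ∈ S.pw 1) (hv : v ∈ S.pw 1) (hw : w ∈ S.pw 1) :
    cm x y * (w * t) * cm z v - cm x y * (w * v) * cm z t ∈ K (A := A) 3 := by
  have h1 : cm x y * w * cm z (t * v) = cm x y * (w * t) * cm z v + cm x y * (w * cm z t * v) := by
    simp only [cm]; noncomm_ring
  have h2 : cm x y * w * cm z (t * v) = (t * cm v y * w) * cm x z + cm x y * (v * w) * cm z t := by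
    rw [S.cm_symm2 z (t * v), S.sw hx hy (S.pw_right v ht) hz hw]
    have h3 : cm (t * v) y * w * cm x z = (t * cm v y * w) * cm x z + cm t y * (v * w) * cm x z := by
      simp only [cm]; noncomm_ring
    rw [h3, S.sw ht hy hx hz (S.pw_right w hv), S.cm_symm2 t z]
  have h4 : cm x y * (w * cm z t * v) ∈ K (A := A) 3 :=
    K_mul (i := 1) (j := 2) (cm_mem_K _ _) (S.F1 z t hw hv)
  have h5 : (t * cm v y * w) * cm x z ∈ K (A := A) 3 :=
    K_mul (i := 2) (j := 1) (S.F1 v y ht hw) (cm_mem_K _ _)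
  have h6 : cm x y * cm v w * cm z t ∈ K (A := A) 3 :=
    K_mul (i := 2) (j := 1) (K_mul (i := 1) (j := 1) (cm_mem_K _ _) (cm_mem_K _ _)) (cm_mem_K _ _)
  have e : cm x y * (w * t) * cm z v - cm x y * (w * v) * cm z t =
      (t * cm v y * w) * cm x z - cm x y * (w * cm z t * v) + cm x y * cm v w * cm z t := by
    have h7 : cm x y * (w * t) * cm z v = (t * cm v y * w) * cm x z + cm x y * (v * w) * cm z t
        - cm x y * (w * cm z t * v) := by
      rw [← h2, h1]; abel
    rw [h7]
    simp only [cm]; noncomm_ring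
  rw [e]
  exact add_mem (sub_mem h5 h4) h6

theorem F2b {x y z t v w : A} (hx : x ∈ S.pw 1) (hy : y ∈ S.pw 1) (hz : z ∈ S.pw 1)
    (ht : t ∈ S.pw 1) (hv : v ∈ S.pw 1) (hw : w ∈ S.pw 1) :
    cm x y * (w * v) * cm t z ∈ K (A := A) 3 := by
  have a1 := S.F2a hx hy hz ht hv hw
  have a2 := S.F2a hx hy ht hz hv hw
  have h3 := S.s3 ht hz hv
  have h4 : t * cm z v + z * cm t v + v * cm t z = 0 := by
    have h5 := S.add_self2 (-(t * v * z) - z * v * t - v * z * t)
    have e : t * cm z v + z * cm t v + v * cm t z =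
        (t * z * v + t * v * z + z * t * v + z * v * t + v * t * z + v * z * t) +
        ((-(t * v * z) - z * v * t - v * z * t) + (-(t * v * z) - z * v * t - v * z * t)) := by
      simp only [cm]; noncomm_ring
    rw [e, h3, h5]
    simp
  have h6 : cm x y * (w * t) * cm z v + cm x y * (w * z) * cm t v + cm x y * (w * v) * cm t z = 0 := by
    have e : cm x y * (w * t) * cm z v + cm x y * (w * z) * cm t v + cm x y * (w * v) * cm t z =
        cm x y * w * (t * cm z v + z * cm t v + v * cm t z) := by noncomm_ring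
    rw [e, h4, mul_zero]
  have h7 : cm x y * (w * v) * cm t z = - ((cm x y * (w * t) * cm z v - cm x y * (w * v) * cm z t)
      + (cm x y * (w * z) * cm t v - cm x y * (w * v) * cm t z)) := by
    have h8 := S.add_self2 (cm x y * (w * v) * cm t z)
    rw [S.cm_symm2 z t] at *
    have e : cm x y * (w * v) * cm t z + ((cm x y * (w * t) * cm z v - cm x y * (w * v) * cm t z)
      + (cm x y * (w * z) * cm t v - cm x y * (w * v) * cm t z)) =
        (cm x y * (w * t) * cm z v + cm x y * (w * z) * cm t v + cm x y * (w * v) * cm t z)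
        - (cm x y * (w * v) * cm t z + cm x y * (w * v) * cm t z) := by abel
    rw [h6, h8, sub_zero] at e
    exact eq_neg_of_add_eq_zero_left e
  rw [h7]
  exact neg_mem (add_mem a1 a2)

theorem F2 {k g a b : A} (hk : k ∈ K (A := A) 1) (hg : g ∈ K (A := A) 1) (ha : a ∈ S.pw 1)
    (hb : b ∈ S.pw 1) : k * (a * b) * g ∈ K (A := A) 3 := by
  have hk' : k ∈ AddSubgroup.closure {x | ∃ k ∈ K (A := A) 0, ∃ a b c, x = k * cm a b * c} := hk
  have hg' : g ∈ AddSubgroup.closure {x | ∃ k ∈ K (A := A) 0, ∃ a b c, x = k * cm a b * c} := hg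
  clear hk hg
  induction hk' using AddSubgroup.closure_induction with
  | mem x hx =>
    obtain ⟨k0, _, x, y, c, rfl⟩ := hx
    induction hg' using AddSubgroup.closure_induction with
    | mem g hg =>
      obtain ⟨g0, _, z, t, d, rfl⟩ := hg
      obtain ⟨x', hx', y', hy', h⟩ := S.cm_aug x y
      obtain ⟨z', hz', t', ht', h'⟩ := S.cm_aug z t
      rw [h, h']
      have h1 := S.F2b hx' hy' ht' hz' (S.pw_right g0 hb) (S.pw_left c ha)
      have h2 := K_left 3 k0 _ (K_right 3 d _ h1)
      convert h2 using 1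
      noncomm_ring
    | zero => simp
    | add x y _ _ hx hy => rw [mul_add]; exact add_mem hx hy
    | neg x _ hx => rw [mul_neg]; exact neg_mem hx
  | zero => simp
  | add x y _ _ hx hy => rw [add_mul, add_mul]; exact add_mem hx hy
  | neg x _ hx => rw [neg_mul, neg_mul]; exact neg_mem hx

theorem F3a {x₁ x₂ x₃ x₄ x₅ x₆ w₁ w₂ : A} (h₁ : x₁ ∈ S.pw 1) (h₂ : x₂ ∈ S.pw 1)
    (h₃ : x₃ ∈ S.pw 1) (h₄ : x₄ ∈ S.pw 1) (h₅ : x₅ ∈ S.pw 1) (h₆ : x₆ ∈ S.pw 1)
    (hw₁ : w₁ ∈ S.pw 1) (hw₂ : w₂ ∈ S.pw 1) :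
    cm x₁ x₂ * w₁ * cm x₃ x₄ * w₂ * cm x₅ x₆ = 0 := by
  -- swap `a` and `c` in the product of four commutators
  have sym : ∀ a ∈ S.pw 1, ∀ b ∈ S.pw 1, ∀ c ∈ S.pw 1, ∀ d ∈ S.pw 1,
      cm x₁ x₂ * cm a b * cm c d * cm x₅ x₆ = cm x₁ x₂ * cm c b * cm a d * cm x₅ x₆ := by
    intro a ha b hb c hc d hd
    have m2 : ∀ a ∈ S.pw 1, ∀ x₅ ∈ S.pw 1, ∀ c ∈ S.pw 1, ∀ x₁ : A,
        cm x₁ x₂ * cm a b * cm c d * cm x₅ x₆ = cm x₁ x₂ * cm x₅ b * cm c d * cm a x₆ := by
      intro a ha x₅ h₅ c _ x₁
      have := S.sw ha hb h₅ h₆ (S.cm_mem_pw c d)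
      have e1 : cm x₁ x₂ * cm a b * cm c d * cm x₅ x₆ = cm x₁ x₂ * (cm a b * cm c d * cm x₅ x₆) := by
        noncomm_ring
      rw [e1, this]
      noncomm_ring
    have m3 : ∀ x₁ ∈ S.pw 1, ∀ x₅ ∈ S.pw 1, ∀ a c : A,
        cm x₁ x₂ * cm a b * cm c d * cm x₅ x₆ = cm x₅ x₂ * cm a b * cm c d * cm x₁ x₆ := by
      intro x₁ h₁ x₅ h₅ a c
      have := S.sw h₁ h₂ h₅ h₆ (S.pw_right (cm c d) (S.cm_mem_pw a b))
      have e1 : cm x₁ x₂ * cm a b * cm c d * cm x₅ x₆ = cm x₁ x₂ * (cm a b * cm c d) * cm x₅ x₆ := by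
        noncomm_ring
      rw [e1, this]
      noncomm_ring
    have m1 : ∀ x₁ ∈ S.pw 1, ∀ c ∈ S.pw 1, ∀ a x₅ : A,
        cm x₁ x₂ * cm a b * cm c d * cm x₅ x₆ = cm c x₂ * cm a b * cm x₁ d * cm x₅ x₆ := by
      intro x₁ h₁ c hc a x₅
      have := S.sw h₁ h₂ hc hd (S.cm_mem_pw a b)
      rw [this]
    rw [m2 a ha x₅ h₅ c hc x₁, m3 x₁ h₁ a ha x₅ c, m1 a ha c hc x₅ x₁, m3 c hc x₁ h₁ x₅ a,
      m2 x₅ h₅ c hc a ha x₁]
  have h := S.star h₃ h₄ hw₁ hw₂
  have e : cm x₁ x₂ * w₁ * cm x₃ x₄ * w₂ * cm x₅ x₆ =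
      cm x₁ x₂ * (w₁ * cm x₃ x₄ * w₂) * cm x₅ x₆ := by noncomm_ring
  rw [e, h]
  have e2 : cm x₁ x₂ * (cm x₃ w₁ * cm x₄ w₂ + cm x₄ w₁ * cm x₃ w₂) * cm x₅ x₆ =
      cm x₁ x₂ * cm x₃ w₁ * cm x₄ w₂ * cm x₅ x₆ + cm x₁ x₂ * cm x₄ w₁ * cm x₃ w₂ * cm x₅ x₆ := by
    noncomm_ring
  rw [e2, sym x₃ h₃ w₁ hw₁ x₄ h₄ w₂ hw₂]
  exact S.add_self2 _

omit S in
theorem K_one_eq : K (A := A) 1 = AddSubgroup.closure {x | ∃ k a b c, x = k * cm a b * c} := by
  rw [K]
  congr 1
  ext x
  constructor
  · rintro ⟨k, _, h⟩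
    exact ⟨k, h⟩
  · rintro ⟨k, h⟩
    exact ⟨k, mem_K_zero _, h⟩

theorem F3 {k₁ k₂ k₃ a b : A} (hk₁ : k₁ ∈ K (A := A) 1) (hk₂ : k₂ ∈ K (A := A) 1)
    (hk₃ : k₃ ∈ K (A := A) 1) (ha : a ∈ S.pw 1) (hb : b ∈ S.pw 1) :
    k₁ * a * k₂ * b * k₃ = 0 := by
  rw [K_one_eq] at hk₁ hk₂ hk₃
  induction hk₁ using AddSubgroup.closure_induction with
  | mem x hx =>
    obtain ⟨u₁, x₁, x₂, v₁, rfl⟩ := hx
    induction hk₂ using AddSubgroup.closure_induction with
    | mem x hx =>
      obtain ⟨u₂, x₃, x₄, v₂, rfl⟩ := hx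
      induction hk₃ using AddSubgroup.closure_induction with
      | mem x hx =>
        obtain ⟨u₃, x₅, x₆, v₃, rfl⟩ := hx
        obtain ⟨y₁, h₁, y₂, h₂, e₁⟩ := S.cm_aug x₁ x₂
        obtain ⟨y₃, h₃, y₄, h₄, e₂⟩ := S.cm_aug x₃ x₄
        obtain ⟨y₅, h₅, y₆, h₆, e₃⟩ := S.cm_aug x₅ x₆
        rw [e₁, e₂, e₃]
        have := S.F3a h₁ h₂ h₃ h₄ h₅ h₆ (S.pw_right u₂ (S.pw_left v₁ ha))
          (S.pw_right u₃ (S.pw_left v₂ hb))
        have e : u₁ * cm y₁ y₂ * v₁ * a * (u₂ * cm y₃ y₄ * v₂) * b * (u₃ * cm y₅ y₆ * v₃) =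
            u₁ * (cm y₁ y₂ * (v₁ * a * u₂) * cm y₃ y₄ * (v₂ * b * u₃) * cm y₅ y₆) * v₃ := by
          noncomm_ring
        rw [e, this]
        simp
      | zero => simp
      | add x y _ _ hx hy => rw [mul_add, hx, hy, add_zero]
      | neg x _ hx => rw [mul_neg, hx, neg_zero]
    | zero => simp
    | add x y _ _ hx hy => rw [mul_add, add_mul, add_mul, hx, hy, add_zero]
    | neg x _ hx => rw [mul_neg, neg_mul, neg_mul, hx, neg_zero]
  | zero => simp
  | add x y _ _ hx hy => rw [add_mul, add_mul, add_mul, add_mul, hx, hy, add_zero]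
  | neg x _ hx => rw [neg_mul, neg_mul, neg_mul, neg_mul, hx, neg_zero]

omit S in
theorem K_succ_le_mul {j : ℕ} {H : AddSubgroup A}
    (h : ∀ k ∈ K (A := A) j, ∀ g ∈ K (A := A) 1, k * g ∈ H) : K (A := A) (j + 1) ≤ H := by
  rw [K, AddSubgroup.closure_le]
  rintro _ ⟨k, hk, a, b, c, rfl⟩
  rw [mul_assoc]
  exact h k hk _ (K_right 1 c _ (cm_mem_K a b))

theorem K_five : K (A := A) 5 = ⊥ := by
  rw [eq_bot_iff]
  apply K_succ_le_mul (j := 4)
  intro k hk g hg
  -- it suffices to treat `k = k₁ k₂ k₃ k₄`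
  have h4 : K (A := A) 4 ≤ (AddMonoidHom.mulRight g).ker := by
    apply K_succ_le_mul (j := 3)
    intro k hk k₄ hk₄
    have h3 : K (A := A) 3 ≤ (AddMonoidHom.mulRight (k₄ * g)).ker := by
      apply K_succ_le_mul (j := 2)
      intro k hk k₃ hk₃
      have h2 : K (A := A) 2 ≤ (AddMonoidHom.mulRight (k₃ * (k₄ * g))).ker := by
        apply K_succ_le_mul (j := 1)
        intro k₁ hk₁ k₂ hk₂
        rw [AddMonoidHom.mem_ker, AddMonoidHom.coe_mulRight]
        have := S.F3 hk₁ hk₃ hg (S.K_one_le hk₂) (S.K_one_le hk₄)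
        simpa [mul_assoc] using this
      have := h2 hk
      rw [AddMonoidHom.mem_ker, AddMonoidHom.coe_mulRight] at this ⊢
      simpa [mul_assoc] using this
    have := h3 hk
    rw [AddMonoidHom.mem_ker, AddMonoidHom.coe_mulRight] at this ⊢
    simpa [mul_assoc] using this
  have := h4 hk
  rw [AddMonoidHom.mem_ker, AddMonoidHom.coe_mulRight] at this
  exact this

theorem pw_two_induction {H : A → Prop} (h0 : H 0) (hadd : ∀ x y, H x → H y → H (x + y))
    (hneg : ∀ x, H x → H (-x)) (hmul : ∀ a ∈ S.pw 1, ∀ b ∈ S.pw 1, H (a * b)) {x : A}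
    (hx : x ∈ S.pw 2) : H x := by
  induction hx using AddSubgroup.closure_induction with
  | mem x hx =>
    obtain ⟨l, hl, rfl⟩ := hx
    match l, hl with
    | y :: z :: l, _ =>
      rw [w_cons]
      exact hmul _ (S.z_mem_pw y) _ (S.w_mem_pw (by simp))
  | zero => exact h0
  | add x y _ _ hx hy => exact hadd x y hx hy
  | neg x _ hx => exact hneg x hx

theorem F2' {k g v : A} (hk : k ∈ K (A := A) 1) (hg : g ∈ K (A := A) 1) (hv : v ∈ S.pw 2) :
    k * v * g ∈ K (A := A) 3 := by
  refine S.pw_two_induction (H := fun v => k * v * g ∈ K (A := A) 3) ?_ ?_ ?_ ?_ hv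
  · simp
  · intro x y hx hy
    rw [mul_add, add_mul]; exact add_mem hx hy
  · intro x hx
    rw [mul_neg, neg_mul]; exact neg_mem hx
  · intro a ha b hb
    exact S.F2 hk hg ha hb

theorem F2'' {j : ℕ} {k g v : A} (hk : k ∈ K (A := A) (j + 1)) (hg : g ∈ K (A := A) 1)
    (hv : v ∈ S.pw 2) : k * v * g ∈ K (A := A) (j + 3) := by
  have h : K (A := A) (j + 1) ≤ (K (A := A) (j + 3)).comap (AddMonoidHom.mulRight (v * g)) := by
    apply K_succ_le_mul
    intro k hk k₁ hk₁
    rw [AddSubgroup.mem_comap, AddMonoidHom.coe_mulRight]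
    have := K_mul hk (S.F2' hk₁ hg hv)
    simpa [mul_assoc] using this
  have := h hk
  rw [AddSubgroup.mem_comap, AddMonoidHom.coe_mulRight] at this
  simpa [mul_assoc] using this

/-- A core factor. -/
def cf (τ : Option (ℕ × B) × Option (ℕ × B) × Option (ℕ × B)) : A :=
  S.z1 τ.2.2 * cm (S.zz τ.1) (S.zz τ.2.1)

/-- A core: a product of commutators of letters, with gaps of length at most one. -/
def coreL (T : List (Option (ℕ × B) × Option (ℕ × B) × Option (ℕ × B))) : A :=
  (T.map S.cf).prod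

theorem cf_mem (τ : Option (ℕ × B) × Option (ℕ × B) × Option (ℕ × B)) : S.cf τ ∈ K (A := A) 1 :=
  K_left 1 _ _ (cm_mem_K _ _)

theorem coreL_mem (T : List (Option (ℕ × B) × Option (ℕ × B) × Option (ℕ × B))) :
    S.coreL T ∈ K (A := A) T.length := by
  induction T with
  | nil => exact mem_K_zero _
  | cons τ T ih =>
    rw [coreL, List.map_cons, List.prod_cons, List.length_cons, add_comm]
    exact K_mul (S.cf_mem τ) ih

theorem coreL_append (T T' : List (Option (ℕ × B) × Option (ℕ × B) × Option (ℕ × B))) :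
    S.coreL (T ++ T') = S.coreL T * S.coreL T' := by
  simp [coreL]

theorem cm_mem_letters (a b : A) :
    cm a b ∈ AddSubgroup.closure {x | ∃ u v y z, x = u * cm (S.z y) (S.z z) * v} := by
  have key : ∀ (y : ℕ × B) (l : List (ℕ × B)),
      cm (S.z y) (S.w l) ∈ AddSubgroup.closure {x | ∃ u v y z, x = u * cm (S.z y) (S.z z) * v} := by
    intro y l
    induction l with
    | nil => simp [cm]
    | cons x l ih =>
      have e : cm (S.z y) (S.w (x :: l)) = 1 * cm (S.z y) (S.z x) * S.w l +
          S.z x * cm (S.z y) (S.w l) := by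
        simp only [cm, w_cons]; noncomm_ring
      rw [e]
      refine add_mem (AddSubgroup.subset_closure ⟨_, _, _, _, rfl⟩) ?_
      generalize cm (S.z y) (S.w l) = g at ih
      induction ih using AddSubgroup.closure_induction with
      | mem g hg =>
        obtain ⟨u, v, y, z, rfl⟩ := hg
        exact AddSubgroup.subset_closure ⟨S.z x * u, v, y, z, by noncomm_ring⟩
      | zero => simp
      | add x y _ _ hx hy => rw [mul_add]; exact add_mem hx hy
      | neg x _ hx => rw [mul_neg]; exact neg_mem hx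
  have key2 : ∀ (l' l : List (ℕ × B)),
      cm (S.w l') (S.w l) ∈ AddSubgroup.closure {x | ∃ u v y z, x = u * cm (S.z y) (S.z z) * v} := by
    intro l' l
    induction l' with
    | nil => simp [cm]
    | cons x l' ih =>
      have e : cm (S.w (x :: l')) (S.w l) = cm (S.z x) (S.w l) * S.w l' +
          S.z x * cm (S.w l') (S.w l) := by
        simp only [cm, w_cons]; noncomm_ring
      rw [e]
      refine add_mem ?_ ?_
      · have h := key x l
        generalize cm (S.z x) (S.w l) = g at h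
        induction h using AddSubgroup.closure_induction with
        | mem g hg =>
          obtain ⟨u, v, y, z, rfl⟩ := hg
          exact AddSubgroup.subset_closure ⟨u, v * S.w l', y, z, by noncomm_ring⟩
        | zero => simp
        | add x y _ _ hx hy => rw [add_mul]; exact add_mem hx hy
        | neg x _ hx => rw [neg_mul]; exact neg_mem hx
      · generalize cm (S.w l') (S.w l) = g at ih
        induction ih using AddSubgroup.closure_induction with
        | mem g hg =>
          obtain ⟨u, v, y, z, rfl⟩ := hg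
          exact AddSubgroup.subset_closure ⟨S.z x * u, v, y, z, by noncomm_ring⟩
        | zero => simp
        | add x y _ _ hx hy => rw [mul_add]; exact add_mem hx hy
        | neg x _ hx => rw [mul_neg]; exact neg_mem hx
  have ha := S.mem_closure_words a
  have hb := S.mem_closure_words b
  induction ha using AddSubgroup.closure_induction with
  | mem x hx =>
    obtain ⟨l, rfl⟩ := hx
    induction hb using AddSubgroup.closure_induction with
    | mem x hx =>
      obtain ⟨l', rfl⟩ := hx
      exact key2 l l'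
    | zero => simp [cm]
    | add x y _ _ hx hy =>
      have e : cm (S.w l) (x + y) = cm (S.w l) x + cm (S.w l) y := by simp only [cm]; noncomm_ring
      rw [e]; exact add_mem hx hy
    | neg x _ hx =>
      have e : cm (S.w l) (-x) = -cm (S.w l) x := by simp only [cm]; noncomm_ring
      rw [e]; exact neg_mem hx
  | zero => simp [cm]
  | add x y _ _ hx hy =>
    have e : cm (x + y) b = cm x b + cm y b := by simp only [cm]; noncomm_ring
    rw [e]; exact add_mem hx hy
  | neg x _ hx =>
    have e : cm (-x) b = -cm x b := by simp only [cm]; noncomm_ring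
    rw [e]; exact neg_mem hx

theorem K_span (j : ℕ) : K (A := A) j ≤
    AddSubgroup.closure {x | ∃ u v T, T.length = j ∧ x = u * S.coreL T * v} ⊔ K (A := A) (j + 1) := by
  induction j with
  | zero =>
    intro a _
    refine AddSubgroup.mem_sup_left (AddSubgroup.subset_closure ⟨a, 1, [], rfl, ?_⟩)
    simp [coreL]
  | succ j ih =>
    -- the target group
    have hH : ∀ (u v : A), ∀ x ∈ AddSubgroup.closure
        {x | ∃ u v T, T.length = j + 1 ∧ x = u * S.coreL T * v} ⊔ K (A := A) (j + 1 + 1),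
        u * x * v ∈ AddSubgroup.closure
        {x | ∃ u v T, T.length = j + 1 ∧ x = u * S.coreL T * v} ⊔ K (A := A) (j + 1 + 1) := by
      intro u v x hx
      rw [AddSubgroup.mem_sup] at hx
      obtain ⟨y, hy, z, hz, rfl⟩ := hx
      rw [mul_add, add_mul]
      refine add_mem ?_ (AddSubgroup.mem_sup_right (K_right _ _ _ (K_left _ _ _ hz)))
      induction hy using AddSubgroup.closure_induction with
      | mem x hx =>
        obtain ⟨u', v', T, hT, rfl⟩ := hx
        refine AddSubgroup.mem_sup_left (AddSubgroup.subset_closure ⟨u * u', v' * v, T, hT, ?_⟩)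
        noncomm_ring
      | zero => simp
      | add x y _ _ hx hy => rw [mul_add, add_mul]; exact add_mem hx hy
      | neg x _ hx => rw [mul_neg, neg_mul]; exact neg_mem hx
    -- letters
    have h1 : ∀ y z : ℕ × B, ∀ k ∈ K (A := A) j, k * cm (S.z y) (S.z z) ∈ AddSubgroup.closure
        {x | ∃ u v T, T.length = j + 1 ∧ x = u * S.coreL T * v} ⊔ K (A := A) (j + 1 + 1) := by
      intro y z k hk
      have hk' := ih hk
      rw [AddSubgroup.mem_sup] at hk'
      obtain ⟨k₁, hk₁, k₂, hk₂, rfl⟩ := hk'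
      rw [add_mul]
      refine add_mem ?_ (AddSubgroup.mem_sup_right (K_mul hk₂ (cm_mem_K _ _)))
      clear hk
      induction hk₁ using AddSubgroup.closure_induction with
      | mem x hx =>
        obtain ⟨u, v, T, hT, rfl⟩ := hx
        cases j with
        | zero =>
          have : T = [] := List.length_eq_zero_iff.1 hT
          subst this
          refine AddSubgroup.mem_sup_left (AddSubgroup.subset_closure
            ⟨u * v, 1, [(some y, some z, none)], rfl, ?_⟩)
          simp [coreL, cf]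
        | succ j =>
          have hv := S.mem_span_letters v
          rw [AddSubgroup.mem_sup] at hv
          obtain ⟨v₁, hv₁, v₂, hv₂, rfl⟩ := hv
          have e : u * S.coreL T * (v₁ + v₂) * cm (S.z y) (S.z z) =
              u * S.coreL T * v₁ * cm (S.z y) (S.z z) +
              u * (S.coreL T * v₂ * cm (S.z y) (S.z z)) := by noncomm_ring
          rw [e]
          refine add_mem ?_ (AddSubgroup.mem_sup_right (K_left _ _ _ (S.F2'' ?_ (cm_mem_K _ _) hv₂)))
          · clear e
            induction hv₁ using AddSubgroup.closure_induction with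
            | mem v hv =>
              rcases hv with hv | ⟨x, rfl⟩
              · rw [Set.mem_singleton_iff] at hv
                subst hv
                refine AddSubgroup.mem_sup_left (AddSubgroup.subset_closure
                  ⟨u, 1, T ++ [(some y, some z, none)], by simp [hT], ?_⟩)
                rw [coreL_append]
                simp only [coreL, cf, List.map_cons, List.map_nil, List.prod_cons, List.prod_nil,
                  z1_none, zz_some]
                noncomm_ring
              · refine AddSubgroup.mem_sup_left (AddSubgroup.subset_closure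
                  ⟨u, 1, T ++ [(some y, some z, some x)], by simp [hT], ?_⟩)
                rw [coreL_append]
                simp only [coreL, cf, List.map_cons, List.map_nil, List.prod_cons, List.prod_nil,
                  z1_some, zz_some]
                noncomm_ring
            | zero => simp
            | add x y _ _ hx hy => rw [mul_add, add_mul]; exact add_mem hx hy
            | neg x _ hx => rw [mul_neg, neg_mul]; exact neg_mem hx
          · have := S.coreL_mem T
            rwa [hT] at this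
      | zero => simp
      | add x y _ _ hx hy => rw [add_mul]; exact add_mem hx hy
      | neg x _ hx => rw [neg_mul]; exact neg_mem hx
    rw [K, AddSubgroup.closure_le]
    rintro _ ⟨k, hk, a, b, c, rfl⟩
    have hab := S.cm_mem_letters a b
    generalize cm a b = g at hab
    induction hab using AddSubgroup.closure_induction with
    | mem g hg =>
      obtain ⟨u, v, y, z, rfl⟩ := hg
      have h2 := hH 1 (v * c) _ (h1 y z (k * u) (K_right _ _ _ hk))
      have e : k * (u * cm (S.z y) (S.z z) * v) * c = 1 * (k * u * cm (S.z y) (S.z z)) * (v * c) := by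
        noncomm_ring
      rw [e]
      exact h2
    | zero => simp
    | add x y _ _ hx hy =>
      rw [mul_add, add_mul]; exact add_mem hx hy
    | neg x _ hx => rw [mul_neg, neg_mul]; exact neg_mem hx

theorem acc_K [Finite B] (j : ℕ) : S.Acc (K (A := A) j) (K (A := A) (j + 1)) := by
  have : Fact (Nat.Prime 2) := ⟨Nat.prime_two⟩
  let core : (Fin (j * 3) → Option (ℕ × B)) → A := fun l =>
    S.coreL (List.ofFn (fun i : Fin j => (l (finProdFinEquiv (i, 0)), l (finProdFinEquiv (i, 1)),
      l (finProdFinEquiv (i, 2)))))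
  refine S.layer (K j) (K (j + 1)) (S.K_inv j) (S.K_inv (j + 1)) (j * 3) core ?_ ?_ ?_ ?_ ?_
  · intro l
    have := S.coreL_mem (List.ofFn (fun i : Fin j => (l (finProdFinEquiv (i, 0)),
      l (finProdFinEquiv (i, 1)), l (finProdFinEquiv (i, 2)))))
    simpa using this
  · intro σ l
    simp only [core, coreL]
    rw [map_list_prod, List.map_map, List.map_ofFn, List.map_ofFn]
    congr 2
    funext i
    simp only [Function.comp, cf, map_mul, sub_z1, sub_cm, sub_zz]
  · intro x y m hm
    have := K_mul (cm_mem_K (S.z x) (S.z y)) hm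
    rw [add_comm] at this
    exact this
  · intro x y m hm
    exact K_mul hm (cm_mem_K (S.z x) (S.z y))
  · refine (S.K_span j).trans (sup_le ?_ le_sup_right)
    rw [AddSubgroup.closure_le]
    rintro _ ⟨u, v, T, hT, rfl⟩
    have hcore : ∃ l, core l = S.coreL T := by
      subst hT
      refine ⟨fun q => (![(T.get (finProdFinEquiv.symm q).1).1, (T.get (finProdFinEquiv.symm q).1).2.1,
        (T.get (finProdFinEquiv.symm q).1).2.2] (finProdFinEquiv.symm q).2), ?_⟩
      simp only [core, Equiv.symm_apply_apply]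
      congr 1
      refine Eq.trans ?_ (List.ofFn_get T)
      congr 1
    obtain ⟨l, hl⟩ := hcore
    rw [← hl]
    apply AddSubgroup.mem_sup_left
    have hu := S.mem_closure_words u
    have hv := S.mem_closure_words v
    induction hu using AddSubgroup.closure_induction with
    | mem x hx =>
      obtain ⟨U, rfl⟩ := hx
      induction hv using AddSubgroup.closure_induction with
      | mem x hx =>
        obtain ⟨V, rfl⟩ := hx
        exact AddSubgroup.subset_closure ⟨U, l, V, rfl⟩
      | zero => simp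
      | add x y _ _ hx hy => rw [mul_add]; exact add_mem hx hy
      | neg x _ hx => rw [mul_neg]; exact neg_mem hx
    | zero => simp
    | add x y _ _ hx hy => rw [add_mul, add_mul]; exact add_mem hx hy
    | neg x _ hx => rw [neg_mul, neg_mul]; exact neg_mem hx

theorem acc_two [Finite B] : S.Acc ⊤ ⊥ := by
  have h0 : (⊤ : AddSubgroup A) = K 0 := rfl
  rw [h0, ← S.K_five]
  exact S.acc_trans (S.acc_K 0) <| S.acc_trans (S.acc_K 1) <| S.acc_trans (S.acc_K 2) <|
    S.acc_trans (S.acc_K 3) (S.acc_K 4)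

end two

end Sys

end Pool.Agent.Work.MP_f5ed0a_al
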