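import Pool.Agent.Work.MP_f5ed0a_al.Char2

set_option autoImplicit false

namespace Pool.Agent.Work.MP_f5ed0a_al

/-- The triple commutator. -/
def tr {A : Type*} [Ring A] (a b c : A) : A := cm (cm a b) c

/-- Alternating functions on lists. -/
def Alt {L A : Type*} [Ring A] (F : List L → A) : Prop :=
  ∀ m x y l, F (m ++ x :: y :: l) = -F (m ++ y :: x :: l)

theorem Alt.perm {L A : Type*} [Ring A] {F : List L → A} (hF : Alt F) {l l' : List L}
    (h : l.Perm l') : ∀ m, F (m ++ l) = F (m ++ l') ∨ F (m ++ l) = -F (m ++ l') := by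
  induction h with
  | nil => intro m; left; rfl
  | cons x _ ih =>
    intro m
    have := ih (m ++ [x])
    simpa using this
  | swap x y l =>
    intro m
    right
    exact hF m y x l
  | trans _ _ ih1 ih2 =>
    intro m
    rcases ih1 m with h1 | h1 <;> rcases ih2 m with h2 | h2 <;> rw [h1, h2]
    · left; rfl
    · right; rfl
    · right; rfl
    · left; simp

theorem Alt.perm' {L A : Type*} [Ring A] {F : List L → A} (hF : Alt F) {l l' : List L}
    (h : l.Perm l') : F l = F l' ∨ F l = -F l' := by
  simpa using hF.perm h []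

namespace Sys

section general

variable {p : ℕ} {B : Type*} {A : Type*} [Ring A] (S : Sys p B A)

/-- Symmetrised multiplication by a letter. -/
def Lz (x : ℕ × B) : A →+ A := AddMonoidHom.mulLeft (S.z x) + AddMonoidHom.mulRight (S.z x)

theorem Lz_apply (x : ℕ × B) (m : A) : S.Lz x m = S.z x * m + m * S.z x := rfl

/-- Iterated symmetrised multiplication. -/
def Lop : List (ℕ × B) → A →+ A
  | [] => AddMonoidHom.id A
  | x :: l => (S.Lz x).comp (Lop l)

@[simp] theorem Lop_nil (m : A) : S.Lop [] m = m := rfl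
@[simp] theorem Lop_cons (x : ℕ × B) (l : List (ℕ × B)) (m : A) :
    S.Lop (x :: l) m = S.Lz x (S.Lop l m) := rfl

theorem Lop_append (l l' : List (ℕ × B)) (m : A) : S.Lop (l ++ l') m = S.Lop l (S.Lop l' m) := by
  induction l with
  | nil => rfl
  | cons x l ih => simp [ih]

theorem Lz_mem {N : AddSubgroup A} (hN : S.Inv N) (x : ℕ × B) {m : A} (hm : m ∈ N) :
    S.Lz x m ∈ N := by
  rw [Lz_apply]
  exact add_mem (hN.left _ _ hm) (hN.right _ _ hm)

theorem Lop_mem {N : AddSubgroup A} (hN : S.Inv N) (l : List (ℕ × B)) {m : A} (hm : m ∈ N) :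
    S.Lop l m ∈ N := by
  induction l with
  | nil => exact hm
  | cons x l ih => exact S.Lz_mem hN x ih

theorem sub_Lz (σ : ℕ → ℕ) (x : ℕ × B) (m : A) :
    S.sub σ (S.Lz x m) = S.Lz (mv σ x) (S.sub σ m) := by
  simp [Lz_apply, S.sub_z]

theorem sub_Lop (σ : ℕ → ℕ) (l : List (ℕ × B)) (m : A) :
    S.sub σ (S.Lop l m) = S.Lop (l.map (mv σ)) (S.sub σ m) := by
  induction l with
  | nil => rfl
  | cons x l ih => simp [sub_Lz, ih]

theorem Lop_perm {X Y : AddSubgroup A} (hX : S.Inv X) (hY : S.Inv Y)
    (H1 : ∀ x y, ∀ m ∈ X, cm (cm (S.z x) (S.z y)) m ∈ Y)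
    {l l' : List (ℕ × B)} (h : l.Perm l') : ∀ m ∈ X, S.Lop l m - S.Lop l' m ∈ Y := by
  induction h with
  | nil => intro m _; simp
  | cons x _ ih =>
    intro m hm
    rw [Lop_cons, Lop_cons, ← map_sub]
    exact S.Lz_mem hY x (ih m hm)
  | swap x y l =>
    intro m hm
    have := H1 y x (S.Lop l m) (S.Lop_mem hX l hm)
    simp only [Lop_cons]
    generalize S.Lop l m = m' at this
    convert this using 1
    simp only [Lz_apply, cm]
    noncomm_ring
  | trans _ _ ih1 ih2 =>
    intro m hm
    have := add_mem (ih1 m hm) (ih2 m hm)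
    simpa using this

/-- Products of commutators of consecutive letters. -/
def Ce : List (ℕ × B) → A
  | [] => 1
  | [_] => 0
  | x :: y :: l => cm (S.z x) (S.z y) * Ce l

@[simp] theorem Ce_nil : S.Ce [] = 1 := by rw [Ce]
@[simp] theorem Ce_one (x : ℕ × B) : S.Ce [x] = 0 := by rw [Ce]
@[simp] theorem Ce_cons (x y : ℕ × B) (l : List (ℕ × B)) :
    S.Ce (x :: y :: l) = cm (S.z x) (S.z y) * S.Ce l := by rw [Ce]

/-- The same, starting with a triple commutator. -/
def Co : List (ℕ × B) → A
  | x :: y :: w :: l => tr (S.z x) (S.z y) (S.z w) * S.Ce l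
  | _ => 0

@[simp] theorem Co_cons (x y w : ℕ × B) (l : List (ℕ × B)) :
    S.Co (x :: y :: w :: l) = tr (S.z x) (S.z y) (S.z w) * S.Ce l := by rw [Co]

theorem list_two_induction {L : Type*} {P : List L → Prop} (h0 : P []) (h1 : ∀ x, P [x])
    (h2 : ∀ x y l, P l → P (x :: y :: l)) : ∀ l, P l
  | [] => h0
  | [x] => h1 x
  | x :: y :: l => h2 x y l (list_two_induction h0 h1 h2 l)

theorem Ce_append {s : List (ℕ × B)} (hs : Even s.length) (l : List (ℕ × B)) :
    S.Ce (s ++ l) = S.Ce s * S.Ce l := by
  induction s using list_two_induction with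
  | h0 => simp
  | h1 x => simp at hs
  | h2 x y s ih =>
    have hs' : Even s.length := by
      simp only [List.length_cons] at hs
      rw [Nat.even_add_one, Nat.even_add_one, not_not] at hs
      exact hs
    simp [ih hs', mul_assoc]

theorem sub_Ce (σ : ℕ → ℕ) (l : List (ℕ × B)) : S.sub σ (S.Ce l) = S.Ce (l.map (mv σ)) := by
  induction l using list_two_induction with
  | h0 => simp
  | h1 x => simp
  | h2 x y l ih => simp [ih, sub_cm, S.sub_z]

theorem sub_Co (σ : ℕ → ℕ) (l : List (ℕ × B)) : S.sub σ (S.Co l) = S.Co (l.map (mv σ)) := by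
  match l with
  | [] => simp [Co]
  | [_] => simp [Co]
  | [_, _] => simp [Co]
  | x :: y :: w :: l => simp [tr, sub_Ce, sub_cm, S.sub_z]

theorem Ce_Lop {X Y : AddSubgroup A} (hX : S.Inv X) (hY : S.Inv Y)
    (H2 : ∀ x y w, ∀ m ∈ X, tr (S.z x) (S.z y) (S.z w) * m ∈ Y) (s l : List (ℕ × B)) :
    ∀ m ∈ X, S.Ce s * S.Lop l m - S.Lop l (S.Ce s * m) ∈ Y := by
  have h1 : ∀ (x y : ℕ × B) (l : List (ℕ × B)), ∀ m ∈ X,
      cm (S.z x) (S.z y) * S.Lop l m - S.Lop l (cm (S.z x) (S.z y) * m) ∈ Y := by
    intro x y l
    induction l with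
    | nil => intro m _; simp
    | cons w l ih =>
      intro m hm
      have h2 := S.Lz_mem hY w (ih m hm)
      have h3 := H2 x y w (S.Lop l m) (S.Lop_mem hX l hm)
      rw [map_sub] at h2
      rw [Lop_cons, Lop_cons]
      generalize S.Lop l m = m' at h2 h3 ⊢
      have h4 := add_mem h2 h3
      convert h4 using 1
      simp only [Lz_apply, tr, cm]
      noncomm_ring
  induction s using list_two_induction with
  | h0 => intro m _; simp
  | h1 x => intro m _; simp
  | h2 x y s ih =>
    intro m hm
    have h2 := hY.left (cm (S.z x) (S.z y)) _ (ih m hm)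
    have h3 := h1 x y l (S.Ce s * m) (hX.left _ _ hm)
    have h4 := add_mem h2 h3
    rw [Ce_cons]
    convert h4 using 1
    simp only [mul_sub, mul_assoc]
    abel

end general

/-- Decorations of a variable in the alternating case. -/
def Deco3 (B : Type*) : Type _ := (B → Fin 3) × (B → Bool)

instance {B : Type*} : Zero (Deco3 B) := ⟨(0, fun _ => false)⟩

instance {B : Type*} [Finite B] : Finite (Deco3 B) := by
  unfold Deco3
  infer_instance

noncomputable def phiA {B : Type*} [Fintype B] (δ : Deco3 B) : List B := expList δ.1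

noncomputable def phiS {B : Type*} [Fintype B] (δ : Deco3 B) : List B :=
  (Finset.univ : Finset B).toList.filter δ.2

theorem phiA_zero {B : Type*} [Fintype B] : phiA (0 : Deco3 B) = [] := expList_zero

theorem phiS_zero {B : Type*} [Fintype B] : phiS (0 : Deco3 B) = [] := by
  rw [phiS, List.filter_eq_nil_iff]
  intro b _
  simp [show (0 : Deco3 B).2 = fun _ => false from rfl]

theorem count_phiS {B : Type*} [Fintype B] [DecidableEq B] (δ : Deco3 B) (b : B) :
    (phiS δ).count b = if δ.2 b then 1 else 0 := by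
  rw [phiS]
  split_ifs with h
  · apply List.count_eq_one_of_mem
    · exact List.Nodup.filter _ (Finset.nodup_toList _)
    · rw [List.mem_filter]
      exact ⟨by simp, h⟩
  · rw [List.count_eq_zero, List.mem_filter]
    simp [h]

/-- The layer lemma in the alternating case. -/
theorem layer3 {B : Type*} [Finite B] {A : Type*} [Ring A]
    (S : Sys 3 B A) (X Y : AddSubgroup A) (hX : S.Inv X) (hY : S.Inv Y)
    (H1 : ∀ x y, ∀ m ∈ X, cm (cm (S.z x) (S.z y)) m ∈ Y)
    (H2 : ∀ x y w, ∀ m ∈ X, tr (S.z x) (S.z y) (S.z w) * m ∈ Y)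
    (F : List (ℕ × B) → A) (valid : ℕ → Prop)
    (hvalid : ∀ n k, valid n → valid (2 * k + n))
    (hpar : ∀ n m, valid n → valid m → (Even n ↔ Even m))
    (hFX : ∀ l, F l ∈ X)
    (hFsub : ∀ σ l, S.sub σ (F l) = F (l.map (mv σ)))
    (hF : Alt F)
    (hP1 : ∀ s l, Even s.length → valid l.length →
      S.Ce s * F l = F (s ++ l) ∨ S.Ce s * F l = -F (s ++ l))
    (hspan : X ≤ AddSubgroup.closure {x | ∃ a l, valid l.length ∧ x = S.Lop a (F l)} ⊔ Y) :
    S.Acc X Y := by
  classical
  have : Fact (Nat.Prime 3) := ⟨Nat.prime_three⟩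
  have : Fintype B := Fintype.ofFinite B
  obtain ⟨c⟩ := exists_coding (Deco3 B)
  intro N hN hNI hstab
  let V : Set (List (Deco3 B)) := {w | valid (collect phiS w).length}
  let b : List (Deco3 B) → A := fun w => S.Lop (collect phiA w) (F (collect phiS w))
  let P : Set (List (Option (Deco3 B))) := {ρ | Even (collectIns phiS ρ).length}
  let lam : List (Option (Deco3 B)) → A →+ A := fun ρ =>
    (S.Lop (collectIns phiA ρ)).comp ((AddMonoidHom.mulLeft (S.Ce (collectIns phiS ρ))).comp
        (S.sub (slot ρ)).toAddMonoidHom)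
  have hlamdef : ∀ ρ x, lam ρ x =
      S.Lop (collectIns phiA ρ) (S.Ce (collectIns phiS ρ) * S.sub (slot ρ) x) := fun _ _ => rfl
  have hlamN : ∀ N : AddSubgroup A, S.Inv N → ∀ ρ, ∀ x ∈ N, lam ρ x ∈ N := by
    intro N hN ρ x hx
    rw [hlamdef]
    exact S.Lop_mem hN _ (hN.left _ _ (hN.sub _ _ hx))
  have hlen : ∀ ρ (w : List (Deco3 B)), (collect phiS (fill ρ w)).length =
      (collectIns phiS ρ).length + (collect phiS w).length := by
    intro ρ w
    have h1 := (collect_fill phiS phiS_zero ρ w).length_eq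
    simpa using h1
  have hPV : ∀ ρ ∈ P, ∀ w ∈ V, fill ρ w ∈ V := by
    intro ρ hρ w hw
    obtain ⟨k, hk⟩ := hρ
    have := hvalid _ k hw
    show valid _
    rw [hlen, hk]
    convert this using 2
    omega
  have hpm : ∀ (a : List (ℕ × B)) (x y : A), (x = y ∨ x = -y) →
      (S.Lop a x = S.Lop a y ∨ S.Lop a x = -S.Lop a y) := by
    rintro a x y (rfl | rfl)
    · left; rfl
    · right; simp
  refine groebner (p := 3) c S.char V b ?_ X Y ?_ P hPV lam ?_ ?_
    (fun _ => ()) ?_ N hN ?_ hstab
  · intro w _ w' _ h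
    simp only [b]
    rw [collect_rank_eq c phiA phiA_zero w w' h, collect_rank_eq c phiS phiS_zero w w' h]
  · -- spanning
    refine hspan.trans (sup_le ?_ le_sup_right)
    rw [AddSubgroup.closure_le]
    rintro _ ⟨a, l, hl, rfl⟩
    have hcube : ∀ (x : ℕ × B) (m : A), S.Lz x (S.Lz x (S.Lz x m)) = 0 := by
      intro x m
      have h3 := S.char (S.z x * S.z x * m * S.z x + S.z x * m * (S.z x * S.z x))
      have h4 := S.z_cube x
      have e : S.Lz x (S.Lz x (S.Lz x m)) = (S.z x * S.z x * S.z x) * m +
          m * (S.z x * S.z x * S.z x) +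
          3 • (S.z x * S.z x * m * S.z x + S.z x * m * (S.z x * S.z x)) := by
        simp only [Lz_apply]; noncomm_ring
      rw [e, h3, h4]
      simp
    by_cases hU : ∃ x, 3 ≤ a.count x
    · obtain ⟨x, hx⟩ := hU
      obtain ⟨a', ha'⟩ := (List.replicate_sublist_iff.2 hx).exists_perm_append
      have h1 := S.Lop_perm hX hY H1 ha' (F l) (hFX l)
      have h2 : List.replicate 3 x ++ a' = x :: x :: x :: a' := rfl
      rw [h2, Lop_cons, Lop_cons, Lop_cons, hcube, sub_zero] at h1
      exact AddSubgroup.mem_sup_right h1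
    by_cases hn : l.Nodup
    swap
    · -- repeated letters give zero
      have hz : F l = 0 := by
        obtain ⟨x, hx⟩ : ∃ x, 2 ≤ l.count x := by
          by_contra hcon
          push Not at hcon
          exact hn (List.nodup_iff_count_le_one.2 (fun x => Nat.lt_succ_iff.1 (hcon x)))
        obtain ⟨l', hl'⟩ := (List.replicate_sublist_iff.2 hx).exists_perm_append
        have h2 : List.replicate 2 x ++ l' = x :: x :: l' := rfl
        rw [h2] at hl'
        have h3 := hF [] x x l'
        simp only [List.nil_append] at h3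
        have h4 := S.char (F (x :: x :: l'))
        have h5 : F (x :: x :: l') = 0 := by
          have h6 : F (x :: x :: l') + F (x :: x :: l') = 0 := by
            nth_rw 1 [h3]
            simp
          have h7 : 3 • F (x :: x :: l') = (F (x :: x :: l') + F (x :: x :: l')) +
              F (x :: x :: l') := by
            rw [succ_nsmul, two_nsmul]
          rw [h7, h6, zero_add] at h4
          exact h4
        rcases hF.perm' hl' with h | h
        · rw [h, h5]
        · rw [h, h5, neg_zero]
      rw [hz, map_zero]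
      exact zero_mem _
    push Not at hU
    obtain ⟨M1, hM1⟩ := exists_bound a
    obtain ⟨M2, hM2⟩ := exists_bound l
    let M := max M1 M2
    let dec : ℕ → Deco3 B := fun i =>
      (fun b => ⟨a.count (i, b), hU (i, b)⟩, fun b => decide ((i, b) ∈ l))
    let w : List (Deco3 B) := (List.range M).map dec
    have hget : ∀ i, i < M → w.getD i 0 = dec i := by
      intro i hi
      simp [w, hi]
    have hget' : ∀ i, ¬ i < M → w.getD i 0 = 0 := by
      intro i hi
      simp [w, not_lt.1 hi]
    have hAp : a.Perm (collect phiA w) := by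
      rw [List.perm_iff_count]
      rintro ⟨i, b⟩
      rw [count_collect phiA phiA_zero]
      by_cases hi : i < M
      · rw [hget i hi, phiA, count_expList]
      · rw [hget' i hi, phiA_zero]
        simp only [List.count_nil]
        rw [List.count_eq_zero]
        intro hmem
        exact hi (lt_of_lt_of_le (hM1 _ hmem) (le_max_left _ _))
    have hSp : l.Perm (collect phiS w) := by
      rw [List.perm_iff_count]
      rintro ⟨i, b⟩
      rw [count_collect phiS phiS_zero]
      by_cases hi : i < M
      · rw [hget i hi, count_phiS]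
        simp only [dec, decide_eq_true_eq]
        split_ifs with h
        · exact List.count_eq_one_of_mem hn h
        · exact List.count_eq_zero.2 h
      · rw [hget' i hi, phiS_zero]
        simp only [List.count_nil]
        rw [List.count_eq_zero]
        intro hmem
        exact hi (lt_of_lt_of_le (hM2 _ hmem) (le_max_right _ _))
    have hwV : w ∈ V := by
      show valid _
      rw [← hSp.length_eq]
      exact hl
    have h1 := S.Lop_perm hX hY H1 hAp (F l) (hFX l)
    have h2 : b w ∈ AddSubgroup.closure (b '' V) ⊔ Y :=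
      AddSubgroup.mem_sup_left (AddSubgroup.subset_closure ⟨w, hwV, rfl⟩)
    have h3 : S.Lop (collect phiA w) (F l) ∈ AddSubgroup.closure (b '' V) ⊔ Y := by
      rcases hpm (collect phiA w) _ _ (hF.perm' hSp) with h | h
      · rw [h]; exact h2
      · rw [h]; exact neg_mem h2
    have := add_mem (AddSubgroup.mem_sup_right h1 : _ ∈ AddSubgroup.closure (b '' V) ⊔ Y) h3
    simpa using this
  · intro ρ _ y hy
    exact hlamN Y hY ρ y hy
  · -- the action on words
    intro ρ hρ w hw
    have hA := collect_fill phiA phiA_zero ρ w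
    have hS := collect_fill phiS phiS_zero ρ w
    have h1 : lam ρ (b w) = S.Lop (collectIns phiA ρ) (S.Ce (collectIns phiS ρ) *
        S.Lop ((collect phiA w).map (mv (slot ρ))) (F ((collect phiS w).map (mv (slot ρ))))) := by
      rw [hlamdef]
      simp only [b]
      rw [S.sub_Lop, hFsub]
    have h2 := S.Lop_mem hY (collectIns phiA ρ) (S.Ce_Lop hX hY H2 (collectIns phiS ρ)
      ((collect phiA w).map (mv (slot ρ))) (F ((collect phiS w).map (mv (slot ρ)))) (hFX _))
    rw [map_sub, ← h1, ← S.Lop_append] at h2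
    have h3 := S.Lop_perm hX hY H1 hA (S.Ce (collectIns phiS ρ) *
      F ((collect phiS w).map (mv (slot ρ)))) (hX.left _ _ (hFX _))
    have h4 := add_mem h2 (neg_mem h3)
    have h5 : lam ρ (b w) - S.Lop (collect phiA (fill ρ w)) (S.Ce (collectIns phiS ρ) *
      F ((collect phiS w).map (mv (slot ρ)))) ∈ Y := by
      convert h4 using 1
      abel
    have h6 : S.Ce (collectIns phiS ρ) * F ((collect phiS w).map (mv (slot ρ))) =
        F (collect phiS (fill ρ w)) ∨
        S.Ce (collectIns phiS ρ) * F ((collect phiS w).map (mv (slot ρ))) =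
        -F (collect phiS (fill ρ w)) := by
      have hv : valid ((collect phiS w).map (mv (slot ρ))).length := by
        rw [List.length_map]; exact hw
      rcases hP1 _ _ hρ hv with h | h <;> rcases hF.perm' hS with h' | h' <;> rw [h, h']
      · left; rfl
      · right; simp
      · right; rfl
      · left; rfl
    rcases hpm (collect phiA (fill ρ w)) _ _ h6 with h | h
    · left
      rw [h] at h5
      exact h5
    · right
      rw [h, sub_neg_eq_add] at h5
      exact h5
  · intro u hu v hv huv _
    obtain ⟨ρ, hρ⟩ := exists_fill_of_sublist huv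
    refine ⟨ρ, ?_, hρ⟩
    have h1 := hlen ρ u
    rw [hρ] at h1
    have h2 := hpar _ _ hu hv
    rw [h1, Nat.even_add] at h2
    show Even _
    tauto
  · intro k ρ _ x hx
    exact hlamN _ (hNI k) ρ x hx

section three

variable {B : Type*} {A : Type*} [Ring A] (S : Sys 3 B A)
include S

theorem two_cancel {x : A} (h : x + x = 0) : x = 0 := by
  have h4 := S.char x
  have h7 : 3 • x = (x + x) + x := by rw [succ_nsmul, two_nsmul]
  rwa [h7, h, zero_add] at h4

theorem eng (x y : A) : cm x (cm x y) = 0 := by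
  have key : ∀ x ∈ S.pw 1, ∀ y ∈ S.pw 1, cm x (cm x y) = 0 := by
    intro x hx y hy
    apply S.two_cancel
    have h1 := S.aug_cube (add_mem hx hy)
    have h2 := S.aug_cube (sub_mem hx hy)
    have h3 := S.aug_cube hy
    have h4 := S.char (x * y * x)
    have e : cm x (cm x y) + cm x (cm x y) = (x + y) * (x + y) * (x + y) -
        (x - y) * (x - y) * (x - y) - (y * y * y + y * y * y) - (3 • (x * y * x) + 3 • (x * y * x)) := by
      simp only [cm]; noncomm_ring
    rw [e, h1, h2, h3, h4]
    simp
  obtain ⟨m, x', hx', rfl⟩ := S.exists_aug x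
  obtain ⟨n, y', hy', rfl⟩ := S.exists_aug y
  have e : cm (m • (1 : A) + x') (cm (m • (1 : A) + x') (n • (1 : A) + y')) =
      cm x' (cm x' y') := by
    have e1 : ∀ (m : ℤ) (a b : A), cm (m • (1 : A) + a) b = cm a b := by
      intro m a b
      simp only [cm, add_mul, mul_add, smul_mul_assoc, mul_smul_comm, one_mul, mul_one]
      abel
    have e2 : ∀ (m : ℤ) (a b : A), cm a (m • (1 : A) + b) = cm a b := by
      intro m a b
      simp only [cm, add_mul, mul_add, smul_mul_assoc, mul_smul_comm, one_mul, mul_one]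
      abel
    rw [e1, e1, e2]
  rw [e]
  exact key x' hx' y' hy'

theorem e2 (x y z : A) : cm x y * cm x z = 0 := by
  apply S.two_cancel
  have h1 := S.eng x (y * z)
  have h2 := S.eng x y
  have h3 := S.eng x z
  have e : cm x y * cm x z + cm x y * cm x z = cm x (cm x (y * z)) - cm x (cm x y) * z -
      y * cm x (cm x z) := by
    simp only [cm]; noncomm_ring
  rw [e, h1, h2, h3]
  simp

theorem e2lin (x x' y z : A) : cm x y * cm x' z = -(cm x' y * cm x z) := by
  have h1 := S.e2 (x + x') y z
  have h2 := S.e2 x y z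
  have h3 := S.e2 x' y z
  have e : cm (x + x') y * cm (x + x') z = cm x y * cm x z + cm x' y * cm x' z +
      (cm x y * cm x' z + cm x' y * cm x z) := by
    simp only [cm]; noncomm_ring
  rw [e, h2, h3, zero_add, zero_add] at h1
  exact eq_neg_of_add_eq_zero_left h1

/-- Moving a letter across two adjacent commutators. -/
theorem e2' (a x y b : A) : cm a x * cm y b = -(cm a y * cm x b) := by
  have h1 := S.e2lin x y a b
  have e1 : cm a x = -cm x a := by simp [cm]
  have e3 : cm a y = -cm y a := by simp [cm]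
  rw [e1, e3, neg_mul, neg_mul, h1]

omit S in
theorem tr_anti1 (x y z : A) : tr x y z = -tr y x z := by
  simp only [tr, cm]; noncomm_ring

theorem tr_anti2 (x y z : A) : tr x y z = -tr x z y := by
  have h1 := S.eng (y + z) x
  have h2 := S.eng y x
  have h3 := S.eng z x
  have e : cm (y + z) (cm (y + z) x) = cm y (cm y x) + cm z (cm z x) + (tr x z y + tr x y z) := by
    simp only [tr, cm]; noncomm_ring
  rw [e, h2, h3, zero_add, zero_add, add_comm] at h1
  exact eq_neg_of_add_eq_zero_left h1

/-- Triple commutators are central. -/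
theorem tr_central (x y z t : A) : cm (tr x y z) t = 0 := by
  -- `T x y z t` is alternating
  have a1 : ∀ x y z t : A, cm (tr x y z) t = -cm (tr y x z) t := by
    intro x y z t; rw [tr_anti1]; simp [cm]; abel
  have a2 : ∀ x y z t : A, cm (tr x y z) t = -cm (tr x z y) t := by
    intro x y z t; rw [S.tr_anti2]; simp [cm]; abel
  have a3 : ∀ x y z t : A, cm (tr x y z) t = -cm (tr x y t) z := by
    intro x y z t
    have := S.tr_anti2 (cm x y) z t
    exact this
  have hj : ∀ x y z t : A, cm (cm x y) (cm z t) = cm (tr x y z) t + cm (tr x y z) t := by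
    intro x y z t
    have h := a3 x y t z
    have e : cm (cm x y) (cm z t) = cm (tr x y z) t - cm (tr x y t) z := by
      simp only [tr, cm]; noncomm_ring
    rw [e, h, sub_neg_eq_add]
  have h1 := hj x y z t
  have h2 := hj z t x y
  have h3 : cm (cm x y) (cm z t) = -cm (cm z t) (cm x y) := by simp only [cm]; noncomm_ring
  have h4 : cm (tr z t x) y = cm (tr x y z) t := by
    rw [a2 z t x y, a1 z x t y, a3 x z t y, a2 x z y t]
    simp
  rw [h2, h4, h1] at h3
  apply S.two_cancel
  apply S.two_cancel
  rw [← sub_eq_zero] at h3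
  rw [← h3]
  abel

theorem tr_comm (x y z t : A) : tr x y z * t = t * tr x y z := by
  have := S.tr_central x y z t
  rw [cm] at this
  exact sub_eq_zero.1 this

theorem e5 (a b x y c : A) : tr a b x * cm y c = -(tr a b y * cm x c) := by
  have h := S.e2' (cm a b) x y c
  exact h

theorem e6 (x₁ x₂ x₃ x₄ x₅ x₆ : A) : tr x₁ x₂ x₃ * tr x₄ x₅ x₆ = 0 := by
  have h := S.e5 x₁ x₂ x₃ (cm x₄ x₅) x₆
  have h2 : tr x₁ x₂ (cm x₄ x₅) = 0 := by
    have h3 := S.tr_central x₁ x₂ x₄ x₅
    have h4 := S.tr_central x₁ x₂ x₅ x₄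
    have e : tr x₁ x₂ (cm x₄ x₅) = cm (tr x₁ x₂ x₄) x₅ - cm (tr x₁ x₂ x₅) x₄ := by
      simp only [tr, cm]; noncomm_ring
    rw [e, h3, h4, sub_zero]
  rw [h2, zero_mul, neg_zero] at h
  exact h

theorem Ce_alt : Alt S.Ce := by
  intro m
  induction m using list_two_induction with
  | h0 =>
    intro x y l
    simp only [List.nil_append, Ce_cons]
    have e : cm (S.z x) (S.z y) = -cm (S.z y) (S.z x) := by simp [cm]
    rw [e, neg_mul]
  | h1 a =>
    intro x y l
    cases l with
    | nil => simp
    | cons b l =>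
      simp only [List.cons_append, List.nil_append, Ce_cons]
      rw [← mul_assoc, ← mul_assoc, S.e2', neg_mul]
  | h2 a b m ih =>
    intro x y l
    simp only [List.cons_append, Ce_cons]
    rw [ih x y l, mul_neg]

theorem Co_alt : Alt S.Co := by
  intro m x y l
  match m with
  | [] =>
    cases l with
    | nil => simp [Co]
    | cons w l =>
      simp only [List.nil_append, Co_cons]
      rw [tr_anti1, neg_mul]
  | [a] =>
    simp only [List.cons_append, List.nil_append, Co_cons]
    rw [S.tr_anti2, neg_mul]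
  | [a, b] =>
    simp only [List.cons_append, List.nil_append, Co_cons]
    cases l with
    | nil => simp
    | cons c l =>
      rw [Ce_cons, Ce_cons, ← mul_assoc, ← mul_assoc, S.e5, neg_mul]
  | a :: b :: c :: m =>
    simp only [List.cons_append, Co_cons]
    rw [S.Ce_alt m x y l, mul_neg]

/-- The ideal generated by the triple commutators. -/
def U : AddSubgroup A := AddSubgroup.closure {x | ∃ a b x₁ x₂ x₃ : A, x = a * tr x₁ x₂ x₃ * b}

omit S in
theorem mem_U (a b x y z : A) : a * tr x y z * b ∈ U (A := A) :=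
  AddSubgroup.subset_closure ⟨a, b, x, y, z, rfl⟩

omit S in
theorem tr_mem_U (x y z : A) : tr x y z ∈ U (A := A) := by
  simpa using mem_U 1 1 x y z

theorem U_inv : S.Inv (U (A := A)) where
  left a x hx := by
    induction hx using AddSubgroup.closure_induction with
    | mem x hx =>
      obtain ⟨c, d, x, y, z, rfl⟩ := hx
      have := mem_U (a * c) d x y z
      simpa [mul_assoc] using this
    | zero => simp
    | add x y _ _ hx hy => rw [mul_add]; exact add_mem hx hy
    | neg x _ hx => rw [mul_neg]; exact neg_mem hx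
  right a x hx := by
    induction hx using AddSubgroup.closure_induction with
    | mem x hx =>
      obtain ⟨c, d, x, y, z, rfl⟩ := hx
      have := mem_U c (d * a) x y z
      simpa [mul_assoc] using this
    | zero => simp
    | add x y _ _ hx hy => rw [add_mul]; exact add_mem hx hy
    | neg x _ hx => rw [neg_mul]; exact neg_mem hx
  sub σ x hx := by
    induction hx using AddSubgroup.closure_induction with
    | mem x hx =>
      obtain ⟨c, d, x, y, z, rfl⟩ := hx
      simp only [map_mul, tr, sub_cm]
      exact mem_U _ _ _ _ _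
    | zero => simp
    | add x y _ _ hx hy => rw [map_add]; exact add_mem hx hy
    | neg x _ hx => rw [map_neg]; exact neg_mem hx

theorem tr_mul_U (x y z : A) {m : A} (hm : m ∈ U (A := A)) : tr x y z * m = 0 := by
  induction hm using AddSubgroup.closure_induction with
  | mem m hm =>
    obtain ⟨a, b, x', y', z', rfl⟩ := hm
    rw [← mul_assoc, ← mul_assoc, S.tr_comm, mul_assoc a, S.e6]
    simp
  | zero => simp
  | add x y _ _ hx hy => rw [mul_add, hx, hy, add_zero]
  | neg x _ hx => rw [mul_neg, hx, neg_zero]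

theorem H1_zero (x y : ℕ × B) : ∀ m ∈ (⊤ : AddSubgroup A),
    cm (cm (S.z x) (S.z y)) m ∈ U (A := A) := fun _ _ => tr_mem_U _ _ _

theorem H2_zero (x y w : ℕ × B) : ∀ m ∈ (⊤ : AddSubgroup A),
    tr (S.z x) (S.z y) (S.z w) * m ∈ U (A := A) := fun _ _ =>
  S.U_inv.right _ _ (tr_mem_U _ _ _)

theorem H1_one (x y : ℕ × B) : ∀ m ∈ U (A := A),
    cm (cm (S.z x) (S.z y)) m ∈ (⊥ : AddSubgroup A) := by
  intro m hm
  rw [AddSubgroup.mem_bot]
  induction hm using AddSubgroup.closure_induction with
  | mem m hm =>
    obtain ⟨a, b, x', y', z', rfl⟩ := hm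
    have h : a * tr x' y' z' * b = tr x' y' z' * (a * b) := by
      rw [S.tr_comm x' y' z' (a * b), mul_assoc, S.tr_comm, mul_assoc]
    rw [h]
    have e : cm (cm (S.z x) (S.z y)) (tr x' y' z' * (a * b)) =
        tr x' y' z' * tr (S.z x) (S.z y) (a * b) -
        cm (tr x' y' z') (cm (S.z x) (S.z y)) * (a * b) := by
      simp only [tr, cm]; noncomm_ring
    rw [e, S.e6, S.tr_central]
    simp
  | zero => simp [cm]
  | add u v _ _ hx hy =>
    have e : cm (cm (S.z x) (S.z y)) (u + v) = cm (cm (S.z x) (S.z y)) u +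
      cm (cm (S.z x) (S.z y)) v := by simp only [cm]; noncomm_ring
    rw [e, hx, hy, add_zero]
  | neg u _ hx =>
    have e : cm (cm (S.z x) (S.z y)) (-u) = -cm (cm (S.z x) (S.z y)) u := by
      simp only [cm]; noncomm_ring
    rw [e, hx, neg_zero]

theorem H2_one (x y w : ℕ × B) : ∀ m ∈ U (A := A),
    tr (S.z x) (S.z y) (S.z w) * m ∈ (⊥ : AddSubgroup A) := by
  intro m hm
  rw [AddSubgroup.mem_bot]
  exact S.tr_mul_U _ _ _ hm

/-- The span of the even elements, modulo `U`. -/
theorem span_zero (a : A) : a ∈ AddSubgroup.closure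
    {x | ∃ (a l : List (ℕ × B)), Even l.length ∧ x = S.Lop a (S.Ce l)} ⊔ U (A := A) := by
  set H := AddSubgroup.closure
    {x | ∃ (a l : List (ℕ × B)), Even l.length ∧ x = S.Lop a (S.Ce l)} ⊔ U (A := A) with hHdef
  have hgen : ∀ (a l : List (ℕ × B)), Even l.length → S.Lop a (S.Ce l) ∈ H := fun a l hl =>
    AddSubgroup.mem_sup_left (AddSubgroup.subset_closure ⟨a, l, hl, rfl⟩)
  have hU : ∀ u ∈ U (A := A), u ∈ H := fun u hu => AddSubgroup.mem_sup_right hu
  have hind : ∀ (P : A → Prop), (∀ (a l : List (ℕ × B)), Even l.length → P (S.Lop a (S.Ce l))) →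
      (∀ u ∈ U (A := A), P u) → P 0 → (∀ x y, P x → P y → P (x + y)) → (∀ x, P x → P (-x)) →
      ∀ x ∈ H, P x := by
    intro P h1 h2 h3 h4 h5 x hx
    rw [hHdef, AddSubgroup.mem_sup] at hx
    obtain ⟨y, hy, z, hz, rfl⟩ := hx
    refine h4 _ _ ?_ (h2 z hz)
    induction hy using AddSubgroup.closure_induction with
    | mem x hx =>
      obtain ⟨a, l, hl, rfl⟩ := hx
      exact h1 a l hl
    | zero => exact h3
    | add x y _ _ hx hy => exact h4 _ _ hx hy
    | neg x _ hx => exact h5 _ hx
  have hLz : ∀ (y : ℕ × B), ∀ x ∈ H, S.Lz y x ∈ H := by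
    intro y
    refine hind _ ?_ ?_ ?_ ?_ ?_
    · intro a l hl
      exact hgen (y :: a) l hl
    · intro u hu
      exact hU _ (S.Lz_mem S.U_inv y hu)
    · simp
    · intro x y hx hy; rw [map_add]; exact add_mem hx hy
    · intro x hx; rw [map_neg]; exact neg_mem hx
  have hadCe : ∀ (y : ℕ × B) (l : List (ℕ × B)), cm (S.z y) (S.Ce l) ∈ U (A := A) := by
    intro y l
    induction l using list_two_induction with
    | h0 => simp [cm]
    | h1 x => simp [cm]
    | h2 x x' l ih =>
      have e : cm (S.z y) (S.Ce (x :: x' :: l)) = -(tr (S.z x) (S.z x') (S.z y) * S.Ce l) +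
          cm (S.z x) (S.z x') * cm (S.z y) (S.Ce l) := by
        simp only [Ce_cons, tr, cm]; noncomm_ring
      rw [e]
      exact add_mem (neg_mem (S.U_inv.right _ _ (tr_mem_U _ _ _))) (S.U_inv.left _ _ ih)
  have had : ∀ (y : ℕ × B) (a l : List (ℕ × B)), Even l.length →
      cm (S.z y) (S.Lop a (S.Ce l)) ∈ H := by
    intro y a
    induction a with
    | nil => intro l _; exact hU _ (hadCe y l)
    | cons x a ih =>
      intro l hl
      have h1 := hLz x _ (ih l hl)
      have h2 := hU _ (S.Ce_Lop (X := ⊤) ⟨fun _ _ _ => trivial, fun _ _ _ => trivial,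
        fun _ _ _ => trivial⟩ S.U_inv S.H2_zero [y, x] a (S.Ce l) trivial)
      have h3 : S.Lop a (S.Ce [y, x] * S.Ce l) ∈ H := by
        rw [← S.Ce_append (by simp)]
        refine hgen _ _ ?_
        simp only [List.cons_append, List.nil_append, List.length_cons]
        rw [Nat.even_add_one, Nat.even_add_one, not_not]
        exact hl
      have h4 := hU _ (tr_mem_U (S.z y) (S.z x) (S.Lop a (S.Ce l)))
      have h5 := add_mem h2 h3
      rw [sub_add_cancel] at h5
      have e : cm (S.z y) (S.Lop (x :: a) (S.Ce l)) = S.Lz x (cm (S.z y) (S.Lop a (S.Ce l))) +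
          (S.Ce [y, x] * S.Lop a (S.Ce l) + S.Ce [y, x] * S.Lop a (S.Ce l)) -
          tr (S.z y) (S.z x) (S.Lop a (S.Ce l)) := by
        simp only [Ce_cons, Ce_nil, Lop_cons, Lz_apply, tr, cm]
        noncomm_ring
      rw [e]
      exact sub_mem (add_mem h1 (add_mem h5 h5)) h4
  have hz : ∀ (y : ℕ × B), ∀ x ∈ H, S.z y * x ∈ H := by
    intro y
    refine hind _ ?_ ?_ ?_ ?_ ?_
    · intro a l hl
      have h1 := hgen (y :: a) l hl
      have h2 := had y a l hl
      have h3 := S.char (S.z y * S.Lop a (S.Ce l))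
      have e : S.z y * S.Lop a (S.Ce l) = 3 • (S.z y * S.Lop a (S.Ce l)) -
          (S.Lop (y :: a) (S.Ce l) + cm (S.z y) (S.Lop a (S.Ce l))) := by
        simp only [Lop_cons, Lz_apply, cm]
        abel
      rw [e, h3, zero_sub]
      exact neg_mem (add_mem h1 h2)
    · intro u hu
      exact hU _ (S.U_inv.left _ _ hu)
    · simp
    · intro x y hx hy; rw [mul_add]; exact add_mem hx hy
    · intro x hx; rw [mul_neg]; exact neg_mem hx
  have hw : ∀ l : List (ℕ × B), S.w l ∈ H := by
    intro l
    induction l with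
    | nil => simpa using hgen [] [] (by simp)
    | cons x l ih =>
      rw [w_cons]
      exact hz x _ ih
  have ha := S.mem_closure_words a
  induction ha using AddSubgroup.closure_induction with
  | mem x hx =>
    obtain ⟨l, rfl⟩ := hx
    exact hw l
  | zero => exact zero_mem _
  | add x y _ _ hx hy => exact add_mem hx hy
  | neg x _ hx => exact neg_mem hx

omit S in
theorem tr_mul_left (S : Sys 3 B A) (a b y z : A) :
    tr (a * b) y z = a * tr b y z + tr a y z * b := by
  have h := S.e2' a y z b
  have e : tr (a * b) y z = a * tr b y z + tr a y z * b + (cm a z * cm b y + cm a y * cm b z) := by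
    simp only [tr, cm]; noncomm_ring
  have e2 : cm a z * cm b y + cm a y * cm b z = 0 := by
    have h1 : cm b y = -cm y b := by simp [cm]
    have h2 : cm b z = -cm z b := by simp [cm]
    rw [h1, h2, mul_neg, mul_neg, h]
    simp
  rw [e, e2, add_zero]

theorem tr_letters (x y z : A) : tr x y z ∈
    AddSubgroup.closure {m | ∃ (a : A) (u v w : ℕ × B), m = a * tr (S.z u) (S.z v) (S.z w)} := by
  set H := AddSubgroup.closure
    {m | ∃ (a : A) (u v w : ℕ × B), m = a * tr (S.z u) (S.z v) (S.z w)} with hHdef
  have hleft : ∀ (a : A), ∀ m ∈ H, a * m ∈ H := by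
    intro a m hm
    induction hm using AddSubgroup.closure_induction with
    | mem m hm =>
      obtain ⟨b, u, v, w, rfl⟩ := hm
      exact AddSubgroup.subset_closure ⟨a * b, u, v, w, by rw [mul_assoc]⟩
    | zero => simp
    | add x y _ _ hx hy => rw [mul_add]; exact add_mem hx hy
    | neg x _ hx => rw [mul_neg]; exact neg_mem hx
  have hright : ∀ (a : A), ∀ m ∈ H, m * a ∈ H := by
    intro a m hm
    induction hm using AddSubgroup.closure_induction with
    | mem m hm =>
      obtain ⟨b, u, v, w, rfl⟩ := hm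
      rw [mul_assoc, S.tr_comm, ← mul_assoc]
      exact AddSubgroup.subset_closure ⟨b * a, u, v, w, rfl⟩
    | zero => simp
    | add x y _ _ hx hy => rw [add_mul]; exact add_mem hx hy
    | neg x _ hx => rw [neg_mul]; exact neg_mem hx
  -- one letter at a time
  have step : ∀ (y z : A), (∀ u : ℕ × B, tr (S.z u) y z ∈ H) → ∀ x, tr x y z ∈ H := by
    intro y z hu x
    have hw : ∀ l : List (ℕ × B), tr (S.w l) y z ∈ H := by
      intro l
      induction l with
      | nil =>
        have : tr (1 : A) y z = 0 := by simp [tr, cm]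
        simp [this]
      | cons u l ih =>
        rw [w_cons, tr_mul_left S]
        exact add_mem (hleft _ _ ih) (hright _ _ (hu u))
    have hx := S.mem_closure_words x
    induction hx using AddSubgroup.closure_induction with
    | mem x hx =>
      obtain ⟨l, rfl⟩ := hx
      exact hw l
    | zero =>
      have : tr (0 : A) y z = 0 := by simp [tr, cm]
      simp [this]
    | add a b _ _ ha hb =>
      have : tr (a + b) y z = tr a y z + tr b y z := by simp only [tr, cm]; noncomm_ring
      rw [this]; exact add_mem ha hb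
    | neg a _ ha =>
      have : tr (-a) y z = -tr a y z := by simp only [tr, cm]; noncomm_ring
      rw [this]; exact neg_mem ha
  refine step y z (fun u => ?_) x
  rw [tr_anti1]
  refine neg_mem (step (S.z u) z (fun v => ?_) y)
  rw [S.tr_anti2, tr_anti1, neg_neg]
  refine step (S.z v) (S.z u) (fun w => ?_) z
  exact AddSubgroup.subset_closure ⟨1, w, v, u, by rw [one_mul]⟩

theorem span_one : U (A := A) ≤ AddSubgroup.closure
    {x | ∃ (a l : List (ℕ × B)), (3 ≤ l.length ∧ ¬ Even l.length) ∧ x = S.Lop a (S.Co l)} := by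
  rw [U, AddSubgroup.closure_le]
  rintro _ ⟨a, b, x, y, z, rfl⟩
  have h : a * tr x y z * b = (a * b) * tr x y z := by
    rw [mul_assoc, S.tr_comm, mul_assoc]
  rw [h]
  generalize a * b = a
  have ht := S.tr_letters x y z
  generalize tr x y z = t at ht
  rw [SetLike.mem_coe]
  induction ht using AddSubgroup.closure_induction with
  | mem m hm =>
    obtain ⟨b, u, v, w, rfl⟩ := hm
    rw [← mul_assoc]
    have hab := S.span_zero (a * b)
    generalize a * b = c at hab
    rw [AddSubgroup.mem_sup] at hab
    obtain ⟨c₁, hc₁, c₂, hc₂, rfl⟩ := hab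
    have h2 : c₂ * tr (S.z u) (S.z v) (S.z w) = 0 := by
      rw [← S.tr_comm, S.tr_mul_U _ _ _ hc₂]
    rw [add_mul, h2, add_zero]
    induction hc₁ using AddSubgroup.closure_induction with
    | mem c hc =>
      obtain ⟨a, l, hl, rfl⟩ := hc
      refine AddSubgroup.subset_closure ⟨a, u :: v :: w :: l, ⟨by simp, ?_⟩, ?_⟩
      · simp only [List.length_cons]
        rw [Nat.even_add_one, Nat.even_add_one, Nat.even_add_one]
        simpa using hl
      · rw [Co_cons]
        clear h h2
        have : ∀ m : A, S.Lop a m * tr (S.z u) (S.z v) (S.z w) =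
            S.Lop a (tr (S.z u) (S.z v) (S.z w) * m) := by
          intro m
          induction a with
          | nil => simp [S.tr_comm]
          | cons x a ih =>
            simp only [Lop_cons, ← ih, Lz_apply]
            rw [add_mul, mul_assoc, mul_assoc, mul_assoc, ← S.tr_comm _ _ _ (S.z x)]
        exact this _
    | zero => simp
    | add x y _ _ hx hy => rw [add_mul]; exact add_mem hx hy
    | neg x _ hx => rw [neg_mul]; exact neg_mem hx
  | zero => simp
  | add x y _ _ hx hy => rw [mul_add]; exact add_mem hx hy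
  | neg x _ hx => rw [mul_neg]; exact neg_mem hx

theorem acc_three [Finite B] : S.Acc ⊤ ⊥ := by
  refine S.acc_trans (Y := U) ?_ ?_
  · refine S.layer3 ⊤ U ⟨fun _ _ _ => trivial, fun _ _ _ => trivial, fun _ _ _ => trivial⟩ S.U_inv
      S.H1_zero S.H2_zero S.Ce (fun n => Even n) ?_ ?_ (fun _ => trivial) S.sub_Ce S.Ce_alt ?_ ?_
    · intro n k hn
      rw [Nat.even_add]
      simp [hn]
    · intro n m hn hm
      simp only [hn, hm]
    · intro s l hs _
      left
      rw [S.Ce_append hs]
    · intro a _
      exact S.span_zero a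
  · refine S.layer3 U ⊥ S.U_inv ⟨?_, ?_, ?_⟩ S.H1_one S.H2_one S.Co
      (fun n => 3 ≤ n ∧ ¬ Even n) ?_ ?_ ?_ S.sub_Co S.Co_alt ?_ ?_
    · intro a x hx; rw [AddSubgroup.mem_bot] at *; simp [hx]
    · intro a x hx; rw [AddSubgroup.mem_bot] at *; simp [hx]
    · intro a x hx; rw [AddSubgroup.mem_bot] at *; simp [hx]
    · rintro n k ⟨h1, h2⟩
      refine ⟨by omega, ?_⟩
      rw [Nat.even_add]
      simp [h2]
    · rintro n m ⟨_, hn⟩ ⟨_, hm⟩
      simp only [hn, hm]
    · intro l
      match l with
      | [] => simp [Co]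
      | [_] => simp [Co]
      | [_, _] => simp [Co]
      | x :: y :: w :: l =>
        rw [Co_cons]
        exact S.U_inv.right _ _ (tr_mem_U _ _ _)
    · intro s l hs hl
      match l, hl with
      | x :: y :: w :: l, _ =>
        have h1 : S.Ce s * S.Co (x :: y :: w :: l) = S.Co (x :: y :: w :: (s ++ l)) := by
          rw [Co_cons, Co_cons, S.Ce_append hs, ← mul_assoc, ← S.tr_comm, mul_assoc]
        rw [h1]
        apply (S.Co_alt).perm'
        have : (x :: y :: w :: (s ++ l)) = [x, y, w] ++ s ++ l := rfl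
        rw [this]
        have h3 : s ++ x :: y :: w :: l = s ++ [x, y, w] ++ l := by simp
        rw [h3]
        exact List.Perm.append_right _ List.perm_append_comm
    · exact S.span_one.trans le_sup_left

end three

end Sys

end Pool.Agent.Work.MP_f5ed0a_al
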