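import Pool.Agent.Work.MP_f5ed0a_al.Aug

set_option autoImplicit false

namespace Pool.Agent.Work.MP_f5ed0a_al

namespace Sys

variable {p : ℕ} {B : Type*} {A : Type*} [Ring A] (S : Sys p B A)

/-- A letter, or zero. -/
def zz (o : Option (ℕ × B)) : A := o.elim 0 S.z

/-- A letter, or one. -/
def z1 (o : Option (ℕ × B)) : A := o.elim 1 S.z

@[simp] theorem zz_none : S.zz none = 0 := rfl
@[simp] theorem zz_some (x : ℕ × B) : S.zz (some x) = S.z x := rfl
@[simp] theorem z1_none : S.z1 none = 1 := rfl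
@[simp] theorem z1_some (x : ℕ × B) : S.z1 (some x) = S.z x := rfl

theorem sub_zz (σ : ℕ → ℕ) (o : Option (ℕ × B)) : S.sub σ (S.zz o) = S.zz (o.map (mv σ)) := by
  cases o <;> simp [S.sub_z]

theorem sub_z1 (σ : ℕ → ℕ) (o : Option (ℕ × B)) : S.sub σ (S.z1 o) = S.z1 (o.map (mv σ)) := by
  cases o <;> simp [S.sub_z]

theorem zz_mem (o : Option (ℕ × B)) : S.zz o ∈ S.pw 1 := by
  cases o with
  | none => exact zero_mem _
  | some x => exact S.z_mem_pw x

theorem acc_pw [Fact p.Prime] [Finite B] (j : ℕ) : S.Acc (S.pw j) (S.pw (j + 1)) := by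
  refine S.layer (S.pw j) (S.pw (j + 1)) (S.pw_inv j) (S.pw_inv (j + 1)) j
    (fun l => (List.ofFn (fun q => S.zz (l q))).prod) ?_ ?_ ?_ ?_ ?_
  · intro l
    by_cases h : ∃ q, l q = none
    · obtain ⟨q, hq⟩ := h
      have : (List.ofFn (fun q => S.zz (l q))).prod = 0 := by
        apply List.prod_eq_zero
        rw [List.mem_ofFn]
        exact ⟨q, by simp [hq]⟩
      rw [this]
      exact zero_mem _
    · push Not at h
      have h' : ∀ q, ∃ x, l q = some x := fun q => Option.ne_none_iff_exists'.1 (h q)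
      choose f hf using h'
      have : (List.ofFn (fun q => S.zz (l q))).prod = S.w (List.ofFn f) := by
        rw [w, List.map_ofFn]
        congr 2
        funext q
        simp [hf q]
      rw [this]
      exact S.w_mem_pw (by simp)
  · intro σ l
    rw [map_list_prod, List.map_ofFn]
    congr 2
    funext q
    exact S.sub_zz σ (l q)
  · intro x y m hm
    have h1 : S.z x * S.z y - S.z y * S.z x ∈ S.pw 1 :=
      sub_mem (S.pw_right _ (S.z_mem_pw x)) (S.pw_right _ (S.z_mem_pw y))
    rw [add_comm]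
    exact S.pw_mul h1 hm
  · intro x y m hm
    have h1 : S.z x * S.z y - S.z y * S.z x ∈ S.pw 1 :=
      sub_mem (S.pw_right _ (S.z_mem_pw x)) (S.pw_right _ (S.z_mem_pw y))
    exact S.pw_mul hm h1
  · rw [pw, AddSubgroup.closure_le]
    rintro _ ⟨l, hl, rfl⟩
    rcases Nat.lt_or_ge j l.length with h | h
    · exact AddSubgroup.mem_sup_right (S.w_mem_pw h)
    · have hj : l.length = j := le_antisymm h hl
      subst hj
      refine AddSubgroup.mem_sup_left (AddSubgroup.subset_closure ?_)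
      refine ⟨[], fun q => some (l.get q), [], ?_⟩
      simp only [w_nil, one_mul, mul_one, zz_some]
      rw [w]
      congr 1
      have : (List.ofFn fun q => S.z (l.get q)) = (List.ofFn l.get).map S.z := by
        rw [List.map_ofFn]; rfl
      rw [this, List.ofFn_get]

theorem pw_seven (h2 : p ≠ 2) (h3 : p ≠ 3) [Fact p.Prime] : S.pw 7 = ⊥ := by
  rw [eq_bot_iff, pw, AddSubgroup.closure_le]
  rintro _ ⟨l, hl, rfl⟩
  rw [SetLike.mem_coe, AddSubgroup.mem_bot]
  match l, hl with
  | a :: b :: c :: d :: e :: f :: g :: l, _ =>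
    -- work in the nonunital subring
    let R := NonUnitalSubring.closure (Set.range S.z)
    have hz : ∀ x, S.z x ∈ R := fun x => NonUnitalSubring.subset_closure ⟨x, rfl⟩
    have hw : S.w (g :: l) ∈ R := S.w_mem_closure (by simp)
    have key := nagata_higman (R := R) 1
      (fun x => by
        rw [one_smul]
        exact Subtype.ext (S.nil x.1 x.2))
      ⟨S.z a, hz a⟩ ⟨S.z b, hz b⟩ ⟨S.z c, hz c⟩ ⟨S.z d, hz d⟩ ⟨S.z e, hz e⟩ ⟨S.z f, hz f⟩
      ⟨S.w (g :: l), hw⟩
    have key' := congrArg Subtype.val key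
    have k2 : 24 • (S.z a * S.z b * S.z c * S.z d * (S.z e * S.z f * S.w (g :: l))) = 0 := by
      simpa using key'
    have hcop : Nat.Coprime 24 p := by
      have hp : p.Prime := Fact.out
      rw [Nat.coprime_comm, Nat.Prime.coprime_iff_not_dvd hp]
      intro hd
      have : p ∣ 2 * 2 * 2 * 3 := hd
      rcases hp.dvd_mul.1 this with h | h
      · rcases hp.dvd_mul.1 h with h | h
        · rcases hp.dvd_mul.1 h with h | h
          · exact h2 ((Nat.prime_dvd_prime_iff_eq hp Nat.prime_two).1 h)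
          · exact h2 ((Nat.prime_dvd_prime_iff_eq hp Nat.prime_two).1 h)
        · exact h2 ((Nat.prime_dvd_prime_iff_eq hp Nat.prime_two).1 h)
      · exact h3 ((Nat.prime_dvd_prime_iff_eq hp Nat.prime_three).1 h)
    have hone : ∀ x : A, 24 • x = 0 → x = 0 := by
      intro x hx
      have h1 := Nat.isCoprime_iff_coprime.2 hcop
      obtain ⟨u, v, huv⟩ := h1
      have h4 : (u * ((24 : ℕ) : ℤ) + v * (p : ℤ)) • x = x := by rw [huv, one_smul]
      rw [add_smul, mul_smul, mul_smul, natCast_zsmul, natCast_zsmul, hx, S.char] at h4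
      simpa using h4.symm
    have k3 := hone _ k2
    simp only [w_cons] at k3 ⊢
    simpa only [mul_assoc] using k3

theorem acc_big (h2 : p ≠ 2) (h3 : p ≠ 3) [Fact p.Prime] [Finite B] : S.Acc ⊤ ⊥ := by
  rw [← S.pw_zero, ← S.pw_seven h2 h3]
  exact S.acc_trans (S.acc_pw 0) <| S.acc_trans (S.acc_pw 1) <| S.acc_trans (S.acc_pw 2) <|
    S.acc_trans (S.acc_pw 3) <| S.acc_trans (S.acc_pw 4) <| S.acc_trans (S.acc_pw 5) (S.acc_pw 6)

end Sys

end Pool.Agent.Work.MP_f5ed0a_al
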