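import Pool.Agent.Work.MP_f5ed0a_al.Char3

set_option autoImplicit false

namespace Pool.Agent.Work.MP_f5ed0a_al

/-- Noetherianity of coloured nil rings of index three, in every prime characteristic. -/
theorem Sys.acc {p : ℕ} [Fact p.Prime] {B : Type*} [Finite B] {A : Type*} [Ring A]
    (S : Sys p B A) (N : ℕ → AddSubgroup A) (hN : Monotone N) (hNI : ∀ k, S.Inv (N k)) :
    ∃ K, ∀ k, K ≤ k → N k = N K := by
  refine S.acc_bot ?_ N hN hNI
  by_cases h2 : p = 2
  · subst h2
    exact S.acc_two
  by_cases h3 : p = 3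
  · subst h3
    exact S.acc_three
  exact S.acc_big h2 h3

end Pool.Agent.Work.MP_f5ed0a_al
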