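import Mathlib

set_option autoImplicit false

universe u

namespace Pool.Agent.Work.MP_f5ed0a_al

/-- Polynomials with integer coefficients and without constant term in the noncommuting
variables `x₀, x₁, x₂, …`; this is the free associative ring without identity element. -/
abbrev Poly : Type := MonoidAlgebra ℤ (FreeSemigroup ℕ)

/-- The value of a polynomial when the elements `v 0, v 1, …` of the ring `R` are substituted
for the variables `x₀, x₁, …`. -/
noncomputable def ev {R : Type u} [NonUnitalRing R] (v : ℕ → R) : Poly →ₙₐ[ℤ] R :=
  MonoidAlgebra.liftMagma ℤ (FreeSemigroup.lift v)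

/-- The ring `R` satisfies the identity `f = 0`. -/
def Satisfies (R : Type u) [NonUnitalRing R] (f : Poly) : Prop :=
  ∀ v : ℕ → R, ev v f = 0

/-- Classes of associative, not necessarily commutative rings, not necessarily with an
identity element. -/
abbrev RingClass : Type (u + 1) := ∀ (R : Type u) [NonUnitalRing R], Prop

/-- A variety is a class of rings defined by a set of polynomial identities. -/
def IsVariety (V : RingClass.{u}) : Prop :=
  ∃ G : Set Poly, ∀ (R : Type u) [NonUnitalRing R], V R ↔ ∀ f ∈ G, Satisfies R f

/-- The power `x ^ k` for `k ≥ 1` in a ring possibly without identity element (`mpow x 0` is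
the junk value `x`, which is never used). -/
def mpow {R : Type u} [Mul R] (x : R) : ℕ → R
  | 0 => x
  | 1 => x
  | k + 2 => mpow x (k + 1) * x

/-- The variety `x ^ 3 = x ^ n`. -/
def cubeVariety (n : ℕ) : RingClass.{u} :=
  fun R _ => ∀ x : R, mpow x 3 = mpow x n

/-- Inclusion of classes of rings. -/
def SubClass (V W : RingClass.{u}) : Prop :=
  ∀ (R : Type u) [NonUnitalRing R], V R → W R

/-- The minimum condition on subvarieties: no infinite strictly descending chain. -/
def MinimumCondition (V : RingClass.{u}) : Prop :=
  ¬ ∃ W : ℕ → RingClass.{u}, (∀ k, IsVariety (W k)) ∧ (∀ k, SubClass (W k) V) ∧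
    ∀ k, SubClass (W (k + 1)) (W k) ∧ ¬ SubClass (W k) (W (k + 1))

end Pool.Agent.Work.MP_f5ed0a_al
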