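import Mathlib

set_option autoImplicit false

namespace Pool.Agent.Work.MP_f5ed0a_al

section path

variable {A : Type*} [Ring A] {ι : Type*} [Fintype ι] [DecidableEq ι] (e : ι → A)

/-- The sum of the idempotents of a set. -/
def eU (U : Finset ι) : A := ∑ i ∈ U, e i

/-- Sum over the paths starting at `a` and visiting exactly `T`. -/
def path : List A → Finset ι → ι → A
  | [], T, a => if T = {a} then e a else 0
  | x :: l, T, a => if a ∈ T then ∑ b, e a * x * e b * (path l T b + path l (T.erase a) b) else 0

theorem path_notMem (l : List A) (T : Finset ι) (a : ι) (h : a ∉ T) : path e l T a = 0 := by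
  cases l with
  | nil =>
    rw [path, if_neg]
    rintro rfl
    simp at h
  | cons x l => rw [path, if_neg h]

variable {e}

omit [Fintype ι] in
theorem e_mul_eU (he : OrthogonalIdempotents e) (U : Finset ι) (a : ι) :
    e a * eU e U = if a ∈ U then e a else 0 := by
  rw [eU, Finset.mul_sum]
  simp only [he.mul_eq]
  rw [Finset.sum_ite_eq]

theorem sum_path (he : OrthogonalIdempotents e) (U : Finset ι) (l : List A) (a : ι) :
    ∑ T ∈ U.powerset, path e l T a =
      e a * ((l.map (fun x => eU e U * x * eU e U)).prod * eU e U) := by
  induction l generalizing a with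
  | nil =>
    simp only [path, List.map_nil, List.prod_nil, one_mul]
    rw [e_mul_eU he, Finset.sum_ite_eq']
    simp
  | cons x l ih =>
    by_cases ha : a ∈ U
    · have h1 : ∑ T ∈ U.powerset, path e (x :: l) T a =
          ∑ b, e a * x * e b * ∑ T ∈ U.powerset, path e l T b := by
        simp only [path]
        have hU : U = insert a (U.erase a) := (Finset.insert_erase ha).symm
        have hna : a ∉ U.erase a := by simp
        have key : ∀ g : Finset ι → A, ∑ T ∈ U.powerset, g T =
            ∑ T ∈ (U.erase a).powerset, (g (insert a T) + g T) := by
          intro g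
          rw [hU, Finset.sum_powerset_insert hna, ← hU, Finset.sum_add_distrib, add_comm]
        rw [key]
        simp only [key]
        have h2 : ∀ T ∈ (U.erase a).powerset,
            ((if a ∈ insert a T then ∑ b, e a * x * e b *
              (path e l (insert a T) b + path e l ((insert a T).erase a) b) else 0) +
            (if a ∈ T then ∑ b, e a * x * e b * (path e l T b + path e l (T.erase a) b) else 0)) =
            ∑ b, e a * x * e b * (path e l (insert a T) b + path e l T b) := by
          intro T hT
          have haT : a ∉ T := fun h => hna (Finset.mem_powerset.1 hT h)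
          rw [if_pos (Finset.mem_insert_self a T), if_neg haT, add_zero, Finset.erase_insert haT]
        rw [Finset.sum_congr rfl h2, Finset.sum_comm]
        apply Finset.sum_congr rfl
        intro b _
        rw [Finset.mul_sum]
      rw [h1]
      simp only [ih]
      have h3 : ∑ b, e a * x * e b * (e b * ((l.map (fun x => eU e U * x * eU e U)).prod * eU e U)) =
          e a * x * (∑ b, e b * ((l.map (fun x => eU e U * x * eU e U)).prod * eU e U)) := by
        rw [Finset.mul_sum]
        apply Finset.sum_congr rfl
        intro b _
        simp only [← mul_assoc]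
        rw [mul_assoc (e a * x) (e b) (e b), (he.idem b).eq]
      rw [h3]
      -- the product starts with `eU`
      set G := (l.map (fun x => eU e U * x * eU e U)).prod * eU e U with hG
      have hGe : eU e U * G = G := by
        have hidem : eU e U * eU e U = eU e U := (he.isIdempotentElem_sum (s := U)).eq
        rw [hG]
        cases l with
        | nil => simp [hidem]
        | cons y l =>
          simp only [List.map_cons, List.prod_cons, ← mul_assoc, hidem]
      have h4 : ∑ b, e b * G = eU e U * G := by
        have : ∀ b, e b * G = if b ∈ U then e b * G else 0 := by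
          intro b
          by_cases hb : b ∈ U
          · simp [hb]
          · have h5 := e_mul_eU he U b
            rw [if_neg hb] at h5
            simp only [hb, if_false]
            rw [← hGe, ← mul_assoc, h5, zero_mul]
        rw [Finset.sum_congr rfl (fun b _ => this b), ← Finset.sum_filter, Finset.filter_mem_eq_inter,
          Finset.univ_inter, eU, Finset.sum_mul]
      rw [h4]
      simp only [List.map_cons, List.prod_cons]
      have h6 := e_mul_eU he U a
      rw [if_pos ha] at h6
      rw [mul_assoc (eU e U * x * eU e U), ← hG]
      simp only [← mul_assoc]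
      rw [h6]
    · have h1 : ∑ T ∈ U.powerset, path e (x :: l) T a = 0 := by
        apply Finset.sum_eq_zero
        intro T hT
        exact path_notMem e _ _ _ (fun h => ha (Finset.mem_powerset.1 hT h))
      rw [h1]
      have h6 := e_mul_eU he U a
      rw [if_neg ha] at h6
      simp only [List.map_cons, List.prod_cons, ← mul_assoc]
      rw [h6]
      simp

variable (J : AddSubgroup A)

omit [Fintype ι] [DecidableEq ι] in
/-- Three consecutive off-diagonal radical steps vanish, unless they alternate. -/
theorem three_steps (he : OrthogonalIdempotents e)
    (hJ : ∀ i j x, i ≠ j → e i * x * e j ∈ J) (hnil : ∀ x ∈ J, x * x * x = 0)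
    {i j k l : ι} (hij : i ≠ j) (hjk : j ≠ k) (hkl : k ≠ l) (hna : ¬ (k = i ∧ l = j)) (x y z : A) :
    e i * x * e j * (e j * y * e k) * (e k * z * e l) = 0 := by
  set X := e i * x * e j with hX
  set Y := e j * y * e k with hY
  set Z := e k * z * e l with hZ
  have hXJ : X ∈ J := hJ i j x hij
  have hYJ : Y ∈ J := hJ j k y hjk
  have hZJ : Z ∈ J := hJ k l z hkl
  have h1 := hnil _ (add_mem (add_mem hXJ hYJ) hZJ)
  have h2 := hnil _ (add_mem hXJ hYJ)
  have h3 := hnil _ (add_mem hXJ hZJ)
  have h4 := hnil _ (add_mem hYJ hZJ)
  have h5 := hnil _ hXJ
  have h6 := hnil _ hYJ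
  have h7 := hnil _ hZJ
  have s : X * Y * Z + X * Z * Y + Y * X * Z + Y * Z * X + Z * X * Y + Z * Y * X = 0 := by
    have e' : X * Y * Z + X * Z * Y + Y * X * Z + Y * Z * X + Z * X * Y + Z * Y * X =
        (X + Y + Z) * (X + Y + Z) * (X + Y + Z) - (X + Y) * (X + Y) * (X + Y)
        - (X + Z) * (X + Z) * (X + Z) - (Y + Z) * (Y + Z) * (Y + Z) + X * X * X + Y * Y * Y
        + Z * Z * Z := by
      noncomm_ring
    rw [e', h1, h2, h3, h4, h5, h6, h7]
    simp
  have oe : ∀ {a b : ι}, a ≠ b → e a * e b = 0 := fun h => he.ortho h
  have ii : ∀ a, e a * e a = e a := fun a => (he.idem a).eq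
  have hXZ : X * Z = 0 := by
    rw [hX, hZ]
    have : e i * x * e j * (e k * z * e l) = e i * x * (e j * e k) * z * e l := by noncomm_ring
    rw [this, oe hjk]; simp
  -- multiply by `e i` on the left and `e l` on the right
  have hl : e i * X = X := by rw [hX, ← mul_assoc, ← mul_assoc, ii]
  have hr : Z * e l = Z := by rw [hZ, mul_assoc, ii]
  have hiY : e i * Y = 0 := by rw [hY, ← mul_assoc, ← mul_assoc, oe hij]; simp
  have hZX : e i * (Z * X) = 0 := by
    by_cases hki : k = i
    · -- then `l ≠ i`
      have hli : l ≠ i := fun h => hkl (hki.trans h.symm)
      have : Z * X = 0 := by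
        rw [hX, hZ]
        have : e k * z * e l * (e i * x * e j) = e k * z * (e l * e i) * x * e j := by noncomm_ring
        rw [this, oe hli]; simp
      rw [this, mul_zero]
    · rw [hZ]
      have : e i * (e k * z * e l * X) = (e i * e k) * z * e l * X := by noncomm_ring
      rw [this, oe (Ne.symm hki)]; simp
  have hZY : e i * (Z * Y) * X = 0 := by
    by_cases hki : k = i
    · have hlj : l ≠ j := fun h => hna ⟨hki, h⟩
      have : Z * Y = 0 := by
        rw [hY, hZ]
        have : e k * z * e l * (e j * y * e k) = e k * z * (e l * e j) * y * e k := by noncomm_ring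
        rw [this, oe hlj]; simp
      rw [this]; simp
    · rw [hZ]
      have : e i * (e k * z * e l * Y) * X = (e i * e k) * z * e l * Y * X := by noncomm_ring
      rw [this, oe (Ne.symm hki)]; simp
  have h8 : e i * (X * Y * Z + X * Z * Y + Y * X * Z + Y * Z * X + Z * X * Y + Z * Y * X) =
      X * Y * Z := by
    have : e i * (X * Y * Z + X * Z * Y + Y * X * Z + Y * Z * X + Z * X * Y + Z * Y * X) =
        (e i * X) * Y * Z + e i * (X * Z) * Y + (e i * Y) * X * Z + (e i * Y) * Z * X +
        (e i * (Z * X)) * Y + e i * (Z * Y) * X := by noncomm_ring
    rw [this, hl, hXZ, hiY, hZX, hZY]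
    simp
  rw [← h8, s, mul_zero]

/-- Elements represented by paths visiting exactly two vertices. -/
def Y2 (e : ι → A) (a b : ι) : AddSubgroup A :=
  AddSubgroup.closure ({m | ∃ x, m = e a * x * e b} ∪
    {m | ∃ x y w, m = e a * x * e b * (e b * y * e a) * w})

/-- Elements represented by paths visiting exactly three vertices. -/
def Z3 (e : ι → A) (a : ι) (T : Finset ι) : AddSubgroup A :=
  AddSubgroup.closure {m | ∃ b c x y, b ≠ a ∧ c ≠ a ∧ b ≠ c ∧ T = {a, b, c} ∧
    m = e a * x * e b * (e b * y * e c)}

theorem path_card_le (he : OrthogonalIdempotents e)
    (hJ : ∀ i j x, i ≠ j → e i * x * e j ∈ J) (hnil : ∀ x ∈ J, x * x * x = 0) (l : List A) :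
    (∀ a, path e l {a} a = e a * path e l {a} a * e a) ∧
    (∀ a b, a ≠ b → path e l {a, b} a ∈ Y2 e a b) ∧
    (∀ a T, T.card = 3 → a ∈ T → path e l T a ∈ Z3 e a T) ∧
    (∀ a T, 4 ≤ T.card → path e l T a = 0) := by
  have ii : ∀ a, e a * e a = e a := fun a => (he.idem a).eq
  have step := @three_steps A _ ι e J he hJ hnil
  induction l with
  | nil =>
    refine ⟨?_, ?_, ?_, ?_⟩
    · intro a; simp [path, ii]
    · intro a b hab
      rw [path, if_neg]
      · exact zero_mem _
      · intro h
        have := congrArg Finset.card h
        rw [Finset.card_pair hab] at this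
        simp at this
    · intro a T hT _
      rw [path, if_neg]
      · exact zero_mem _
      · rintro rfl; simp at hT
    · intro a T hT
      rw [path, if_neg]
      rintro rfl; simp at hT
  | cons x l ih =>
    obtain ⟨ih1, ih2, ih3, ih4⟩ := ih
    refine ⟨?_, ?_, ?_, ?_⟩
    · intro a
      have h1 : path e (x :: l) {a} a = e a * x * e a * path e l {a} a := by
        rw [path, if_pos (Finset.mem_singleton_self a), Finset.sum_eq_single a]
        · have h0 : path e l (({a} : Finset ι).erase a) a = 0 := path_notMem e l _ a (by simp)
          rw [h0, add_zero]
        · intro b _ hb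
          have h0 : path e l (({a} : Finset ι).erase a) b = 0 := path_notMem e l _ b (by simp)
          have h1 : path e l ({a} : Finset ι) b = 0 := path_notMem e l _ b (by simpa using hb)
          rw [h0, h1, add_zero, mul_zero]
        · simp
      rw [h1, ih1 a]
      simp only [mul_assoc, ii]
      simp only [← mul_assoc, ii]
    · intro a b hab
      have hera : ({a, b} : Finset ι).erase a = {b} := by
        ext c; simp only [Finset.mem_erase, Finset.mem_insert, Finset.mem_singleton]
        constructor
        · rintro ⟨h1, h2 | h2⟩
          · exact absurd h2 h1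
          · exact h2
        · rintro rfl; exact ⟨hab.symm, Or.inr rfl⟩
      have h1 : path e (x :: l) {a, b} a = e a * x * e a * path e l {a, b} a +
          e a * x * e b * (path e l {a, b} b + path e l {b} b) := by
        rw [path, if_pos (by simp), hera]
        rw [← Finset.sum_subset (Finset.subset_univ {a, b})]
        · rw [Finset.sum_pair hab, path_notMem e l {b} a (by simpa using hab), add_zero]
        · intro c _ hc
          have : c ∉ ({b} : Finset ι) := by
            intro h; apply hc; simp at h; simp [h]
          rw [path_notMem e l _ c hc, path_notMem e l _ c this, add_zero, mul_zero]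
      rw [h1]
      refine add_mem ?_ ?_
      · have h2 := ih2 a b hab
        generalize path e l {a, b} a = m at h2
        induction h2 using AddSubgroup.closure_induction with
        | mem m hm =>
          rcases hm with ⟨y, rfl⟩ | ⟨y, z, w, rfl⟩
          · refine AddSubgroup.subset_closure (Or.inl ⟨x * e a * y, ?_⟩)
            have : e a * x * e a * (e a * y * e b) = e a * x * (e a * e a) * y * e b := by noncomm_ring
            rw [this, ii]; noncomm_ring
          · refine AddSubgroup.subset_closure (Or.inr ⟨x * e a * y, z, w, ?_⟩)
            have : e a * x * e a * (e a * y * e b * (e b * z * e a) * w) =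
              e a * x * (e a * e a) * y * e b * (e b * z * e a) * w := by noncomm_ring
            rw [this, ii]; noncomm_ring
        | zero => simp
        | add x y _ _ hx hy => rw [mul_add]; exact add_mem hx hy
        | neg x _ hx => rw [mul_neg]; exact neg_mem hx
      · rw [mul_add]
        refine add_mem ?_ ?_
        · have h2 := ih2 b a hab.symm
          rw [Finset.pair_comm] at h2
          generalize path e l {a, b} b = m at h2
          induction h2 using AddSubgroup.closure_induction with
          | mem m hm =>
            rcases hm with ⟨y, rfl⟩ | ⟨y, z, w, rfl⟩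
            · exact AddSubgroup.subset_closure (Or.inr ⟨x, y, 1, by rw [mul_one]⟩)
            · refine AddSubgroup.subset_closure (Or.inr ⟨x, y, (e a * z * e b) * w, ?_⟩)
              noncomm_ring
          | zero => simp
          | add x y _ _ hx hy => rw [mul_add]; exact add_mem hx hy
          | neg x _ hx => rw [mul_neg]; exact neg_mem hx
        · rw [ih1 b]
          refine AddSubgroup.subset_closure (Or.inl ⟨x * e b * path e l {b} b, ?_⟩)
          have : e a * x * e b * (e b * path e l {b} b * e b) =
            e a * x * (e b * e b) * path e l {b} b * e b := by noncomm_ring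
          rw [this, ii]; noncomm_ring
    · intro a T hT haT
      have h1 : path e (x :: l) T a = e a * x * e a * path e l T a +
          ∑ b ∈ T.erase a, (e a * x * e b * path e l T b +
            e a * x * e b * path e l (T.erase a) b) := by
        rw [path, if_pos haT]
        rw [← Finset.sum_subset (Finset.subset_univ T)]
        · rw [← Finset.add_sum_erase _ _ haT, path_notMem e l (T.erase a) a (by simp), add_zero]
          congr 1
          apply Finset.sum_congr rfl
          intro b _
          rw [mul_add]
        · intro c _ hc
          have : c ∉ T.erase a := fun h => hc (Finset.mem_of_mem_erase h)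
          rw [path_notMem e l _ c hc, path_notMem e l _ c this, add_zero, mul_zero]
      rw [h1]
      refine add_mem ?_ (sum_mem ?_)
      · have h2 := ih3 a T hT haT
        generalize path e l T a = m at h2
        induction h2 using AddSubgroup.closure_induction with
        | mem m hm =>
          obtain ⟨b, c, y, z, hb, hc, hbc, hT', rfl⟩ := hm
          refine AddSubgroup.subset_closure ⟨b, c, x * e a * y, z, hb, hc, hbc, hT', ?_⟩
          have : e a * x * e a * (e a * y * e b * (e b * z * e c)) =
            e a * x * (e a * e a) * y * e b * (e b * z * e c) := by noncomm_ring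
          rw [this, ii]; noncomm_ring
        | zero => simp
        | add x y _ _ hx hy => rw [mul_add]; exact add_mem hx hy
        | neg x _ hx => rw [mul_neg]; exact neg_mem hx
      · intro b hb
        have hbT : b ∈ T := Finset.mem_of_mem_erase hb
        have hba : b ≠ a := Finset.ne_of_mem_erase hb
        refine add_mem ?_ ?_
        · -- vanishes
          have h2 := ih3 b T hT hbT
          have h3 : e a * x * e b * path e l T b = 0 := by
            generalize path e l T b = m at h2
            induction h2 using AddSubgroup.closure_induction with
            | mem m hm =>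
              obtain ⟨c, f, y, z, hc, hf, hcf, hT', rfl⟩ := hm
              have haT' : a ∈ ({b, c, f} : Finset ι) := hT' ▸ haT
              simp only [Finset.mem_insert, Finset.mem_singleton] at haT'
              rw [← mul_assoc]
              refine step hba.symm hc.symm hcf ?_ x y z
              rintro ⟨h4, h5⟩
              exact hf h5
            | zero => simp
            | add x y _ _ hx hy => rw [mul_add, hx, hy, add_zero]
            | neg x _ hx => rw [mul_neg, hx, neg_zero]
          rw [h3]
          exact zero_mem _
        · -- two more vertices
          have hcard : (T.erase a).card = 2 := by rw [Finset.card_erase_of_mem haT, hT]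
          obtain ⟨c, hc⟩ : ∃ c, T.erase a = {b, c} ∧ b ≠ c := by
            obtain ⟨u, v, huv, huv'⟩ := Finset.card_eq_two.1 hcard
            rw [huv'] at hb
            simp only [Finset.mem_insert, Finset.mem_singleton] at hb
            rcases hb with rfl | rfl
            · exact ⟨v, huv', huv⟩
            · exact ⟨u, by rw [huv', Finset.pair_comm], huv.symm⟩
          obtain ⟨hc1, hbc⟩ := hc
          have hca : c ≠ a := by
            have : c ∈ T.erase a := by rw [hc1]; simp
            exact Finset.ne_of_mem_erase this
          have hTabc : T = {a, b, c} := by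
            rw [← Finset.insert_erase haT, hc1]
          rw [hc1]
          have h2 := ih2 b c hbc
          generalize path e l {b, c} b = m at h2
          induction h2 using AddSubgroup.closure_induction with
          | mem m hm =>
            rcases hm with ⟨y, rfl⟩ | ⟨y, z, w, rfl⟩
            · exact AddSubgroup.subset_closure ⟨b, c, x, y, hba, hca, hbc, hTabc, rfl⟩
            · have h3 := step hba.symm hbc hbc.symm (fun h => hca h.1) x y z
              have : e a * x * e b * (e b * y * e c * (e c * z * e b) * w) =
                e a * x * e b * (e b * y * e c) * (e c * z * e b) * w := by noncomm_ring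
              rw [this, h3, zero_mul]
              exact zero_mem _
          | zero => simp
          | add x y _ _ hx hy => rw [mul_add]; exact add_mem hx hy
          | neg x _ hx => rw [mul_neg]; exact neg_mem hx
    · intro a T hT
      by_cases haT : a ∈ T
      swap
      · exact path_notMem e _ _ _ haT
      rw [path, if_pos haT]
      apply Finset.sum_eq_zero
      intro b _
      rw [ih4 b T hT, zero_add]
      have hcard : (T.erase a).card = T.card - 1 := Finset.card_erase_of_mem haT
      by_cases hba : b = a
      · subst hba
        rw [path_notMem e l _ b (by simp), mul_zero]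
      by_cases h5 : 4 ≤ (T.erase a).card
      · rw [ih4 b _ h5, mul_zero]
      have h3 : (T.erase a).card = 3 := by omega
      by_cases hbT : b ∈ T.erase a
      swap
      · rw [path_notMem e l _ b hbT, mul_zero]
      have h2 := ih3 b _ h3 hbT
      generalize hTe : T.erase a = T' at h2
      generalize path e l T' b = m at h2
      induction h2 using AddSubgroup.closure_induction with
      | mem m hm =>
        obtain ⟨c, f, y, z, hc, hf, hcf, hT', rfl⟩ := hm
        have hca : c ≠ a := by
          have : c ∈ T.erase a := by rw [hTe, hT']; simp
          exact Finset.ne_of_mem_erase this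
        rw [← mul_assoc]
        exact step (Ne.symm hba) hc.symm hcf (fun h => hca h.1) x y z
      | zero => simp
      | add x y _ _ hx hy => rw [mul_add, hx, hy, add_zero]
      | neg x _ hx => rw [mul_neg, hx, neg_zero]

/-- The total contribution of the paths visiting exactly `T`. -/
def hs (e : ι → A) (l : List A) (T : Finset ι) : A := ∑ a, path e l T a

theorem hs_eq_zero (he : OrthogonalIdempotents e)
    (hJ : ∀ i j x, i ≠ j → e i * x * e j ∈ J) (hnil : ∀ x ∈ J, x * x * x = 0) (l : List A)
    (T : Finset ι) (hT : 4 ≤ T.card) : hs e l T = 0 := by
  apply Finset.sum_eq_zero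
  intro a _
  exact (path_card_le J he hJ hnil l).2.2.2 a T hT

theorem sum_hs (he : CompleteOrthogonalIdempotents e) (U : Finset ι) (l : List A) :
    ∑ T ∈ U.powerset, hs e l T = (l.map (fun x => eU e U * x * eU e U)).prod * eU e U := by
  simp only [hs]
  rw [Finset.sum_comm]
  simp only [sum_path he.toOrthogonalIdempotents]
  rw [← Finset.sum_mul, he.complete, one_mul]

end path

end Pool.Agent.Work.MP_f5ed0a_al
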