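import Pool.Agent.Work.MP_f5ed0a_al.PolyLemmas
import Pool.Agent.Work.MP_f5ed0a_al.Path

set_option autoImplicit false

universe u

namespace Pool.Agent.Work.MP_f5ed0a_al

section card

theorem card_field_le {n : ℕ} (hn : 4 ≤ n) {D : Type u} [Field D] [Finite D]
    (h : ∀ a : D, a ^ 3 = a ^ n) : Nat.card D ≤ n := by
  classical
  have := Fintype.ofFinite D
  set P : Polynomial D := Polynomial.X ^ n - Polynomial.X ^ 3 with hP
  have hdeg : P.natDegree = n := by
    rw [hP, Polynomial.natDegree_sub_eq_left_of_natDegree_lt]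
    · simp
    · simp only [Polynomial.natDegree_X_pow]; omega
  have hP0 : P ≠ 0 := by
    intro h0
    rw [h0] at hdeg
    simp at hdeg
    omega
  have h1 : (Finset.univ : Finset D) ⊆ P.roots.toFinset := by
    intro a _
    rw [Multiset.mem_toFinset, Polynomial.mem_roots hP0, Polynomial.IsRoot, hP]
    simp [h a]
  calc Nat.card D = Fintype.card D := Nat.card_eq_fintype_card
    _ = (Finset.univ : Finset D).card := rfl
    _ ≤ P.roots.toFinset.card := Finset.card_le_card h1
    _ ≤ Multiset.card P.roots := Multiset.toFinset_card_le _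
    _ ≤ P.natDegree := Polynomial.card_roots' P
    _ = n := hdeg

theorem card_division_le {n : ℕ} (hn : 4 ≤ n) {D : Type u} [DivisionRing D] [Finite D]
    (h : ∀ a : D, a ^ 3 = a ^ n) : Nat.card D ≤ n := by
  let _ := littleWedderburn D
  exact card_field_le hn h

/-- The shift matrix. -/
def shiftM (d : ℕ) (D : Type u) [DivisionRing D] : Matrix (Fin d) (Fin d) D :=
  fun i j => if (i : ℕ) + 1 = j then 1 else 0

theorem shiftM_pow {d : ℕ} {D : Type u} [DivisionRing D] (k : ℕ) (i j : Fin d) :
    (shiftM d D ^ k) i j = if (i : ℕ) + k = j then 1 else 0 := by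
  induction k generalizing j with
  | zero =>
    rw [pow_zero, Matrix.one_apply]
    simp [Fin.ext_iff]
  | succ k ih =>
    rw [pow_succ, Matrix.mul_apply]
    by_cases h : (i : ℕ) + (k + 1) = j
    · rw [if_pos h, Finset.sum_eq_single ⟨(i : ℕ) + k, by omega⟩]
      · rw [ih, if_pos rfl, shiftM, one_mul, if_pos]
        simpa [add_assoc] using h
      · intro b _ hb
        rw [ih, if_neg, zero_mul]
        intro h'
        exact hb (Fin.ext h'.symm)
      · simp
    · rw [if_neg h]
      apply Finset.sum_eq_zero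
      intro b _
      rw [ih]
      by_cases hb : (i : ℕ) + k = b
      · rw [if_pos hb, one_mul, shiftM, if_neg]
        omega
      · rw [if_neg hb, zero_mul]

theorem card_matrix_le {n : ℕ} (hn : 4 ≤ n) {d : ℕ} [NeZero d] {D : Type u} [DivisionRing D]
    [Finite (Matrix (Fin d) (Fin d) D)]
    (h : ∀ x : Matrix (Fin d) (Fin d) D, x ^ 3 = x ^ n) :
    Nat.card (Matrix (Fin d) (Fin d) D) ≤ n ^ 9 := by
  have hd : d ≤ 3 := by
    by_contra hcon
    push Not at hcon
    have h1 := h (shiftM d D)
    have h2 : (shiftM d D ^ 3) ⟨0, by omega⟩ ⟨3, by omega⟩ =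
        (shiftM d D ^ n) ⟨0, by omega⟩ ⟨3, by omega⟩ := by rw [h1]
    rw [shiftM_pow, shiftM_pow] at h2
    simp at h2
    omega
  have hd0 : d ≠ 0 := NeZero.ne d
  have hinj : Function.Injective (fun a : D => (Matrix.diagonal (fun _ : Fin d => a))) := by
    intro a b hab
    have := congrFun (congrFun hab ⟨0, by omega⟩) ⟨0, by omega⟩
    simpa using this
  have hfin : Finite D := Finite.of_injective _ hinj
  have hD : Nat.card D ≤ n := by
    apply card_division_le hn
    intro a
    apply hinj
    have := h (Matrix.diagonal (fun _ => a))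
    rw [Matrix.diagonal_pow, Matrix.diagonal_pow] at this
    simpa using this
  have hn1 : 1 ≤ n := by omega
  have hcard : Nat.card (Matrix (Fin d) (Fin d) D) = Nat.card D ^ (d * d) := by
    rw [Matrix, Nat.card_pi]
    simp only [Nat.card_pi]
    simp [pow_mul]
  rw [hcard]
  calc Nat.card D ^ (d * d) ≤ n ^ (d * d) := Nat.pow_le_pow_left hD _
    _ ≤ n ^ 9 := by
      apply Nat.pow_le_pow_right hn1
      nlinarith

end card

/-- Structure of a finite ring modulo its radical. -/
theorem exists_decomp (A : Type u) [Ring A] [Finite A] :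
    ∃ (m : ℕ) (D : Fin m → Type u) (d : Fin m → ℕ) (_ : ∀ i, DivisionRing (D i))
      (_ : ∀ i, NeZero (d i)) (π : A →+* Π i, Matrix (Fin (d i)) (Fin (d i)) (D i)),
      Function.Surjective π ∧ (∀ x ∈ RingHom.ker π, IsNilpotent x) ∧
      ∃ e : Fin m → A, CompleteOrthogonalIdempotents e ∧ ∀ i, π (e i) = Pi.single i 1 := by
  classical
  obtain ⟨m, D, d, hD, hd, ⟨E⟩⟩ :=
    IsSemisimpleRing.exists_ringEquiv_pi_matrix_divisionRing (A ⧸ Ring.jacobson A)
  set π : A →+* Π i, Matrix (Fin (d i)) (Fin (d i)) (D i) :=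
    (E : (A ⧸ Ring.jacobson A) →+* _).comp (Ideal.Quotient.mk (Ring.jacobson A)) with hπ
  have hsurj : Function.Surjective π := by
    intro y
    obtain ⟨x, hx⟩ := Ideal.Quotient.mk_surjective (I := Ring.jacobson A) (E.symm y)
    exact ⟨x, by simp [hπ, hx]⟩
  have hker : ∀ x ∈ RingHom.ker π, IsNilpotent x := by
    intro x hx
    have hx1 : x ∈ Ring.jacobson A := by
      rw [RingHom.mem_ker, hπ] at hx
      simp only [RingHom.coe_comp, Function.comp_apply] at hx
      have h2 : (Ideal.Quotient.mk (Ring.jacobson A)) x = 0 := by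
        apply E.injective
        rw [map_zero]
        exact hx
      exact Ideal.Quotient.eq_zero_iff_mem.1 h2
    obtain ⟨k, hk⟩ := IsSemiprimaryRing.isNilpotent (R := A)
    refine ⟨k, ?_⟩
    have h3 : x ^ k ∈ (Ring.jacobson A) ^ k := Ideal.pow_mem_pow hx1 k
    rw [hk] at h3
    simpa using h3
  refine ⟨m, D, d, hD, hd, π, hsurj, hker, ?_⟩
  have hc : CompleteOrthogonalIdempotents
      (fun i => (Pi.single i 1 : Π i, Matrix (Fin (d i)) (Fin (d i)) (D i))) :=
    CompleteOrthogonalIdempotents.single _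
  obtain ⟨e, he, he'⟩ := CompleteOrthogonalIdempotents.lift_of_isNilpotent_ker π hker hc
    (fun i => by
      obtain ⟨x, hx⟩ := hsurj (Pi.single i 1)
      exact ⟨x, hx⟩)
  exact ⟨e, he, fun i => congrFun he' i⟩

section main

variable {A : Type u} [Ring A] {ι : Type*} [Fintype ι] [DecidableEq ι] {e : ι → A}

theorem exists_H (he : CompleteOrthogonalIdempotents e) (J : AddSubgroup A)
    (hJ : ∀ i j x, i ≠ j → e i * x * e j ∈ J) (hnil : ∀ x ∈ J, x * x * x = 0) (v : ℕ → A)
    (f : Poly) : ∃ H : Finset ι → A,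
      (∀ U : Finset ι, ev (fun i => eU e U * v i * eU e U) f = ∑ T ∈ U.powerset, H T) ∧
      ∀ T : Finset ι, 4 ≤ T.card → H T = 0 := by
  induction f using poly_induction with
  | h0 => exact ⟨fun _ => 0, fun U => by simp, fun _ _ => rfl⟩
  | hadd f g hf hg =>
    obtain ⟨H, hH, hH'⟩ := hf
    obtain ⟨G, hG, hG'⟩ := hg
    refine ⟨fun T => H T + G T, fun U => ?_, fun T hT => ?_⟩
    · rw [map_add, hH, hG, Finset.sum_add_distrib]
    · simp only [hH' T hT, hG' T hT, add_zero]
  | hneg f hf =>
    obtain ⟨H, hH, hH'⟩ := hf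
    refine ⟨fun T => - H T, fun U => ?_, fun T hT => ?_⟩
    · rw [map_neg, hH, Finset.sum_neg_distrib]
    · simp only [hH' T hT, neg_zero]
  | hw i l =>
    refine ⟨fun T => hs e ((i :: l).map v) T, fun U => ?_, fun T hT => ?_⟩
    · rw [sum_hs he, ev_pwd]
      rw [foldl_mul_prod (fun i => eU e U * v i * eU e U), List.map_map]
      have : ((fun x => eU e U * x * eU e U) ∘ v) = (fun i => eU e U * v i * eU e U) := rfl
      rw [this]
      have hidem : eU e U * eU e U = eU e U :=
        (he.toOrthogonalIdempotents.isIdempotentElem_sum (s := U)).eq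
      obtain ⟨l', j, hl'⟩ : ∃ l' j, i :: l = l' ++ [j] :=
        ⟨(i :: l).dropLast, (i :: l).getLast (by simp), (List.dropLast_append_getLast _).symm⟩
      rw [hl']
      simp only [List.map_append, List.prod_append, List.map_cons, List.map_nil, List.prod_cons,
        List.prod_nil, mul_one, mul_assoc, hidem]
    · exact hs_eq_zero J he.toOrthogonalIdempotents hJ hnil _ T hT

omit [Fintype ι] in
theorem moebius_zero {F H : Finset ι → A} (hF : ∀ U : Finset ι, F U = ∑ T ∈ U.powerset, H T)
    (hH : ∀ T : Finset ι, 4 ≤ T.card → H T = 0) {U₀ : Finset ι} (hU : 4 ≤ U₀.card)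
    (h0 : ∀ U, U ⊂ U₀ → F U = 0) : F U₀ = 0 := by
  have key : ∀ U : Finset ι, U ⊆ U₀ → H U = 0 := by
    intro U
    induction U using Finset.strongInduction with
    | H U ih =>
      intro hUU
      rcases hUU.eq_or_ssubset with rfl | hss
      · exact hH U hU
      · have h1 := hF U
        rw [h0 U hss, ← Finset.add_sum_erase _ _ (Finset.mem_powerset_self U)] at h1
        rw [Finset.sum_eq_zero, add_zero] at h1
        · exact h1.symm
        · intro T hT
          have hT' : T ⊂ U := by
            rw [Finset.mem_erase, Finset.mem_powerset] at hT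
            exact lt_of_le_of_ne hT.2 hT.1
          exact ih T hT' (hT'.subset.trans hUU)
  rw [hF]
  exact Finset.sum_eq_zero (fun T hT => key T (Finset.mem_powerset.1 hT))

end main

end Pool.Agent.Work.MP_f5ed0a_al
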