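import Pool.Agent.Work.MP_f5ed0a_al.FiniteRing

set_option autoImplicit false

universe u

namespace Pool.Agent.Work.MP_f5ed0a_al

theorem cube_zero_of_nilpotent {A : Type u} [Ring A] {n : ℕ} (hn : 4 ≤ n) {x : A}
    (h : x ^ 3 = x ^ n) (hx : IsNilpotent x) : x ^ 3 = 0 := by
  have key : ∀ k : ℕ, x ^ 3 = x ^ (3 + k * (n - 3)) := by
    intro k
    induction k with
    | zero => simp
    | succ k ih =>
      have e1 : 3 + (k + 1) * (n - 3) = n + k * (n - 3) := by
        rw [Nat.succ_mul]; omega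
      rw [e1, pow_add, ← h, ← pow_add]
      exact ih
  obtain ⟨m, hm⟩ := hx
  rw [key m]
  have : m ≤ 3 + m * (n - 3) := by
    have : m * 1 ≤ m * (n - 3) := Nat.mul_le_mul_left m (by omega)
    omega
  exact pow_eq_zero_of_le this hm

/-- The corner subring. -/
def corner {A : Type u} [Ring A] {R : Type u} [NonUnitalRing R] (φ : R →ₙ+* A) (E : A)
    (hE : E * E = E) : NonUnitalSubring R where
  carrier := {r | E * φ r * E = φ r}
  zero_mem' := by simp
  add_mem' := by
    intro a b ha hb
    simp only [Set.mem_ofPred_eq] at *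
    rw [map_add, mul_add, add_mul, ha, hb]
  neg_mem' := by
    intro a ha
    simp only [Set.mem_ofPred_eq] at *
    rw [map_neg, mul_neg, neg_mul, ha]
  mul_mem' := by
    intro a b ha hb
    simp only [Set.mem_ofPred_eq] at *
    rw [map_mul]
    have h1 : E * φ a = φ a := by
      rw [← ha]; simp only [← mul_assoc, hE]
    have h2 : φ b * E = φ b := by
      rw [← hb]; simp only [mul_assoc, hE]
    rw [← mul_assoc, h1, mul_assoc, h2]

theorem mem_corner {A : Type u} [Ring A] {R : Type u} [NonUnitalRing R] (φ : R →ₙ+* A) (E : A)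
    (hE : E * E = E) (r : R) : r ∈ corner φ E hE ↔ E * φ r * E = φ r := Iff.rfl

theorem finite_ring_aux {n : ℕ} (hn : 4 ≤ n) {A : Type u} [Ring A] [Finite A]
    {R : Type u} [NonUnitalRing R] (φ : R →ₙ+* A) (hφ : Function.Injective φ)
    (hl : ∀ a r, ∃ r', a * φ r = φ r') (hr : ∀ a r, ∃ r', φ r * a = φ r')
    (hnilp : ∀ a : A, IsNilpotent a → ∃ r, a = φ r)
    (hR : ∀ x : R, mpow x 3 = mpow x n) (f : Poly)
    (hf : ¬ Satisfies R f)
    (hmin : ∀ S : NonUnitalSubring R, S ≠ ⊤ → Satisfies S f) :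
    ∃ J : AddSubgroup R, (∀ a, ∀ x ∈ J, a * x ∈ J) ∧ (∀ a, ∀ x ∈ J, x * a ∈ J) ∧
      (∀ x ∈ J, x * x * x = 0) ∧ ∃ E : Fin ((n ^ 9) ^ 3) → R, ∀ r, ∃ i, r - E i ∈ J := by
  classical
  obtain ⟨m, D, d, hD, hd, π, hπs, hker, e, he, hπe⟩ := exists_decomp A
  have hfin : ∀ i, Finite (Matrix (Fin (d i)) (Fin (d i)) (D i)) := by
    intro i
    exact Finite.of_surjective (fun a => π a i) (fun y => by
      obtain ⟨a, ha⟩ := hπs (Pi.single i y)
      exact ⟨a, by simp [ha]⟩)
  -- powers in `A` of elements of `R`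
  have hpow : ∀ r : R, φ r ^ 3 = φ r ^ n := by
    intro r
    rw [← mpow_eq_pow (φ r) (by norm_num : 1 ≤ 3), ← mpow_eq_pow (φ r) (by omega : 1 ≤ n),
      ← map_mpow, ← map_mpow, hR]
  have hcube : ∀ x : A, π x = 0 → x * x * x = 0 := by
    intro x hx
    have h1 := hker x hx
    obtain ⟨r, rfl⟩ := hnilp x h1
    have := cube_zero_of_nilpotent hn (hpow r) h1
    rw [pow_succ, pow_two] at this
    exact this
  set J' : AddSubgroup A := π.toAddMonoidHom.ker with hJ'
  have hJmem : ∀ x, x ∈ J' ↔ π x = 0 := fun x => Iff.rfl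
  have hJ : ∀ i j x, i ≠ j → e i * x * e j ∈ J' := by
    intro i j x hij
    rw [hJmem, map_mul, map_mul, hπe, hπe]
    funext k
    simp only [Pi.mul_apply, Pi.zero_apply]
    by_cases hk : k = i
    · subst hk
      rw [Pi.single_eq_of_ne hij, mul_zero]
    · rw [Pi.single_eq_of_ne hk, zero_mul, zero_mul]
  have hnil : ∀ x ∈ J', x * x * x = 0 := fun x hx => hcube x hx
  have hidem : ∀ U, eU e U * eU e U = eU e U := fun U =>
    (he.toOrthogonalIdempotents.isIdempotentElem_sum (s := U)).eq
  -- choose the vertices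
  obtain ⟨U₀, hU₀mem, hU₀min⟩ := Finset.exists_min_image
    (Finset.univ.filter (fun U : Finset (Fin m) => corner φ (eU e U) (hidem U) = ⊤)) Finset.card
    ⟨Finset.univ, by
      rw [Finset.mem_filter]
      refine ⟨Finset.mem_univ _, ?_⟩
      rw [eq_top_iff]
      intro r _
      rw [mem_corner]
      have : eU e Finset.univ = 1 := he.complete
      rw [this, one_mul, mul_one]⟩
  have hU₀ : corner φ (eU e U₀) (hidem U₀) = ⊤ := (Finset.mem_filter.1 hU₀mem).2
  have hproper : ∀ U, U ⊂ U₀ → corner φ (eU e U) (hidem U) ≠ ⊤ := by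
    intro U hU htop
    have h1 := hU₀min U (Finset.mem_filter.2 ⟨Finset.mem_univ _, htop⟩)
    have h2 := Finset.card_lt_card hU
    omega
  have hcor : ∀ r, eU e U₀ * φ r * eU e U₀ = φ r := by
    intro r
    have : r ∈ corner φ (eU e U₀) (hidem U₀) := by rw [hU₀]; trivial
    exact (mem_corner φ _ _ r).1 this
  obtain ⟨v, hv⟩ : ∃ v : ℕ → R, ev v f ≠ 0 := by
    unfold Satisfies at hf
    push Not at hf
    exact hf
  obtain ⟨H, hH, hH0⟩ := exists_H he J' hJ hnil (fun i => φ (v i)) f
  have hcardU : U₀.card ≤ 3 := by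
    by_contra hcon
    push Not at hcon
    have h0 : ∀ U, U ⊂ U₀ → ev (fun i => eU e U * φ (v i) * eU e U) f = 0 := by
      intro U hU
      have h1 := hmin _ (hproper U hU)
      have h2 : ∀ i, ∃ r, eU e U * φ (v i) * eU e U = φ r := by
        intro i
        obtain ⟨r, hr1⟩ := hl (eU e U) (v i)
        obtain ⟨r', hr2⟩ := hr (eU e U) r
        exact ⟨r', by rw [hr1, hr2]⟩
      choose w hw using h2
      have h3 : ∀ i, w i ∈ corner φ (eU e U) (hidem U) := by
        intro i
        rw [mem_corner, ← hw i]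
        have : eU e U * (eU e U * φ (v i) * eU e U) * eU e U =
          (eU e U * eU e U) * φ (v i) * (eU e U * eU e U) := by noncomm_ring
        rw [this, hidem]
      have h4 := h1 (fun i => ⟨w i, h3 i⟩)
      have h5 := map_ev (NonUnitalSubringClass.subtype (corner φ (eU e U) (hidem U)))
        (fun i => ⟨w i, h3 i⟩) f
      rw [h4, map_zero] at h5
      have h6 := map_ev φ w f
      have h7 : (fun i => φ (w i)) = (fun i => eU e U * φ (v i) * eU e U) := by
        funext i; exact (hw i).symm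
      rw [h7] at h6
      rw [← h6]
      have h8 : ev w f = 0 := by
        rw [eq_comm] at h5
        exact h5
      rw [h8, map_zero]
    have h9 := moebius_zero (F := fun U => ev (fun i => eU e U * φ (v i) * eU e U) f) hH hH0
      hcon h0
    simp only [hcor] at h9
    rw [← map_ev φ v f] at h9
    apply hv
    apply hφ
    rw [h9, map_zero]
  -- the images in the components
  set ψ : R → Π i, Matrix (Fin (d i)) (Fin (d i)) (D i) := fun r => π (φ r) with hψ
  have hψout : ∀ r i, i ∉ U₀ → ψ r i = 0 := by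
    intro r i hi
    have h1 : π (eU e U₀) i = 0 := by
      rw [eU, map_sum, Finset.sum_apply]
      apply Finset.sum_eq_zero
      intro j hj
      rw [hπe]
      apply Pi.single_eq_of_ne
      rintro rfl
      exact hi hj
    have h2 : ψ r i = π (eU e U₀ * φ r * eU e U₀) i := by rw [hcor]
    rw [h2, map_mul, map_mul, Pi.mul_apply, Pi.mul_apply, h1, zero_mul, zero_mul]
  have hcardI : ∀ i, Nat.card (Set.range (fun r => ψ r i)) ≤ n ^ 9 := by
    intro i
    by_cases hz : ∀ r, ψ r i = 0
    · have : Set.range (fun r => ψ r i) = {0} := by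
        ext x
        simp only [Set.mem_range, Set.mem_singleton_iff]
        constructor
        · rintro ⟨r, rfl⟩; exact hz r
        · rintro rfl; exact ⟨0, hz 0⟩
      rw [this]
      simp only [Nat.card_unique]
      exact Nat.one_le_pow _ _ (by omega)
    · push Not at hz
      obtain ⟨r₀, hr₀⟩ := hz
      let I : TwoSidedIdeal (Matrix (Fin (d i)) (Fin (d i)) (D i)) :=
        TwoSidedIdeal.mk' (Set.range (fun r => ψ r i)) ⟨0, by simp [hψ]⟩
          (by
            rintro _ _ ⟨r, rfl⟩ ⟨s, rfl⟩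
            exact ⟨r + s, by simp [hψ]⟩)
          (by
            rintro _ ⟨r, rfl⟩
            exact ⟨-r, by simp [hψ]⟩)
          (by
            rintro x _ ⟨r, rfl⟩
            obtain ⟨a, ha⟩ := hπs (Pi.single i x)
            obtain ⟨r', hr'⟩ := hl a r
            refine ⟨r', ?_⟩
            simp only [hψ]
            rw [← hr', map_mul, ha]
            simp)
          (by
            rintro _ x ⟨r, rfl⟩
            obtain ⟨a, ha⟩ := hπs (Pi.single i x)
            obtain ⟨r', hr'⟩ := hr a r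
            refine ⟨r', ?_⟩
            simp only [hψ]
            rw [← hr', map_mul, ha]
            simp)
      have hI : ∀ x, x ∈ I ↔ x ∈ Set.range (fun r => ψ r i) := fun x => by
        simp only [I]
        exact TwoSidedIdeal.mem_mk' _ _ _ _ _ _ _
      have h1 : (1 : Matrix (Fin (d i)) (Fin (d i)) (D i)) ∈ I :=
        IsSimpleRing.one_mem_of_ne_zero_mem I hr₀ ((hI _).2 ⟨r₀, rfl⟩)
      have h2 : ∀ x : Matrix (Fin (d i)) (Fin (d i)) (D i), ∃ r, ψ r i = x := by
        intro x
        have : x ∈ I := by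
          have := I.mul_mem_left x 1 h1
          rwa [mul_one] at this
        exact (hI x).1 this
      have h3 : ∀ x : Matrix (Fin (d i)) (Fin (d i)) (D i), x ^ 3 = x ^ n := by
        intro x
        obtain ⟨r, rfl⟩ := h2 x
        have h4 := congrArg (fun a => π a i) (hpow r)
        simpa only [map_pow, Pi.pow_apply] using h4
      have h5 := card_matrix_le hn h3
      have h6 : Nat.card (Set.range (fun r => ψ r i)) ≤
          Nat.card (Matrix (Fin (d i)) (Fin (d i)) (D i)) :=
        Nat.card_le_card_of_injective (fun x => x.1) Subtype.val_injective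
      exact h6.trans h5
  have hcardψ : Nat.card (Set.range ψ) ≤ (n ^ 9) ^ 3 := by
    have h1 : Nat.card (Set.range ψ) ≤
        Nat.card (Π i : U₀, Set.range (fun r => ψ r (i : Fin m))) := by
      refine Nat.card_le_card_of_injective
        (fun x i => ⟨x.1 i, by obtain ⟨r, hr⟩ := x.2; exact ⟨r, by simp only [hr]⟩⟩) ?_
      rintro ⟨x, r, rfl⟩ ⟨y, s, rfl⟩ hxy
      apply Subtype.ext
      funext i
      by_cases hi : i ∈ U₀
      · have := congrFun hxy ⟨i, hi⟩
        exact congrArg Subtype.val this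
      · change ψ r i = ψ s i
        rw [hψout r i hi, hψout s i hi]
    rw [Nat.card_pi] at h1
    refine h1.trans ?_
    calc ∏ i : U₀, Nat.card (Set.range (fun r => ψ r (i : Fin m)))
        ≤ ∏ i : U₀, n ^ 9 := Finset.prod_le_prod' (fun i _ => hcardI i)
      _ = (n ^ 9) ^ U₀.card := by simp
      _ ≤ (n ^ 9) ^ 3 := Nat.pow_le_pow_right (Nat.pos_of_ne_zero (by positivity)) hcardU
  have hfinψ : Finite (Set.range ψ) := Subtype.finite
  obtain ⟨E, hE⟩ : ∃ E : Fin ((n ^ 9) ^ 3) → R, ∀ r, ∃ i, ψ (E i) = ψ r := by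
    let eq := Finite.equivFin (Set.range ψ)
    have h0 : ∀ j : Fin ((n ^ 9) ^ 3), ∃ x : R,
        (∃ r, ((eq ⟨ψ r, Set.mem_range_self r⟩ : Fin _) : ℕ) = j) →
        ((eq ⟨ψ x, Set.mem_range_self x⟩ : Fin _) : ℕ) = j := by
      intro j
      by_cases h : ∃ r, ((eq ⟨ψ r, Set.mem_range_self r⟩ : Fin _) : ℕ) = j
      · obtain ⟨r, hr⟩ := h
        exact ⟨r, fun _ => hr⟩
      · exact ⟨0, fun h' => absurd h' h⟩
    choose E hE using h0
    refine ⟨E, fun r => ?_⟩
    let j : Fin ((n ^ 9) ^ 3) := ⟨(eq ⟨ψ r, Set.mem_range_self r⟩ : Fin _),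
      lt_of_lt_of_le (Fin.is_lt _) hcardψ⟩
    refine ⟨j, ?_⟩
    have h1 := hE j ⟨r, rfl⟩
    have h2 := eq.injective (Fin.ext h1)
    exact congrArg Subtype.val h2
  refine ⟨{ carrier := {r | π (φ r) = 0}
            zero_mem' := by simp
            add_mem' := by
              intro a b ha hb
              simp only [Set.mem_ofPred_eq] at *
              rw [map_add, map_add, ha, hb, add_zero]
            neg_mem' := by
              intro a ha
              simp only [Set.mem_ofPred_eq] at *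
              rw [map_neg, map_neg, ha, neg_zero] }, ?_, ?_, ?_, ⟨E, ?_⟩⟩
  · intro a x hx
    change π (φ (a * x)) = 0
    have hx' : π (φ x) = 0 := hx
    rw [map_mul, map_mul, hx', mul_zero]
  · intro a x hx
    change π (φ (x * a)) = 0
    have hx' : π (φ x) = 0 := hx
    rw [map_mul, map_mul, hx', zero_mul]
  · intro x hx
    have hx' : π (φ x) = 0 := hx
    apply hφ
    rw [map_mul, map_mul, map_zero]
    exact hcube _ hx'
  · intro r
    obtain ⟨i, hi⟩ := hE r
    refine ⟨i, ?_⟩
    change π (φ (r - E i)) = 0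
    have h4 : π (φ (E i)) = π (φ r) := hi
    rw [map_sub, map_sub, h4, sub_self]

theorem finite_ring {n : ℕ} (hn : 4 ≤ n) {p : ℕ} [Fact p.Prime] {R : Type u} [NonUnitalRing R]
    [Finite R] (hp : ∀ x : R, p • x = 0) (hR : ∀ x : R, mpow x 3 = mpow x n) (f : Poly)
    (hf : ¬ Satisfies R f)
    (hmin : ∀ S : NonUnitalSubring R, S ≠ ⊤ → Satisfies S f) :
    ∃ J : AddSubgroup R, (∀ a, ∀ x ∈ J, a * x ∈ J) ∧ (∀ a, ∀ x ∈ J, x * a ∈ J) ∧
      (∀ x ∈ J, x * x * x = 0) ∧ ∃ E : Fin ((n ^ 9) ^ 3) → R, ∀ r, ∃ i, r - E i ∈ J := by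
  let _ : Module (ZMod p) R := AddCommGroup.zmodModule hp
  have h1 : IsScalarTower (ZMod p) R R := ⟨fun c x y => by
    obtain ⟨k, rfl⟩ := ZMod.natCast_zmod_surjective c
    simp only [smul_eq_mul, Nat.cast_smul_eq_nsmul, smul_mul_assoc]⟩
  have h2 : SMulCommClass (ZMod p) R R := ⟨fun c x y => by
    obtain ⟨k, rfl⟩ := ZMod.natCast_zmod_surjective c
    simp only [smul_eq_mul, Nat.cast_smul_eq_nsmul, mul_smul_comm]⟩
  have h3 : Finite (Unitization (ZMod p) R) := by
    refine Finite.of_injective (fun x : Unitization (ZMod p) R => (x.fst, x.snd)) ?_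
    intro x y hxy
    simp only [Prod.mk.injEq] at hxy
    exact Unitization.ext hxy.1 hxy.2
  let φ : R →ₙ+* Unitization (ZMod p) R :=
    { toFun := Unitization.inr
      map_zero' := Unitization.inr_zero _
      map_add' := fun x y => Unitization.inr_add _ x y
      map_mul' := fun x y => Unitization.inr_mul _ x y }
  have hinr : ∀ x : R, φ x = Unitization.inr x := fun _ => rfl
  refine finite_ring_aux hn φ Unitization.inr_injective ?_ ?_ ?_ hR f hf hmin
  · intro a r
    refine ⟨(a * φ r).snd, ?_⟩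
    rw [hinr, hinr]
    ext
    · simp
    · simp
  · intro a r
    refine ⟨(φ r * a).snd, ?_⟩
    rw [hinr, hinr]
    ext
    · simp
    · simp
  · intro a ha
    have h4 : IsNilpotent (Unitization.fstHom (ZMod p) R a) := ha.map _
    have h5 : Unitization.fstHom (ZMod p) R a = 0 := h4.eq_zero
    refine ⟨a.snd, ?_⟩
    rw [hinr]
    ext
    · simpa using h5
    · simp

end Pool.Agent.Work.MP_f5ed0a_al
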