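import Pool.Agent.Work.MP_f5ed0a_al.Quot

set_option autoImplicit false

namespace Pool.Agent.Work.MP_f5ed0a_al

section glue

variable {S : Type} [NonUnitalRing S]

/-- Elements acting from the outside. -/
def oo {R : Type} [NonUnitalRing R] (ι : S →ₙ+* R) : Option S → UU R
  | none => 1
  | some s => inrU R (ι s)

theorem oo_none {R : Type} [NonUnitalRing R] (ι : S →ₙ+* R) : oo ι none = 1 := rfl

theorem oo_some {R : Type} [NonUnitalRing R] (ι : S →ₙ+* R) (s : S) :
    oo ι (some s) = inrU R (ι s) := rfl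

/-- Values of the coloured letters. -/
def lt {R : Type} [NonUnitalRing R] (ι : S →ₙ+* R) (y : ℕ → R)
    (x : ℕ × (Option S × Option S)) : UU R :=
  oo ι x.2.1 * inrU R (y x.1) * oo ι x.2.2

/-- Values of the coloured polynomials. -/
noncomputable def EV {R : Type} [NonUnitalRing R] (ι : S →ₙ+* R) (y : ℕ → R) :
    FreeRing (ℕ × (Option S × Option S)) →+* UU R :=
  FreeRing.lift (lt ι y)

theorem EV_of {R : Type} [NonUnitalRing R] (ι : S →ₙ+* R) (y : ℕ → R)
    (x : ℕ × (Option S × Option S)) : EV ι y (FreeRing.of x) = lt ι y x := by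
  rw [EV, FreeRing.lift_of]

theorem EV_map {R : Type} [NonUnitalRing R] (ι : S →ₙ+* R) (y : ℕ → R) (σ : ℕ → ℕ)
    (g : FreeRing (ℕ × (Option S × Option S))) :
    EV ι y (FreeRing.map (mv σ) g) = EV ι (fun i => y (σ i)) g := by
  have : (EV ι y).comp (FreeRing.map (mv σ)) = EV ι (fun i => y (σ i)) := by
    apply FreeRing.hom_ext
    intro x
    rw [RingHom.comp_apply, FreeRing.map_of, EV_of, EV_of]
    rfl
  exact congrArg (fun h => h g) this

/-- The combinations of products of letters. -/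
def Aug (S : Type) : NonUnitalSubring (FreeRing (ℕ × (Option S × Option S))) :=
  NonUnitalSubring.closure (Set.range FreeRing.of)

theorem aug_left (c : S) (g : FreeRing (ℕ × (Option S × Option S))) (hg : g ∈ Aug S) :
    ∃ g' ∈ Aug S, ∀ (R : Type) [NonUnitalRing R] (ι : S →ₙ+* R) (y : ℕ → R),
      inrU R (ι c) * EV ι y g = EV ι y g' := by
  induction hg using NonUnitalSubring.closure_induction with
  | mem x hx =>
    obtain ⟨⟨i, a, b⟩, rfl⟩ := hx
    cases a with
    | none =>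
      refine ⟨FreeRing.of (i, some c, b), NonUnitalSubring.subset_closure ⟨_, rfl⟩, ?_⟩
      intro R _ ι y
      rw [EV_of, EV_of]
      simp only [lt, oo_none, oo_some, one_mul, mul_assoc]
    | some s =>
      refine ⟨FreeRing.of (i, some (c * s), b), NonUnitalSubring.subset_closure ⟨_, rfl⟩, ?_⟩
      intro R _ ι y
      rw [EV_of, EV_of]
      simp only [lt, oo_some, map_mul, mul_assoc]
  | zero => exact ⟨0, zero_mem _, fun R _ ι y => by rw [map_zero, mul_zero]⟩
  | add x y _ _ hx hy =>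
    obtain ⟨x', hx', hx⟩ := hx
    obtain ⟨y', hy', hy⟩ := hy
    exact ⟨x' + y', add_mem hx' hy', fun R _ ι v => by rw [map_add, mul_add, hx, hy, map_add]⟩
  | neg x _ hx =>
    obtain ⟨x', hx', hx⟩ := hx
    exact ⟨-x', neg_mem hx', fun R _ ι v => by rw [map_neg, mul_neg, hx, map_neg]⟩
  | mul x y _ hy hx _ =>
    obtain ⟨x', hx', hx⟩ := hx
    exact ⟨x' * y, mul_mem hx' hy, fun R _ ι v => by rw [map_mul, ← mul_assoc, hx, map_mul]⟩

theorem aug_right (c : S) (g : FreeRing (ℕ × (Option S × Option S))) (hg : g ∈ Aug S) :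
    ∃ g' ∈ Aug S, ∀ (R : Type) [NonUnitalRing R] (ι : S →ₙ+* R) (y : ℕ → R),
      EV ι y g * inrU R (ι c) = EV ι y g' := by
  induction hg using NonUnitalSubring.closure_induction with
  | mem x hx =>
    obtain ⟨⟨i, a, b⟩, rfl⟩ := hx
    cases b with
    | none =>
      refine ⟨FreeRing.of (i, a, some c), NonUnitalSubring.subset_closure ⟨_, rfl⟩, ?_⟩
      intro R _ ι y
      rw [EV_of, EV_of]
      simp only [lt, oo_none, oo_some, mul_one]
    | some s =>
      refine ⟨FreeRing.of (i, a, some (s * c)), NonUnitalSubring.subset_closure ⟨_, rfl⟩, ?_⟩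
      intro R _ ι y
      rw [EV_of, EV_of]
      simp only [lt, oo_some, map_mul, mul_assoc]
  | zero => exact ⟨0, zero_mem _, fun R _ ι y => by rw [map_zero, zero_mul]⟩
  | add x y _ _ hx hy =>
    obtain ⟨x', hx', hx⟩ := hx
    obtain ⟨y', hy', hy⟩ := hy
    exact ⟨x' + y', add_mem hx' hy', fun R _ ι v => by rw [map_add, add_mul, hx, hy, map_add]⟩
  | neg x _ hx =>
    obtain ⟨x', hx', hx⟩ := hx
    exact ⟨-x', neg_mem hx', fun R _ ι v => by rw [map_neg, neg_mul, hx, map_neg]⟩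
  | mul x y hx' _ _ hy =>
    obtain ⟨y', hy', hy⟩ := hy
    exact ⟨x * y', mul_mem hx' hy', fun R _ ι v => by rw [map_mul, mul_assoc, hy, map_mul]⟩

/-- The expansion of a polynomial around elements of `S`. -/
theorem expansion (s : ℕ → S) (f : Poly) :
    ∃ g ∈ Aug S, ∀ (R : Type) [NonUnitalRing R] (ι : S →ₙ+* R) (y : ℕ → R),
      inrU R (ev (fun i => ι (s i) + y i) f) = inrU R (ι (ev s f)) + EV ι y g := by
  induction f using poly_induction' with
  | h0 => exact ⟨0, zero_mem _, fun R _ ι y => by simp⟩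
  | hadd f f' hf hf' =>
    obtain ⟨g, hg, h⟩ := hf
    obtain ⟨g', hg', h'⟩ := hf'
    refine ⟨g + g', add_mem hg hg', fun R _ ι y => ?_⟩
    rw [map_add, map_add, h, h', map_add, map_add, map_add, map_add]
    abel
  | hneg f hf =>
    obtain ⟨g, hg, h⟩ := hf
    refine ⟨-g, neg_mem hg, fun R _ ι y => ?_⟩
    rw [map_neg, map_neg, h, map_neg, map_neg, map_neg, map_neg]
    abel
  | hmul f f' hf hf' =>
    obtain ⟨g, hg, h⟩ := hf
    obtain ⟨g', hg', h'⟩ := hf'
    obtain ⟨g₁, hg₁, h₁⟩ := aug_left (ev s f) g' hg'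
    obtain ⟨g₂, hg₂, h₂⟩ := aug_right (ev s f') g hg
    refine ⟨g₁ + g₂ + g * g', add_mem (add_mem hg₁ hg₂) (mul_mem hg hg'), fun R _ ι y => ?_⟩
    rw [map_mul, map_mul, h, h', map_mul, map_mul, map_mul, map_add, map_add, map_mul, ← h₁, ← h₂]
    noncomm_ring
  | hX i =>
    refine ⟨FreeRing.of (i, none, none), NonUnitalSubring.subset_closure ⟨_, rfl⟩,
      fun R _ ι y => ?_⟩
    rw [ev_X, ev_X, EV_of, map_add]
    simp only [lt, oo_none, one_mul, mul_one]

/-- Elements that vanish modulo `p`. -/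
def Null (p : ℕ) {R : Type} [NonUnitalRing R] (z : UU R) : Prop :=
  z.snd = 0 ∧ (p : ℤ) ∣ z.fst

theorem Null.add {p : ℕ} {R : Type} [NonUnitalRing R] {z w : UU R} (hz : Null p z)
    (hw : Null p w) : Null p (z + w) := by
  refine ⟨?_, ?_⟩
  · rw [UU.snd_add, hz.1, hw.1, add_zero]
  · rw [UU.fst_add]; exact dvd_add hz.2 hw.2

theorem Null.neg {p : ℕ} {R : Type} [NonUnitalRing R] {z : UU R} (hz : Null p z) :
    Null p (-z) := by
  refine ⟨?_, ?_⟩
  · rw [UU.snd_neg, hz.1, neg_zero]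
  · rw [UU.fst_neg]; exact hz.2.neg_right

theorem Null.zero {p : ℕ} {R : Type} [NonUnitalRing R] : Null p (0 : UU R) :=
  ⟨rfl, dvd_zero _⟩

theorem smul_of_dvd {p : ℕ} {R : Type} [NonUnitalRing R] (hp : ∀ x : R, p • x = 0) {m : ℤ}
    (hm : (p : ℤ) ∣ m) (x : R) : m • x = 0 := by
  obtain ⟨k, rfl⟩ := hm
  rw [mul_comm, mul_smul, natCast_zsmul, hp, smul_zero]

theorem Null.mul_left {p : ℕ} {R : Type} [NonUnitalRing R] (hp : ∀ x : R, p • x = 0)
    (a : UU R) {z : UU R} (hz : Null p z) : Null p (a * z) := by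
  refine ⟨?_, ?_⟩
  · rw [UU.snd_mul, hz.1, mul_zero, smul_zero, smul_of_dvd hp hz.2]
    simp
  · rw [UU.fst_mul]; exact hz.2.mul_left _

theorem Null.mul_right {p : ℕ} {R : Type} [NonUnitalRing R] (hp : ∀ x : R, p • x = 0)
    (a : UU R) {z : UU R} (hz : Null p z) : Null p (z * a) := by
  refine ⟨?_, ?_⟩
  · rw [UU.snd_mul, hz.1, zero_mul, smul_zero, smul_of_dvd hp hz.2]
    simp
  · rw [UU.fst_mul]; exact hz.2.mul_right _

/-- The admissible data. -/
structure Good (N : AddSubgroup Poly) (R : Type) [NonUnitalRing R] (y : ℕ → R) : Prop where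
  sat : ∀ g ∈ N, Satisfies R g
  ideal : ∃ J : AddSubgroup R, (∀ a, ∀ x ∈ J, a * x ∈ J) ∧ (∀ a, ∀ x ∈ J, x * a ∈ J) ∧
    (∀ x ∈ J, x * x * x = 0) ∧ ∀ i, y i ∈ J

/-- The coloured identities. -/
def MM (S : Type) [NonUnitalRing S] (p : ℕ) (N : AddSubgroup Poly) :
    AddSubgroup (FreeRing (ℕ × (Option S × Option S))) where
  carrier := {g | ∀ (R : Type) [NonUnitalRing R] (ι : S →ₙ+* R) (y : ℕ → R), Good N R y →
    Null p (EV ι y g)}
  zero_mem' := by
    intro R _ ι y _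
    rw [map_zero]; exact Null.zero
  add_mem' := by
    intro a b ha hb R _ ι y h
    rw [map_add]; exact (ha R ι y h).add (hb R ι y h)
  neg_mem' := by
    intro a ha R _ ι y h
    rw [map_neg]; exact (ha R ι y h).neg

theorem mem_MM {p : ℕ} {N : AddSubgroup Poly} {g : FreeRing (ℕ × (Option S × Option S))} :
    g ∈ MM S p N ↔ ∀ (R : Type) [NonUnitalRing R] (ι : S →ₙ+* R) (y : ℕ → R), Good N R y →
    Null p (EV ι y g) := Iff.rfl

theorem MM_left {p : ℕ} {N : AddSubgroup Poly} (hpN : ∀ f : Poly, p • f ∈ N)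
    (a : FreeRing (ℕ × (Option S × Option S))) : ∀ g ∈ MM S p N, a * g ∈ MM S p N := by
  intro g hg R _ ι y h
  rw [map_mul]
  exact (hg R ι y h).mul_left (torsion_of_satisfies hpN h.sat) _

theorem MM_right {p : ℕ} {N : AddSubgroup Poly} (hpN : ∀ f : Poly, p • f ∈ N)
    (a : FreeRing (ℕ × (Option S × Option S))) : ∀ g ∈ MM S p N, g * a ∈ MM S p N := by
  intro g hg R _ ι y h
  rw [map_mul]
  exact (hg R ι y h).mul_right (torsion_of_satisfies hpN h.sat) _

theorem MM_map {p : ℕ} {N : AddSubgroup Poly} (σ : ℕ → ℕ) :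
    ∀ g ∈ MM S p N, FreeRing.map (mv σ) g ∈ MM S p N := by
  intro g hg R _ ι y h
  rw [EV_map]
  refine hg R ι _ ⟨h.sat, ?_⟩
  obtain ⟨J, h1, h2, h3, h4⟩ := h.ideal
  exact ⟨J, h1, h2, h3, fun i => h4 _⟩

theorem MM_mono {p : ℕ} {N N' : AddSubgroup Poly} (h : N ≤ N') : MM S p N ≤ MM S p N' := by
  intro g hg R _ ι y hG
  exact hg R ι y ⟨fun g hg => hG.sat g (h hg), hG.ideal⟩

/-- Values of augmented polynomials. -/
theorem EV_aug {R : Type} [NonUnitalRing R] (ι : S →ₙ+* R) (y : ℕ → R) (J : AddSubgroup R)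
    (hl : ∀ a, ∀ x ∈ J, a * x ∈ J) (hr : ∀ a, ∀ x ∈ J, x * a ∈ J) (hy : ∀ i, y i ∈ J)
    (g : FreeRing (ℕ × (Option S × Option S))) (hg : g ∈ Aug S) :
    ∃ x ∈ J, EV ι y g = inrU R x := by
  induction hg using NonUnitalSubring.closure_induction with
  | mem x hx =>
    obtain ⟨⟨i, a, b⟩, rfl⟩ := hx
    rw [EV_of]
    cases a with
    | none =>
      cases b with
      | none => exact ⟨y i, hy i, by simp [lt, oo]⟩
      | some t => exact ⟨y i * ι t, hr _ _ (hy i), by simp [lt, oo]⟩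
    | some s =>
      cases b with
      | none => exact ⟨ι s * y i, hl _ _ (hy i), by simp [lt, oo]⟩
      | some t => exact ⟨ι s * y i * ι t, hr _ _ (hl _ _ (hy i)), by simp [lt, oo]⟩
  | zero => exact ⟨0, zero_mem _, by simp⟩
  | add x y _ _ hx hy =>
    obtain ⟨x', hx', hx⟩ := hx
    obtain ⟨y', hy', hy⟩ := hy
    exact ⟨x' + y', add_mem hx' hy', by rw [map_add, hx, hy, map_add]⟩
  | neg x _ hx =>
    obtain ⟨x', hx', hx⟩ := hx
    exact ⟨-x', neg_mem hx', by rw [map_neg, hx, map_neg]⟩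
  | mul x y _ _ hx hy =>
    obtain ⟨x', hx', hx⟩ := hx
    obtain ⟨y', hy', hy⟩ := hy
    exact ⟨x' * y', hl _ _ hy', by rw [map_mul, hx, hy, map_mul]⟩

end glue

end Pool.Agent.Work.MP_f5ed0a_al
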