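import Pool.Agent.Work.MP_f5ed0a_al.Words

set_option autoImplicit false

namespace Pool.Agent.Work.MP_f5ed0a_al

variable {Δ : Type*}

/-- Higman's lemma for a finite alphabet, together with a finite invariant. -/
theorem higman [Finite Δ] {κ : Type*} [Finite κ] (inv : List Δ → κ) (w : ℕ → List Δ) :
    ∃ i j, i < j ∧ (w i).Sublist (w j) ∧ inv (w i) = inv (w j) := by
  classical
  have h0 : (Set.univ : Set Δ).PartiallyWellOrderedOn (· = ·) :=
    Set.Finite.partiallyWellOrderedOn (Set.finite_univ)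
  have h1 := Set.PartiallyWellOrderedOn.partiallyWellOrderedOn_sublistForall₂ (· = ·) h0
  have : IsPreorder (List Δ) (List.SublistForall₂ (fun x1 x2 : Δ => x1 = x2)) :=
    { refl := fun a => (List.Sublist.refl a).sublistForall₂
      trans := fun a b c hab hbc => _root_.trans hab hbc }
  obtain ⟨g, hg⟩ := Set.PartiallyWellOrderedOn.exists_monotone_subseq h1
    (f := fun n => w n) (fun n => by simp)
  obtain ⟨i, j, hij, he⟩ := Finite.exists_ne_map_eq_of_infinite (fun n => inv (w (g n)))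
  have key : ∀ i j : ℕ, i < j → inv (w (g i)) = inv (w (g j)) →
      ∃ i j, i < j ∧ (w i).Sublist (w j) ∧ inv (w i) = inv (w j) := by
    intro i j hij he
    refine ⟨g i, g j, g.strictMono hij, ?_, he⟩
    have h2 := hg i j hij.le
    rw [List.sublistForall₂_iff] at h2
    obtain ⟨l, hl1, hl2⟩ := h2
    rw [List.forall₂_eq_eq_eq] at hl1
    rw [hl1]
    exact hl2
  rcases lt_or_gt_of_ne hij with h | h
  · exact key i j h he
  · exact key j i h he.symm

section main

variable [Zero Δ] (c : Coding Δ)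
variable {A : Type*} [AddCommGroup A]

/-- The span of the words of rank less than `u` and of `Y`. -/
def Lower (V : Set (List Δ)) (b : List Δ → A) (Y : AddSubgroup A) (u : ℕ) : AddSubgroup A :=
  AddSubgroup.closure {x | ∃ w ∈ V, rank c w < u ∧ x = b w} ⊔ Y

theorem Lower_mono (V : Set (List Δ)) (b : List Δ → A) (Y : AddSubgroup A) {u v : ℕ}
    (h : u ≤ v) : Lower c V b Y u ≤ Lower c V b Y v := by
  refine sup_le_sup_right (AddSubgroup.closure_mono ?_) _
  rintro x ⟨w, hw, hr, rfl⟩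
  exact ⟨w, hw, lt_of_lt_of_le hr h, rfl⟩

theorem Lower_zero (V : Set (List Δ)) (b : List Δ → A) (Y : AddSubgroup A) :
    Lower c V b Y 0 = Y := by
  simp [Lower]

theorem mem_Lower {V : Set (List Δ)} {b : List Δ → A} {Y : AddSubgroup A} {u : ℕ} {w : List Δ}
    (hw : w ∈ V) (h : rank c w < u) : b w ∈ Lower c V b Y u :=
  AddSubgroup.mem_sup_left (AddSubgroup.subset_closure ⟨w, hw, h, rfl⟩)

theorem le_Lower (V : Set (List Δ)) (b : List Δ → A) (Y : AddSubgroup A) (u : ℕ) :
    Y ≤ Lower c V b Y u := le_sup_right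

theorem exists_Lower {V : Set (List Δ)} {b : List Δ → A} {Y : AddSubgroup A} {x : A}
    (hx : x ∈ AddSubgroup.closure (b '' V) ⊔ Y) : ∃ u, x ∈ Lower c V b Y u := by
  rw [AddSubgroup.mem_sup] at hx
  obtain ⟨y, hy, z, hz, rfl⟩ := hx
  suffices h : ∃ u, y ∈ Lower c V b Y u by
    obtain ⟨u, hu⟩ := h
    exact ⟨u, add_mem hu (le_Lower c V b Y u hz)⟩
  induction hy using AddSubgroup.closure_induction with
  | mem x hx =>
    obtain ⟨w, hw, rfl⟩ := hx
    exact ⟨rank c w + 1, mem_Lower c hw (Nat.lt_succ_self _)⟩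
  | zero => exact ⟨0, zero_mem _⟩
  | add x y _ _ hx hy =>
    obtain ⟨u, hu⟩ := hx
    obtain ⟨v, hv⟩ := hy
    exact ⟨max u v, add_mem (Lower_mono c V b Y (le_max_left _ _) hu)
      (Lower_mono c V b Y (le_max_right _ _) hv)⟩
  | neg x _ hx =>
    obtain ⟨u, hu⟩ := hx
    exact ⟨u, neg_mem hu⟩

/-- The set of leading words. -/
def Lead (V : Set (List Δ)) (b : List Δ → A) (Y N : AddSubgroup A) : Set (List Δ) :=
  {w | w ∈ V ∧ b w ∈ N ⊔ Lower c V b Y (rank c w)}

theorem Lead_mono {V : Set (List Δ)} {b : List Δ → A} {Y N N' : AddSubgroup A} (h : N ≤ N') :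
    Lead c V b Y N ⊆ Lead c V b Y N' := fun _ hw =>
  ⟨hw.1, (sup_le_sup_right h _) hw.2⟩

/-- The relative Groebner-Higman noetherianity lemma. -/
theorem groebner {p : ℕ} [Fact p.Prime] (hp : ∀ x : A, p • x = 0) [Finite Δ]
    (V : Set (List Δ)) (b : List Δ → A)
    (hb : ∀ w ∈ V, ∀ w' ∈ V, rank c w = rank c w' → b w = b w')
    (X Y : AddSubgroup A)
    (hX : X ≤ AddSubgroup.closure (b '' V) ⊔ Y)
    (P : Set (List (Option Δ)))
    (hPV : ∀ ρ ∈ P, ∀ w ∈ V, fill ρ w ∈ V)
    (lam : List (Option Δ) → A →+ A)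
    (hY : ∀ ρ ∈ P, ∀ y ∈ Y, lam ρ y ∈ Y)
    (hlam : ∀ ρ ∈ P, ∀ w ∈ V, lam ρ (b w) - b (fill ρ w) ∈ Y ∨ lam ρ (b w) + b (fill ρ w) ∈ Y)
    {κ : Type*} [Finite κ] (inv : List Δ → κ)
    (hP : ∀ u ∈ V, ∀ v ∈ V, u.Sublist v → inv u = inv v → ∃ ρ ∈ P, fill ρ u = v)
    (N : ℕ → AddSubgroup A) (hN : Monotone N)
    (hInv : ∀ k, ∀ ρ ∈ P, ∀ x ∈ N k, lam ρ x ∈ N k)
    (hstab : ∃ K, ∀ k, K ≤ k → N k ⊓ Y ≤ N K) :
    ∃ K, ∀ k, K ≤ k → N k ⊓ X ≤ N K := by
  classical
  -- images of lower spans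
  have hLower : ∀ ρ ∈ P, ∀ u : List Δ, ∀ x ∈ Lower c V b Y (rank c u),
      lam ρ x ∈ Lower c V b Y (rank c (fill ρ u)) := by
    intro ρ hρ u x hx
    rw [Lower, AddSubgroup.mem_sup] at hx
    obtain ⟨y, hy, z, hz, rfl⟩ := hx
    rw [map_add]
    refine add_mem ?_ (le_Lower c V b Y _ (hY ρ hρ z hz))
    induction hy using AddSubgroup.closure_induction with
    | mem x hx =>
      obtain ⟨w, hw, hr, rfl⟩ := hx
      have h1 : b (fill ρ w) ∈ Lower c V b Y (rank c (fill ρ u)) :=
        mem_Lower c (hPV ρ hρ w hw) ((rank_fill c ρ w u).1 hr)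
      rcases hlam ρ hρ w hw with h | h
      · have := add_mem (le_Lower c V b Y (rank c (fill ρ u)) h) h1
        simpa using this
      · have := sub_mem (le_Lower c V b Y (rank c (fill ρ u)) h) h1
        simpa using this
    | zero => simp
    | add x y _ _ hx hy => rw [map_add]; exact add_mem hx hy
    | neg x _ hx => rw [map_neg]; exact neg_mem hx
  -- leading words are upward closed
  have hup : ∀ k, ∀ ρ ∈ P, ∀ u ∈ Lead c V b Y (N k), fill ρ u ∈ Lead c V b Y (N k) := by
    rintro k ρ hρ u ⟨huV, hu⟩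
    refine ⟨hPV ρ hρ u huV, ?_⟩
    rw [AddSubgroup.mem_sup] at hu
    obtain ⟨n, hn, x, hx, hnx⟩ := hu
    have h1 : lam ρ (b u) ∈ N k ⊔ Lower c V b Y (rank c (fill ρ u)) := by
      rw [← hnx, map_add]
      exact add_mem (AddSubgroup.mem_sup_left (hInv k ρ hρ n hn))
        (AddSubgroup.mem_sup_right (hLower ρ hρ u x hx))
    have h3 : Y ≤ N k ⊔ Lower c V b Y (rank c (fill ρ u)) :=
      (le_Lower c V b Y _).trans le_sup_right
    rcases hlam ρ hρ u huV with h | h
    · have := sub_mem h1 (h3 h)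
      simpa using this
    · have := sub_mem (h3 h) h1
      simpa using this
  -- the leading sets stabilise
  have hlead : ∃ K, ∀ k, K ≤ k → Lead c V b Y (N k) ⊆ Lead c V b Y (N K) := by
    by_contra hcon
    push Not at hcon
    have hcon' : ∀ K, ∃ k, K ≤ k ∧ ∃ w, w ∈ Lead c V b Y (N k) ∧ w ∉ Lead c V b Y (N K) := by
      intro K
      obtain ⟨k, hk, h⟩ := hcon K
      rw [Set.not_subset] at h
      obtain ⟨w, hw1, hw2⟩ := h
      exact ⟨k, hk, w, hw1, hw2⟩
    choose nxt hnxt wit hwit1 hwit2 using hcon'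
    let g : ℕ → ℕ := fun i => Nat.rec 0 (fun _ m => nxt m) i
    have hg : ∀ i, g (i + 1) = nxt (g i) := fun i => rfl
    have hgm : Monotone g := monotone_nat_of_le_succ (fun i => by rw [hg]; exact hnxt _)
    obtain ⟨i, j, hij, hs, he⟩ := higman inv (fun i => wit (g i))
    have hi1 : wit (g i) ∈ Lead c V b Y (N (g (i + 1))) := by rw [hg]; exact hwit1 _
    have hj1 : wit (g j) ∈ Lead c V b Y (N (g (j + 1))) := by rw [hg]; exact hwit1 _
    obtain ⟨ρ, hρ, hf⟩ := hP _ hi1.1 _ hj1.1 hs he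
    have h2 := hup _ ρ hρ _ (Lead_mono c (hN (hgm (show i + 1 ≤ j from hij))) hi1)
    rw [hf] at h2
    exact hwit2 _ h2
  obtain ⟨K1, hK1⟩ := hstab
  obtain ⟨K2, hK2⟩ := hlead
  refine ⟨max K1 K2, ?_⟩
  intro k hk f hf
  have hf1 : f ∈ N k := hf.1
  obtain ⟨u, hu⟩ := exists_Lower c (hX hf.2)
  clear hf
  have hKk : N (max K1 K2) ≤ N k := hN hk
  induction u generalizing f with
  | zero =>
    rw [Lower_zero] at hu
    exact hN (le_max_left _ _) (hK1 k ((le_max_left _ _).trans hk) ⟨hf1, hu⟩)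
  | succ u ih =>
    by_cases hex : ∃ w ∈ V, rank c w = u
    · obtain ⟨w0, hw0, hr0⟩ := hex
      have hsplit : ∃ (m : ℤ) (g : A), g ∈ Lower c V b Y u ∧ f = m • b w0 + g := by
        rw [Lower, AddSubgroup.mem_sup] at hu
        obtain ⟨y, hy, z, hz, rfl⟩ := hu
        suffices h : ∃ (m : ℤ) (g : A), g ∈ Lower c V b Y u ∧ y = m • b w0 + g by
          obtain ⟨m, g, hg, rfl⟩ := h
          exact ⟨m, g + z, add_mem hg (le_Lower c V b Y u hz), by rw [add_assoc]⟩
        clear hf1
        induction hy using AddSubgroup.closure_induction with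
        | mem x hx =>
          obtain ⟨w, hw, hr, rfl⟩ := hx
          by_cases hwu : rank c w < u
          · exact ⟨0, b w, mem_Lower c hw hwu, by simp⟩
          · have : rank c w = u := by omega
            refine ⟨1, 0, zero_mem _, ?_⟩
            rw [hb w hw w0 hw0 (by rw [this, hr0])]
            simp
        | zero => exact ⟨0, 0, zero_mem _, by simp⟩
        | add x y _ _ hx hy =>
          obtain ⟨m, g, hg, rfl⟩ := hx
          obtain ⟨m', g', hg', rfl⟩ := hy
          exact ⟨m + m', g + g', add_mem hg hg', by rw [add_smul]; abel⟩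
        | neg x _ hx =>
          obtain ⟨m, g, hg, rfl⟩ := hx
          exact ⟨-m, -g, neg_mem hg, by rw [neg_smul]; abel⟩
      obtain ⟨m, g, hg, hfm⟩ := hsplit
      by_cases hpm : (p : ℤ) ∣ m
      · obtain ⟨m', rfl⟩ := hpm
        have h0 : ((p : ℤ) * m') • b w0 = 0 := by
          rw [mul_comm, mul_smul, natCast_zsmul, hp, smul_zero]
        rw [h0, zero_add] at hfm
        exact ih hf1 (hfm ▸ hg)
      · have hcop : IsCoprime m (p : ℤ) := by
          rw [isCoprime_comm]
          have hpp : Prime (p : ℤ) := Nat.prime_iff_prime_int.1 (Fact.out : p.Prime)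
          exact (Prime.coprime_iff_not_dvd hpp).2 hpm
        obtain ⟨a, a', ha⟩ := hcop
        have hbw : b w0 = a • f - a • g := by
          have h1 : (a * m + a' * (p : ℤ)) • b w0 = b w0 := by rw [ha, one_smul]
          rw [add_smul, mul_smul, mul_smul, natCast_zsmul, hp, smul_zero, add_zero] at h1
          rw [hfm, smul_add, add_sub_cancel_right, h1]
        have hwl : w0 ∈ Lead c V b Y (N k) := by
          refine ⟨hw0, ?_⟩
          rw [hr0, hbw]
          exact sub_mem (AddSubgroup.mem_sup_left (zsmul_mem hf1 a))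
            (AddSubgroup.mem_sup_right (zsmul_mem hg a))
        have hwl2 := hK2 k ((le_max_right _ _).trans hk) hwl
        obtain ⟨_, hw3⟩ := hwl2
        rw [AddSubgroup.mem_sup] at hw3
        obtain ⟨n, hn, x, hx, hnx⟩ := hw3
        rw [hr0] at hx
        have hn' : n ∈ N (max K1 K2) := hN (le_max_right _ _) hn
        have h5 : f - m • n ∈ N (max K1 K2) := by
          apply ih
          · exact sub_mem hf1 (zsmul_mem (hKk hn') m)
          · have : f - m • n = m • x + g := by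
              rw [hfm, ← hnx, smul_add]; abel
            rw [this]
            exact add_mem (zsmul_mem hx m) hg
        have := add_mem h5 (zsmul_mem hn' m)
        simpa using this
    · apply ih hf1
      have heq : {x | ∃ w ∈ V, rank c w < u + 1 ∧ x = b w} ⊆ {x | ∃ w ∈ V, rank c w < u ∧ x = b w} := by
        rintro x ⟨w, hw, hr, rfl⟩
        refine ⟨w, hw, ?_, rfl⟩
        have : rank c w ≠ u := fun h => hex ⟨w, hw, h⟩
        omega
      exact (sup_le_sup_right (AddSubgroup.closure_mono heq) _) hu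

end main

end Pool.Agent.Work.MP_f5ed0a_al
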