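import Pool.Agent.Work.MP_f5ed0a_al.Groebner

set_option autoImplicit false

namespace Pool.Agent.Work.MP_f5ed0a_al

/-- Products of elements of two closures. -/
theorem closure_mul_mem {A : Type*} [Ring A] {s t : Set A} {H : AddSubgroup A}
    (h : ∀ x ∈ s, ∀ y ∈ t, x * y ∈ H) {x y : A} (hx : x ∈ AddSubgroup.closure s)
    (hy : y ∈ AddSubgroup.closure t) : x * y ∈ H := by
  induction hx using AddSubgroup.closure_induction with
  | mem x hx =>
    induction hy using AddSubgroup.closure_induction with
    | mem y hy => exact h x hx y hy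
    | zero => simp
    | add y z _ _ hy hz => rw [mul_add]; exact add_mem hy hz
    | neg y _ hy => rw [mul_neg]; exact neg_mem hy
  | zero => simp
  | add x z _ _ hx hz => rw [add_mul]; exact add_mem hx hz
  | neg x _ hx => rw [neg_mul]; exact neg_mem hx

/-- A ring of characteristic `p` generated by coloured letters, with substitutions of the
variables, in which the nonunital ring generated by the letters is nil of index three. -/
structure Sys (p : ℕ) (B : Type*) (A : Type*) [Ring A] where
  z : ℕ × B → A
  sub : (ℕ → ℕ) → A →+* A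
  sub_z : ∀ σ x, sub σ (z x) = z (mv σ x)
  gen : Subring.closure (Set.range z) = ⊤
  char : ∀ a : A, p • a = 0
  nil : ∀ x ∈ NonUnitalSubring.closure (Set.range z), x * x * x = 0

namespace Sys

variable {p : ℕ} {B : Type*} {A : Type*} [Ring A] (S : Sys p B A)

/-- Invariant ideals. -/
structure Inv (N : AddSubgroup A) : Prop where
  left : ∀ a, ∀ x ∈ N, a * x ∈ N
  right : ∀ a, ∀ x ∈ N, x * a ∈ N
  sub : ∀ σ, ∀ x ∈ N, S.sub σ x ∈ N

/-- Relative ascending chain condition. -/
def Acc (X Y : AddSubgroup A) : Prop :=
  ∀ N : ℕ → AddSubgroup A, Monotone N → (∀ k, S.Inv (N k)) →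
    (∃ K, ∀ k, K ≤ k → N k ⊓ Y ≤ N K) → ∃ K, ∀ k, K ≤ k → N k ⊓ X ≤ N K

/-- The product of the letters of a list. -/
def w (l : List (ℕ × B)) : A := (l.map S.z).prod

@[simp] theorem w_nil : S.w [] = 1 := rfl

@[simp] theorem w_cons (x : ℕ × B) (l : List (ℕ × B)) : S.w (x :: l) = S.z x * S.w l := by
  simp [w]

@[simp] theorem w_append (l l' : List (ℕ × B)) : S.w (l ++ l') = S.w l * S.w l' := by
  simp [w]

theorem sub_w (σ : ℕ → ℕ) (l : List (ℕ × B)) : S.sub σ (S.w l) = S.w (l.map (mv σ)) := by
  induction l with
  | nil => simp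
  | cons x l ih => simp [ih, S.sub_z]

theorem z_cube (x : ℕ × B) : S.z x * S.z x * S.z x = 0 :=
  S.nil _ (NonUnitalSubring.subset_closure ⟨x, rfl⟩)

theorem w_mem_closure {l : List (ℕ × B)} (hl : l ≠ []) :
    S.w l ∈ NonUnitalSubring.closure (Set.range S.z) := by
  induction l with
  | nil => exact absurd rfl hl
  | cons x l ih =>
    cases l with
    | nil => simpa using NonUnitalSubring.subset_closure (Set.mem_range_self x)
    | cons y l =>
      rw [w_cons]
      exact mul_mem (NonUnitalSubring.subset_closure (Set.mem_range_self x)) (ih (by simp))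

/-- The ring is additively spanned by words. -/
theorem mem_closure_words (a : A) : a ∈ AddSubgroup.closure (Set.range S.w) := by
  have ha : a ∈ Subring.closure (Set.range S.z) := by rw [S.gen]; trivial
  induction ha using Subring.closure_induction with
  | mem x hx =>
    obtain ⟨y, rfl⟩ := hx
    exact AddSubgroup.subset_closure ⟨[y], by simp⟩
  | zero => exact zero_mem _
  | one => exact AddSubgroup.subset_closure ⟨[], by simp⟩
  | add x y _ _ hx hy => exact add_mem hx hy
  | neg x _ hx => exact neg_mem hx
  | mul x y _ _ hx hy =>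
    refine closure_mul_mem ?_ hx hy
    rintro _ ⟨l, rfl⟩ _ ⟨l', rfl⟩
    exact AddSubgroup.subset_closure ⟨l ++ l', by simp⟩

/-- Two lists of letters equal up to order act in the same way from the left. -/
theorem perm_left {X Y : AddSubgroup A} (hX : S.Inv X) (hY : S.Inv Y)
    (hL : ∀ x y, ∀ m ∈ X, (S.z x * S.z y - S.z y * S.z x) * m ∈ Y)
    {l l' : List (ℕ × B)} (h : l.Perm l') : ∀ m ∈ X, S.w l * m - S.w l' * m ∈ Y := by
  induction h with
  | nil => intro m _; simp
  | cons x _ ih =>
    intro m hm
    have := hY.left (S.z x) _ (ih m hm)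
    simpa [mul_sub, mul_assoc] using this
  | swap x y l =>
    intro m hm
    have := hL y x (S.w l * m) (hX.left _ _ hm)
    simp only [w_cons]
    convert this using 1
    noncomm_ring
  | trans _ _ ih1 ih2 =>
    intro m hm
    have := add_mem (ih1 m hm) (ih2 m hm)
    simpa using this

/-- Two lists of letters equal up to order act in the same way from the right. -/
theorem perm_right {X Y : AddSubgroup A} (hX : S.Inv X) (hY : S.Inv Y)
    (hR : ∀ x y, ∀ m ∈ X, m * (S.z x * S.z y - S.z y * S.z x) ∈ Y)
    {l l' : List (ℕ × B)} (h : l.Perm l') : ∀ m ∈ X, m * S.w l - m * S.w l' ∈ Y := by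
  induction h with
  | nil => intro m _; simp
  | cons x _ ih =>
    intro m hm
    have := ih (m * S.z x) (hX.right _ _ hm)
    simpa [mul_assoc] using this
  | swap x y l =>
    intro m hm
    have := hY.right (S.w l) _ (hR y x m hm)
    simp only [w_cons]
    convert this using 1
    noncomm_ring
  | trans _ _ ih1 ih2 =>
    intro m hm
    have := add_mem (ih1 m hm) (ih2 m hm)
    simpa using this

theorem perm_both {X Y : AddSubgroup A} (hX : S.Inv X) (hY : S.Inv Y)
    (hL : ∀ x y, ∀ m ∈ X, (S.z x * S.z y - S.z y * S.z x) * m ∈ Y)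
    (hR : ∀ x y, ∀ m ∈ X, m * (S.z x * S.z y - S.z y * S.z x) ∈ Y)
    {l l' k k' : List (ℕ × B)} (h : l.Perm l') (h' : k.Perm k') {m : A} (hm : m ∈ X) :
    S.w l * m * S.w k - S.w l' * m * S.w k' ∈ Y := by
  have h1 := S.perm_right hX hY hR h' (S.w l * m) (hX.left _ _ hm)
  have h2 := hY.right (S.w k') _ (S.perm_left hX hY hL h m hm)
  have := add_mem h1 h2
  convert this using 1
  noncomm_ring

end Sys

/-- Decorations of a variable in the bimodule case: left exponents, right exponents, marks. -/
def Deco (B : Type*) (t : ℕ) : Type _ := (B → Fin 3) × (B → Fin 3) × (Fin t → Option B)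

namespace Deco

variable {B : Type*} {t : ℕ}

instance : Zero (Deco B t) := ⟨(0, 0, fun _ => none)⟩

instance [Finite B] : Finite (Deco B t) := by
  unfold Deco
  infer_instance

theorem zero_def : (0 : Deco B t) = (0, 0, fun _ => none) := rfl

end Deco

/-- The list in which each colour `b` is repeated `f b` times. -/
noncomputable def expList {B : Type*} [Fintype B] (f : B → Fin 3) : List B :=
  (Finset.univ : Finset B).toList.flatMap (fun b => List.replicate (f b).val b)

theorem expList_zero {B : Type*} [Fintype B] : expList (0 : B → Fin 3) = [] := by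
  simp [expList]

theorem count_expList {B : Type*} [Fintype B] [DecidableEq B] (f : B → Fin 3) (b : B) :
    (expList f).count b = (f b).val := by
  rw [expList, List.count_flatMap]
  have : (List.map (List.count b ∘ fun b => List.replicate (f b).val b)
      (Finset.univ : Finset B).toList).sum = ∑ b' : B, (if b' = b then (f b').val else 0) := by
    rw [← Finset.sum_map_toList]
    congr 1
    apply List.map_congr_left
    intro b' _
    simp [List.count_replicate]
  rw [this]
  simp

theorem exists_bound {B : Type*} (L : List (ℕ × B)) : ∃ M, ∀ x ∈ L, x.1 < M := by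
  induction L with
  | nil => exact ⟨0, by simp⟩
  | cons y L ih =>
    obtain ⟨M, hM⟩ := ih
    refine ⟨max M (y.1 + 1), ?_⟩
    intro x hx
    rcases List.mem_cons.1 hx with rfl | hx
    · exact lt_of_lt_of_le (Nat.lt_succ_self _) (le_max_right _ _)
    · exact lt_of_lt_of_le (hM x hx) (le_max_left _ _)

theorem perm_eq_of_length_le_one {α : Type*} {l l' : List α} (h : l.Perm l')
    (h' : l'.length ≤ 1) : l = l' := by
  match l', h' with
  | [], _ => exact List.perm_nil.1 h
  | [a], _ => exact List.perm_singleton.1 h

namespace Deco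

variable {B : Type*} {t : ℕ} [Fintype B]

noncomputable def phiU (δ : Deco B t) : List B := expList δ.1

noncomputable def phiV (δ : Deco B t) : List B := expList δ.2.1

omit [Fintype B] in
def phiM (q : Fin t) (δ : Deco B t) : List B := (δ.2.2 q).toList

theorem phiU_zero : phiU (0 : Deco B t) = [] := expList_zero

theorem phiV_zero : phiV (0 : Deco B t) = [] := expList_zero

omit [Fintype B] in
theorem phiM_zero (q : Fin t) : phiM q (0 : Deco B t) = [] := rfl

end Deco

open Deco

/-- The layer lemma for bimodules on which the letters commute. -/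
theorem Sys.layer {p : ℕ} [Fact p.Prime] {B : Type*} [Finite B] {A : Type*} [Ring A]
    (S : Sys p B A) (X Y : AddSubgroup A) (hX : S.Inv X) (hY : S.Inv Y) (t : ℕ)
    (core : (Fin t → Option (ℕ × B)) → A)
    (hcoreX : ∀ l, core l ∈ X)
    (hcore : ∀ σ l, S.sub σ (core l) = core (fun q => (l q).map (mv σ)))
    (hL : ∀ x y, ∀ m ∈ X, (S.z x * S.z y - S.z y * S.z x) * m ∈ Y)
    (hR : ∀ x y, ∀ m ∈ X, m * (S.z x * S.z y - S.z y * S.z x) ∈ Y)
    (hspan : X ≤ AddSubgroup.closure {x | ∃ U l V, x = S.w U * core l * S.w V} ⊔ Y) :
    S.Acc X Y := by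
  classical
  have : Fintype B := Fintype.ofFinite B
  obtain ⟨c⟩ := exists_coding (Deco B t)
  intro N hN hNI hstab
  let V : Set (List (Deco B t)) := {w | ∀ q, (collect (phiM q) w).length ≤ 1}
  let b : List (Deco B t) → A := fun w =>
    S.w (collect phiU w) * core (fun q => (collect (phiM q) w).head?) * S.w (collect phiV w)
  let P : Set (List (Option (Deco B t))) := {ρ | ∀ q, collectIns (phiM q) ρ = []}
  let lam : List (Option (Deco B t)) → A →+ A := fun ρ =>
    (AddMonoidHom.mulLeft (S.w (collectIns phiU ρ))).comp
      ((AddMonoidHom.mulRight (S.w (collectIns phiV ρ))).comp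
        (S.sub (slot ρ)).toAddMonoidHom)
  have hlamdef : ∀ ρ x, lam ρ x =
      S.w (collectIns phiU ρ) * (S.sub (slot ρ) x * S.w (collectIns phiV ρ)) := fun _ _ => rfl
  have hmark : ∀ ρ ∈ P, ∀ w ∈ V, ∀ q,
      collect (phiM q) (fill ρ w) = (collect (phiM q) w).map (mv (slot ρ)) := by
    intro ρ hρ w hw q
    have h1 := collect_fill (phiM q) (phiM_zero q) ρ w
    rw [hρ q, List.nil_append] at h1
    exact perm_eq_of_length_le_one h1 (by simpa using hw q)
  have hPV : ∀ ρ ∈ P, ∀ w ∈ V, fill ρ w ∈ V := by
    intro ρ hρ w hw q
    rw [hmark ρ hρ w hw q]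
    simpa using hw q
  refine groebner (p := p) c S.char V b ?_ X Y ?_ P hPV lam ?_ ?_
    (fun w => fun q => (collect (phiM q) w).isEmpty) ?_ N hN ?_ hstab
  · -- words of the same rank
    intro w _ w' _ h
    simp only [b]
    rw [collect_rank_eq c phiU phiU_zero w w' h, collect_rank_eq c phiV phiV_zero w w' h]
    congr 3
    funext q
    rw [collect_rank_eq c (phiM q) (phiM_zero q) w w' h]
  · -- spanning
    refine hspan.trans (sup_le ?_ le_sup_right)
    rw [AddSubgroup.closure_le]
    rintro _ ⟨U, l, V', rfl⟩
    have hcube : ∀ (x : ℕ × B) (l : List (ℕ × B)), S.w (x :: x :: x :: l) = 0 := by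
      intro x l
      rw [S.w_cons, S.w_cons, S.w_cons, ← mul_assoc, ← mul_assoc, S.z_cube, zero_mul]
    by_cases hU : ∃ x, 3 ≤ U.count x
    · obtain ⟨x, hx⟩ := hU
      obtain ⟨U', hU'⟩ := (List.replicate_sublist_iff.2 hx).exists_perm_append
      have h1 := S.perm_left hX hY hL hU' (core l * S.w V') (hX.right _ _ (hcoreX l))
      have h2 : List.replicate 3 x ++ U' = x :: x :: x :: U' := rfl
      rw [h2, hcube, zero_mul, sub_zero, ← mul_assoc] at h1
      exact AddSubgroup.mem_sup_right h1
    by_cases hV : ∃ x, 3 ≤ V'.count x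
    · obtain ⟨x, hx⟩ := hV
      obtain ⟨U', hU'⟩ := (List.replicate_sublist_iff.2 hx).exists_perm_append
      have h1 := S.perm_right hX hY hR hU' (S.w U * core l) (hX.left _ _ (hcoreX l))
      have h2 : List.replicate 3 x ++ U' = x :: x :: x :: U' := rfl
      rw [h2, hcube, mul_zero, sub_zero] at h1
      exact AddSubgroup.mem_sup_right h1
    push Not at hU hV
    obtain ⟨M1, hM1⟩ := exists_bound U
    obtain ⟨M2, hM2⟩ := exists_bound V'
    obtain ⟨M3, hM3⟩ := exists_bound (List.ofFn fun q => (l q).toList).flatten
    let M := max M1 (max M2 M3)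
    have hM3' : ∀ q x, l q = some x → x.1 < M := by
      intro q x hx
      refine lt_of_lt_of_le (hM3 x ?_) ((le_max_right _ _).trans (le_max_right _ _))
      rw [List.mem_flatten]
      refine ⟨(l q).toList, ?_, by simp [hx]⟩
      rw [List.mem_ofFn]
      exact ⟨q, rfl⟩
    let dec : ℕ → Deco B t := fun i =>
      (fun b => ⟨U.count (i, b), hU (i, b)⟩, fun b => ⟨V'.count (i, b), hV (i, b)⟩,
        fun q => (l q).bind (fun x => if x.1 = i then some x.2 else none))
    let w : List (Deco B t) := (List.range M).map dec
    have hget : ∀ i, i < M → w.getD i 0 = dec i := by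
      intro i hi
      simp [w, hi]
    have hget' : ∀ i, ¬ i < M → w.getD i 0 = 0 := by
      intro i hi
      simp [w, not_lt.1 hi]
    have hUp : U.Perm (collect phiU w) := by
      rw [List.perm_iff_count]
      rintro ⟨i, b⟩
      rw [count_collect phiU phiU_zero]
      by_cases hi : i < M
      · rw [hget i hi, phiU, count_expList]
      · rw [hget' i hi, phiU_zero]
        simp only [List.count_nil]
        rw [List.count_eq_zero]
        intro hmem
        exact hi (lt_of_lt_of_le (hM1 _ hmem) (le_max_left _ _))
    have hVp : V'.Perm (collect phiV w) := by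
      rw [List.perm_iff_count]
      rintro ⟨i, b⟩
      rw [count_collect phiV phiV_zero]
      by_cases hi : i < M
      · rw [hget i hi, phiV, count_expList]
      · rw [hget' i hi, phiV_zero]
        simp only [List.count_nil]
        rw [List.count_eq_zero]
        intro hmem
        exact hi (lt_of_lt_of_le (hM2 _ hmem) ((le_max_left _ _).trans (le_max_right _ _)))
    have hMp : ∀ q, collect (phiM q) w = (l q).toList := by
      intro q
      apply perm_eq_of_length_le_one
      · rw [List.perm_iff_count]
        rintro ⟨i, b⟩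
        rw [count_collect (phiM q) (phiM_zero q)]
        by_cases hi : i < M
        · rw [hget i hi, phiM]
          simp only [dec]
          cases hlq : l q with
          | none => simp
          | some x =>
            obtain ⟨j, b'⟩ := x
            by_cases hji : j = i
            · subst hji
              simp [List.count_singleton]
            · simp [hji]
        · rw [hget' i hi, phiM_zero]
          simp only [List.count_nil]
          symm
          rw [List.count_eq_zero]
          intro hmem
          have : l q = some (i, b) := by simpa using hmem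
          exact hi (hM3' q _ this)
      · cases l q <;> simp
    have hwV : w ∈ V := by
      intro q
      rw [hMp q]
      cases l q <;> simp
    have hcl : core l = core (fun q => (collect (phiM q) w).head?) := by
      congr 1
      funext q
      rw [hMp q]
      cases l q <;> simp
    have h1 := S.perm_both hX hY hL hR hUp hVp (hcoreX l)
    have h2 : b w ∈ AddSubgroup.closure (b '' V) ⊔ Y :=
      AddSubgroup.mem_sup_left (AddSubgroup.subset_closure ⟨w, hwV, rfl⟩)
    have h3 : S.w (collect phiU w) * core l * S.w (collect phiV w) = b w := by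
      simp only [b]
      rw [← hcl]
    rw [h3] at h1
    have := add_mem (AddSubgroup.mem_sup_right h1 : _ ∈ AddSubgroup.closure (b '' V) ⊔ Y) h2
    simpa using this
  · -- `lam` preserves `Y`
    intro ρ _ y hy
    rw [hlamdef]
    exact hY.left _ _ (hY.right _ _ (hY.sub _ _ hy))
  · -- the action on words
    intro ρ hρ w hw
    left
    have h1 := collect_fill (phiU (t := t)) phiU_zero ρ w
    have h2 := collect_fill (phiV (t := t)) phiV_zero ρ w
    have h3 : (collect phiV (fill ρ w)).Perm
        ((collect phiV w).map (mv (slot ρ)) ++ collectIns phiV ρ) :=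
      h2.trans List.perm_append_comm
    have h4 := S.perm_both hX hY hL hR h1.symm h3.symm
      (hcoreX (fun q => (collect (phiM q) (fill ρ w)).head?))
    have h5 : lam ρ (b w) = S.w (collectIns phiU ρ ++ (collect phiU w).map (mv (slot ρ))) *
        core (fun q => (collect (phiM q) (fill ρ w)).head?) *
        S.w ((collect phiV w).map (mv (slot ρ)) ++ collectIns phiV ρ) := by
      rw [hlamdef]
      simp only [b, map_mul, S.sub_w, hcore, S.w_append]
      have h6 : (fun q => Option.map (mv (slot ρ)) (collect (phiM q) w).head?) =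
          fun q => (collect (phiM q) (fill ρ w)).head? := by
        funext q
        rw [hmark ρ hρ w hw q, List.head?_map]
      rw [h6]
      simp only [mul_assoc]
    rw [h5]
    exact h4
  · -- patterns
    intro u hu v hv huv hinv
    obtain ⟨ρ, hρ⟩ := exists_fill_of_sublist huv
    refine ⟨ρ, ?_, hρ⟩
    intro q
    have h1 := (collect_fill (phiM q) (phiM_zero q) ρ u).length_eq
    rw [hρ, List.length_append, List.length_map] at h1
    have h2 := hv q
    have h3 := congrFun hinv q
    rw [← List.length_eq_zero_iff]
    cases hcu : collect (phiM q) u with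
    | nil =>
      rw [hcu] at h1 h3
      simp only [List.isEmpty_nil] at h3
      have h4 : collect (phiM q) v = [] := List.isEmpty_iff.1 h3.symm
      rw [h4] at h1
      simp at h1
      simp [h1]
    | cons a l =>
      rw [hcu] at h1
      simp only [List.length_cons] at h1
      omega
  · intro k ρ _ x hx
    rw [hlamdef]
    exact (hNI k).left _ _ ((hNI k).right _ _ ((hNI k).sub _ _ hx))

end Pool.Agent.Work.MP_f5ed0a_al
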