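import Pool.Agent.Work.MP_f5ed0a_al.Shirshov
import Pool.Agent.Work.MP_f5ed0a_al.Layer

set_option autoImplicit false

namespace Pool.Agent.Work.MP_f5ed0a_al

section polar

variable {A : Type*} [Ring A]

theorem sum_pow_expand {n : ℕ} (k : ℕ) (y : Fin n → A) (T : Finset (Fin n)) :
    (∑ i ∈ T, y i) ^ k = ∑ r : Fin k → Fin n, if (∀ j, r j ∈ T) then
      (List.ofFn (fun j => y (r j))).prod else 0 := by
  classical
  have h := (MultilinearMap.mkPiAlgebraFin ℤ k A).map_sum_finset (fun (_ : Fin k) i => y i)
    (fun _ => T)
  simp only [MultilinearMap.mkPiAlgebraFin_apply, List.ofFn_const, List.prod_replicate] at h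
  rw [h, ← Finset.sum_filter]
  apply Finset.sum_congr
  · ext r
    simp [Fintype.mem_piFinset]
  · intro r _
    rfl

theorem sum_signs {n k : ℕ} (r : Fin k → Fin n) (hr : ¬ Function.Surjective r) :
    ∑ T : Finset (Fin n), (if (∀ j, r j ∈ T) then (-1 : ℤ) ^ T.card else 0) = 0 := by
  classical
  obtain ⟨a, ha⟩ : ∃ a, ∀ j, r j ≠ a := by
    simpa [Function.Surjective] using hr
  refine Finset.sum_involution (fun T _ => if a ∈ T then T.erase a else insert a T) ?_ ?_ ?_ ?_
  · intro T _
    by_cases haT : a ∈ T
    · have h1 : (∀ j, r j ∈ T.erase a) ↔ (∀ j, r j ∈ T) := by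
        simp [ha]
      simp only [haT, if_true, h1]
      split_ifs with h
      · have hc : T.card = (T.erase a).card + 1 := by
          rw [Finset.card_erase_of_mem haT]
          have : 0 < T.card := Finset.card_pos.2 ⟨a, haT⟩
          omega
        rw [hc, pow_succ]
        ring
      · rfl
    · have h1 : (∀ j, r j ∈ insert a T) ↔ (∀ j, r j ∈ T) := by
        simp [ha]
      simp only [haT, if_false, h1]
      split_ifs with h
      · rw [Finset.card_insert_of_notMem haT, pow_succ]
        ring
      · rfl
  · intro T _ _
    by_cases haT : a ∈ T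
    · simp only [haT, if_true]
      intro h
      rw [← h] at haT
      simp at haT
    · simp only [haT, if_false]
      intro h
      exact haT (h ▸ Finset.mem_insert_self a T)
  · intro T _
    exact Finset.mem_univ _
  · intro T _
    by_cases haT : a ∈ T
    · simp [haT]
    · simp [haT]

/-- Full linearisation of the identity `x ^ 3 = x ^ n`. -/
theorem polar (R : AddSubgroup A) {n : ℕ} (hn : 4 ≤ n) (hR : ∀ x ∈ R, x ^ 3 = x ^ n)
    (y : Fin n → A) (hy : ∀ i, y i ∈ R) :
    ∑ σ : Equiv.Perm (Fin n), (List.ofFn (fun i => y (σ i))).prod = 0 := by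
  classical
  have h1 : ∀ k, ∑ T : Finset (Fin n), ((-1 : ℤ) ^ T.card) • (∑ i ∈ T, y i) ^ k =
      ∑ r : Fin k → Fin n, (∑ T : Finset (Fin n), (if (∀ j, r j ∈ T) then (-1 : ℤ) ^ T.card else 0)) •
        (List.ofFn (fun j => y (r j))).prod := by
    intro k
    simp only [sum_pow_expand, Finset.smul_sum, Finset.sum_smul]
    rw [Finset.sum_comm]
    apply Finset.sum_congr rfl
    intro r _
    apply Finset.sum_congr rfl
    intro T _
    split_ifs <;> simp
  have h2 : ∑ T : Finset (Fin n), ((-1 : ℤ) ^ T.card) • (∑ i ∈ T, y i) ^ 3 =
      ∑ T : Finset (Fin n), ((-1 : ℤ) ^ T.card) • (∑ i ∈ T, y i) ^ n := by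
    apply Finset.sum_congr rfl
    intro T _
    rw [hR _ (sum_mem (fun i _ => hy i))]
  rw [h1, h1] at h2
  have h3 : ∑ r : Fin 3 → Fin n, (∑ T : Finset (Fin n), (if (∀ j, r j ∈ T) then
      (-1 : ℤ) ^ T.card else 0)) • (List.ofFn (fun j => y (r j))).prod = 0 := by
    apply Finset.sum_eq_zero
    intro r _
    rw [sum_signs r ?_, zero_smul]
    intro hs
    have := Fintype.card_le_of_surjective r hs
    simp at this
    omega
  rw [h3] at h2
  -- only the permutations remain
  have h4 : ∑ r : Fin n → Fin n, (∑ T : Finset (Fin n), (if (∀ j, r j ∈ T) then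
      (-1 : ℤ) ^ T.card else 0)) • (List.ofFn (fun j => y (r j))).prod =
      ∑ σ : Equiv.Perm (Fin n), ((-1 : ℤ) ^ n) • (List.ofFn (fun i => y (σ i))).prod := by
    symm
    apply Finset.sum_of_injOn (fun σ : Equiv.Perm (Fin n) => (σ : Fin n → Fin n))
    · intro σ _ τ _ h
      exact DFunLike.coe_injective h
    · intro σ _
      simp
    · intro r _ hr
      have hns : ¬ Function.Surjective r := by
        intro hs
        apply hr
        have hb : Function.Bijective r := (Finite.injective_iff_surjective.2 hs : _) |> fun h => ⟨h, hs⟩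
        simp only [Finset.coe_univ, Set.image_univ, Set.mem_range]
        exact ⟨Equiv.ofBijective r hb, rfl⟩
      rw [sum_signs r hns, zero_smul]
    · intro σ _
      congr 1
      symm
      rw [Finset.sum_eq_single (Finset.univ : Finset (Fin n))]
      · simp
      · intro T _ hT
        rw [if_neg]
        intro h
        apply hT
        rw [Finset.eq_univ_iff_forall]
        intro a
        have := h (σ.symm a)
        simpa using this
      · intro h
        exact absurd (Finset.mem_univ _) h
  rw [h4, ← Finset.smul_sum] at h2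
  have h5 : ((-1 : ℤ) ^ n) • (((-1 : ℤ) ^ n) • ∑ σ : Equiv.Perm (Fin n),
      (List.ofFn (fun i => y (σ i))).prod) = 0 := by rw [← h2, smul_zero]
  rwa [smul_smul, ← pow_add, ← two_mul, pow_mul, neg_one_sq, one_pow, one_smul] at h5

end polar

section locfin

variable {A : Type*} [Ring A] {d : ℕ} (a : Fin d → A)

/-- The value of a word. -/
def val (l : List (Fin d)) : A := (l.map a).prod

theorem val_append (l l' : List (Fin d)) : val a (l ++ l') = val a l * val a l' := by
  simp [val]

theorem val_nil : val a [] = 1 := rfl

theorem val_flatten_replicate (k : ℕ) (v : List (Fin d)) :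
    val a (List.replicate k v).flatten = val a v ^ k := by
  induction k with
  | zero => simp [val_nil]
  | succ k ih => rw [List.replicate_succ, List.flatten_cons, val_append, ih, pow_succ']

theorem val_flatten_ofFn {n : ℕ} (v : Fin n → List (Fin d)) :
    val a (List.ofFn v).flatten = (List.ofFn (fun i => val a (v i))).prod := by
  have : ∀ L : List (List (Fin d)), val a L.flatten = (L.map (val a)).prod := by
    intro L
    induction L with
    | nil => simp [val_nil]
    | cons l L ih => rw [List.flatten_cons, val_append, ih]; simp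
  rw [this, List.map_ofFn]
  rfl

theorem val_mem {l : List (Fin d)} (hl : l ≠ []) :
    val a l ∈ NonUnitalSubring.closure (Set.range a) := by
  induction l with
  | nil => exact absurd rfl hl
  | cons x l ih =>
    have e : val a (x :: l) = a x * val a l := by simp [val]
    rw [e]
    cases l with
    | nil =>
      rw [val_nil, mul_one]
      exact NonUnitalSubring.subset_closure (Set.mem_range_self x)
    | cons y l => exact mul_mem (NonUnitalSubring.subset_closure (Set.mem_range_self x)) (ih (by simp))

/-- Permuting the pieces of an `n`-divisible word decreases it. -/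
theorem num_perm_lt {n : ℕ} (u : List (Fin d)) (x t : Fin n → List (Fin d)) {L : ℕ}
    (hx : ∀ i, (x i).length = L) (hdec : ∀ i j, i < j → num (x j) < num (x i))
    (σ : Equiv.Perm (Fin n)) (hσ : σ ≠ 1) :
    num (u ++ (List.ofFn (fun i => x (σ i) ++ t (σ i))).flatten) <
      num (u ++ (List.ofFn (fun i => x i ++ t i)).flatten) := by
  classical
  obtain ⟨i, hi, hmin⟩ : ∃ i, σ i ≠ i ∧ ∀ j, j < i → σ j = j := by
    have hne : (Finset.univ.filter (fun i => σ i ≠ i)).Nonempty := by
      by_contra hcon
      rw [Finset.not_nonempty_iff_eq_empty, Finset.filter_eq_empty_iff] at hcon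
      apply hσ
      ext i
      have := hcon (Finset.mem_univ i)
      push Not at this
      simp [this]
    refine ⟨(Finset.univ.filter (fun i => σ i ≠ i)).min' hne, ?_, ?_⟩
    · have := Finset.min'_mem _ hne
      rw [Finset.mem_filter] at this
      exact this.2
    · intro j hj
      by_contra hcon
      have := Finset.min'_le (Finset.univ.filter (fun i => σ i ≠ i)) j (by simp [hcon])
      exact absurd hj (not_lt.2 this)
  have hlt : i < σ i := by
    rcases lt_trichotomy i (σ i) with h | h | h
    · exact h
    · exact absurd h.symm hi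
    · exfalso
      have h1 := hmin _ h
      exact hi (σ.injective h1)
  -- decompose both lists at position `i`
  have hdec2 : ∀ v : Fin n → List (Fin d), List.ofFn v =
      (List.ofFn v).take i.val ++ v i :: (List.ofFn v).drop (i.val + 1) := by
    intro v
    conv_lhs => rw [← List.take_append_drop i.val (List.ofFn v)]
    congr 1
    rw [List.drop_eq_getElem_cons (by simp)]
    simp
  have htake : (List.ofFn (fun i => x (σ i) ++ t (σ i))).take i.val =
      (List.ofFn (fun i => x i ++ t i)).take i.val := by
    apply List.ext_getElem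
    · simp
    · intro j h1 h2
      simp only [List.length_take, List.length_ofFn, lt_inf_iff] at h1
      simp only [List.getElem_take, List.getElem_ofFn]
      rw [hmin ⟨j, h1.2⟩ (Fin.lt_def.2 h1.1)]
  have hlen : (List.ofFn (fun i => x (σ i) ++ t (σ i))).flatten.length =
      (List.ofFn (fun i => x i ++ t i)).flatten.length := by
    rw [List.length_flatten, List.length_flatten, List.map_ofFn, List.map_ofFn, List.sum_ofFn,
      List.sum_ofFn]
    exact Equiv.sum_comp σ (fun i => (x i ++ t i).length)
  rw [hdec2 (fun i => x (σ i) ++ t (σ i)), hdec2 (fun i => x i ++ t i), htake] at hlen ⊢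
  simp only [List.flatten_append, List.flatten_cons, List.append_assoc, List.length_append] at hlen ⊢
  rw [← List.append_assoc u, ← List.append_assoc u]
  refine num_lt_num (by rw [hx, hx]) ?_ (hdec i (σ i) hlt)
  simp only [List.length_append]
  rw [hx, hx] at hlen
  omega

/-- Local finiteness: long words can be rewritten through shorter ones. -/
theorem exists_short {n : ℕ} (hn : 4 ≤ n) (d : ℕ) : ∃ N, ∀ (A : Type*) [Ring A] (a : Fin d → A),
    (∀ x ∈ NonUnitalSubring.closure (Set.range a), x ^ 3 = x ^ n) → ∀ l : List (Fin d), l ≠ [] →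
    val a l ∈ AddSubgroup.closure {x | ∃ l' : List (Fin d), l'.length < N ∧ l' ≠ [] ∧ x = val a l'} := by
  obtain ⟨N, hN⟩ := shirshov d n (by omega)
  refine ⟨N, ?_⟩
  intro A _ a hR
  set H := AddSubgroup.closure {x | ∃ l' : List (Fin d), l'.length < N ∧ l' ≠ [] ∧ x = val a l'}
  have key : ∀ k m : ℕ, ∀ l : List (Fin d), l.length = k → num l = m → l ≠ [] → val a l ∈ H := by
    intro k
    induction k using Nat.strong_induction_on with
    | _ k ihk =>
    intro m
    induction m using Nat.strong_induction_on with
    | _ m ihm =>
    intro l hlk hlm hl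
    by_cases hshort : l.length < N
    · exact AddSubgroup.subset_closure ⟨l, hshort, hl, rfl⟩
    rcases hN l (not_lt.1 hshort) with ⟨u, v, u', hv, hw⟩ | ⟨u, x, t, hw, hx, hdec⟩
    · -- a power
      have h1 : val a l = val a (u ++ (List.replicate 3 v).flatten ++ u') := by
        rw [hw, val_append, val_append, val_append, val_append, val_flatten_replicate,
          val_flatten_replicate, hR _ (val_mem a hv)]
      rw [h1]
      have hvl : 0 < v.length := List.length_pos_iff.2 hv
      have hlen : (u ++ (List.replicate 3 v).flatten ++ u').length < k := by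
        rw [← hlk, hw]
        simp only [List.length_append, List.length_flatten, List.map_replicate,
          List.sum_replicate, smul_eq_mul]
        have : 3 * v.length < n * v.length := Nat.mul_lt_mul_of_pos_right (by omega) hvl
        omega
      refine ihk _ hlen _ _ rfl rfl ?_
      intro hcon
      have := congrArg List.length hcon
      simp [List.replicate] at this
      exact hv (by tauto)
    · -- `n`-divisible
      have hvne : ∀ i, x i ++ t i ≠ [] := by
        intro i hcon
        have := congrArg List.length hcon
        rw [List.length_append, hx i] at this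
        simp at this
        omega
      have h0 := polar (NonUnitalSubring.closure (Set.range a)).toAddSubgroup hn hR
        (fun i => val a (x i ++ t i)) (fun i => val_mem a (hvne i))
      have h1 : ∀ σ : Equiv.Perm (Fin n), val a u * (List.ofFn (fun i => val a (x (σ i) ++ t (σ i)))).prod
          = val a (u ++ (List.ofFn (fun i => x (σ i) ++ t (σ i))).flatten) := by
        intro σ
        rw [val_append, val_flatten_ofFn]
      have h2 : val a l = - ∑ σ ∈ (Finset.univ.erase (1 : Equiv.Perm (Fin n))),
          val a (u ++ (List.ofFn (fun i => x (σ i) ++ t (σ i))).flatten) := by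
        have h3 := congrArg (val a u * ·) h0
        simp only [mul_zero, Finset.mul_sum, h1] at h3
        rw [← Finset.add_sum_erase _ _ (Finset.mem_univ (1 : Equiv.Perm (Fin n)))] at h3
        have h4 : u ++ (List.ofFn (fun i => x ((1 : Equiv.Perm (Fin n)) i) ++
            t ((1 : Equiv.Perm (Fin n)) i))).flatten = l := hw.symm
        rw [h4] at h3
        exact eq_neg_of_add_eq_zero_left h3
      rw [h2]
      refine neg_mem (sum_mem ?_)
      intro σ hσ
      have hσ1 : σ ≠ 1 := Finset.ne_of_mem_erase hσ
      have hlt := num_perm_lt u x t hx hdec σ hσ1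
      rw [← hw, hlm] at hlt
      have hlen : (u ++ (List.ofFn (fun i => x (σ i) ++ t (σ i))).flatten).length = k := by
        rw [← hlk, hw, List.length_append, List.length_append]
        congr 1
        rw [List.length_flatten, List.length_flatten, List.map_ofFn, List.map_ofFn, List.sum_ofFn,
          List.sum_ofFn]
        exact Equiv.sum_comp σ (fun i => (x i ++ t i).length)
      refine ihm _ hlt _ hlen rfl ?_
      intro hcon
      rw [hcon] at hlen
      simp only [List.length_nil] at hlen
      rw [← hlk] at hlen
      exact hl (List.length_eq_zero_iff.1 hlen.symm)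
  intro l hl
  exact key _ _ l rfl rfl hl

theorem finite_closure_of_torsion {G : Type*} [AddCommGroup G] (S : Set G) (hS : S.Finite) {p : ℕ}
    (hp : 0 < p) (h : ∀ x ∈ AddSubgroup.closure S, p • x = 0) :
    (AddSubgroup.closure S : Set G).Finite := by
  have hfg : AddGroup.FG (AddSubgroup.closure S) := by
    have : (AddSubgroup.closure S).FG := ⟨hS.toFinset, by simp⟩
    exact (AddGroup.fg_iff_addSubgroup_fg _).2 this
  have htor : IsAddTorsion (AddSubgroup.closure S) := by
    intro x
    rw [isOfFinAddOrder_iff_nsmul_eq_zero]
    exact ⟨p, hp, Subtype.ext (h x.1 x.2)⟩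
  have : Finite (AddSubgroup.closure S) := AddCommGroup.finite_of_fg_isAddTorsion _ htor
  exact Set.toFinite _

/-- Local finiteness. -/
theorem locally_finite {n : ℕ} (hn : 4 ≤ n) {p : ℕ} (hp : 0 < p) {A : Type*} [Ring A] {d : ℕ}
    (a : Fin d → A)
    (hR : ∀ x ∈ NonUnitalSubring.closure (Set.range a), x ^ 3 = x ^ n)
    (hpR : ∀ x ∈ NonUnitalSubring.closure (Set.range a), p • x = 0) :
    (NonUnitalSubring.closure (Set.range a) : Set A).Finite := by
  obtain ⟨N, hN⟩ := exists_short hn d
  have hN' := hN A a hR
  set S := {x | ∃ l' : List (Fin d), l'.length < N ∧ l' ≠ [] ∧ x = val a l'} with hS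
  have hSfin : S.Finite := by
    have : S ⊆ (val a) '' {l : List (Fin d) | l.length < N} := by
      rintro _ ⟨l, hl, _, rfl⟩
      exact ⟨l, hl, rfl⟩
    refine Set.Finite.subset (Set.Finite.image _ ?_) this
    exact List.finite_length_lt (Fin d) N
  have hle : ∀ x ∈ AddSubgroup.closure S, x ∈ NonUnitalSubring.closure (Set.range a) := by
    intro x hx
    induction hx using AddSubgroup.closure_induction with
    | mem x hx =>
      obtain ⟨l, _, hl, rfl⟩ := hx
      exact val_mem a hl
    | zero => exact zero_mem _
    | add x y _ _ hx hy => exact add_mem hx hy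
    | neg x _ hx => exact neg_mem hx
  have hge : ∀ x ∈ NonUnitalSubring.closure (Set.range a), x ∈ AddSubgroup.closure
      {x | ∃ l' : List (Fin d), l' ≠ [] ∧ x = val a l'} := by
    intro x hx
    induction hx using NonUnitalSubring.closure_induction with
    | mem x hx =>
      obtain ⟨i, rfl⟩ := hx
      exact AddSubgroup.subset_closure ⟨[i], by simp, by simp [val]⟩
    | zero => exact zero_mem _
    | add x y _ _ hx hy => exact add_mem hx hy
    | neg x _ hx => exact neg_mem hx
    | mul x y _ _ hx hy =>
      refine closure_mul_mem ?_ hx hy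
      rintro _ ⟨l, hl, rfl⟩ _ ⟨l', _, rfl⟩
      exact AddSubgroup.subset_closure ⟨l ++ l', by simp [hl], by rw [val_append]⟩
  refine Set.Finite.subset (finite_closure_of_torsion S hSfin hp (fun x hx => hpR x (hle x hx))) ?_
  intro x hx
  have h1 := hge x hx
  refine (AddSubgroup.closure_le _).2 ?_ h1
  rintro _ ⟨l, hl, rfl⟩
  exact hN' l hl

end locfin

end Pool.Agent.Work.MP_f5ed0a_al
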