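import Pool.Agent.Work.MP_f5ed0a_al.Alpha
import Pool.Agent.Work.MP_f5ed0a_al.Beta

set_option autoImplicit false

universe u

namespace Pool.Agent.Work.MP_f5ed0a_al

/-- The elements which lie in `N` after multiplication by `d`. -/
def divided (d : ℕ) (N : AddSubgroup Poly) : AddSubgroup Poly where
  carrier := {x | d • x ∈ N}
  zero_mem' := by
    change d • (0 : Poly) ∈ N
    rw [smul_zero]; exact zero_mem _
  add_mem' := by
    intro a b ha hb
    change d • (a + b) ∈ N
    rw [smul_add]; exact add_mem ha hb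
  neg_mem' := by
    intro a ha
    change d • (-a) ∈ N
    rw [smul_neg]; exact neg_mem ha

theorem mem_divided {d : ℕ} {N : AddSubgroup Poly} {x : Poly} :
    x ∈ divided d N ↔ d • x ∈ N := Iff.rfl

theorem divided_tideal (d : ℕ) {N : AddSubgroup Poly} (hN : IsTIdeal N) :
    IsTIdeal (divided d N) where
  left a f hf := by
    rw [mem_divided, ← mul_smul_comm]; exact hN.left a _ hf
  right a f hf := by
    rw [mem_divided, ← smul_mul_assoc]; exact hN.right a _ hf
  subst v f hf := by
    rw [mem_divided, ← map_nsmul]; exact hN.subst v _ hf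

theorem le_divided (d : ℕ) (N : AddSubgroup Poly) : N ≤ divided d N :=
  fun _ hx => N.nsmul_mem hx d

theorem divided_mono (d : ℕ) {N N' : AddSubgroup Poly} (h : N ≤ N') : divided d N ≤ divided d N' :=
  fun _ hx => h hx

/-- The sum `N + pF`. -/
def plusp (p : ℕ) (N : AddSubgroup Poly) : AddSubgroup Poly where
  carrier := {x | ∃ z : Poly, x - p • z ∈ N}
  zero_mem' := ⟨0, by rw [smul_zero, sub_zero]; exact zero_mem _⟩
  add_mem' := by
    rintro a b ⟨z, hz⟩ ⟨w, hw⟩
    refine ⟨z + w, ?_⟩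
    have : a + b - p • (z + w) = (a - p • z) + (b - p • w) := by rw [smul_add]; abel
    rw [this]; exact add_mem hz hw
  neg_mem' := by
    rintro a ⟨z, hz⟩
    refine ⟨-z, ?_⟩
    have : -a - p • (-z) = -(a - p • z) := by rw [smul_neg]; abel
    rw [this]; exact neg_mem hz

theorem plusp_tideal (p : ℕ) {N : AddSubgroup Poly} (hN : IsTIdeal N) : IsTIdeal (plusp p N) where
  left a f hf := by
    obtain ⟨z, hz⟩ := hf
    refine ⟨a * z, ?_⟩
    have : a * f - p • (a * z) = a * (f - p • z) := by rw [mul_sub, mul_smul_comm]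
    rw [this]; exact hN.left a _ hz
  right a f hf := by
    obtain ⟨z, hz⟩ := hf
    refine ⟨z * a, ?_⟩
    have : f * a - p • (z * a) = (f - p • z) * a := by rw [sub_mul, smul_mul_assoc]
    rw [this]; exact hN.right a _ hz
  subst v f hf := by
    obtain ⟨z, hz⟩ := hf
    refine ⟨ev v z, ?_⟩
    have : ev v f - p • ev v z = ev v (f - p • z) := by rw [map_sub, map_nsmul]
    rw [this]; exact hN.subst v _ hz

theorem plusp_mono (p : ℕ) {N N' : AddSubgroup Poly} (h : N ≤ N') : plusp p N ≤ plusp p N' := by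
  rintro x ⟨z, hz⟩
  exact ⟨z, h hz⟩

theorem prime_step {n : ℕ} (hn : 4 ≤ n) {p : ℕ} (hp : p.Prime) (N : ℕ → AddSubgroup Poly)
    (hmono : Monotone N) (hT : ∀ k, IsTIdeal (N k))
    (hcube : ∀ f : Poly, mpow f 3 - mpow f n ∈ N 0)
    (h : ∃ K, ∀ k, K ≤ k → divided p (N k) = divided p (N K)) :
    ∃ K, ∀ k, K ≤ k → N k = N K := by
  have : Fact p.Prime := ⟨hp⟩
  obtain ⟨K₁, h₁⟩ := h
  obtain ⟨K₂, h₂⟩ := alpha hn (p := p) (fun k => plusp p (N k))
    (fun i j hij => plusp_mono p (hmono hij)) (fun k => plusp_tideal p (hT k))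
    (fun f => ⟨0, by rw [smul_zero, sub_zero]; exact hcube f⟩)
    (fun f => ⟨f, by rw [sub_self]; exact zero_mem _⟩)
  refine ⟨max K₁ K₂, fun k hk => le_antisymm ?_ (hmono hk)⟩
  intro x hx
  have hk1 : K₁ ≤ k := (le_max_left _ _).trans hk
  have hk2 : K₂ ≤ k := (le_max_right _ _).trans hk
  have hx1 : x ∈ plusp p (N k) := ⟨0, by rw [smul_zero, sub_zero]; exact hx⟩
  rw [h₂ k hk2, ← h₂ (max K₁ K₂) (le_max_right _ _)] at hx1
  obtain ⟨z, hz⟩ := hx1
  have h3 : p • z ∈ N k := by
    have : p • z = x - (x - p • z) := by abel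
    rw [this]; exact sub_mem hx (hmono hk hz)
  have h4 : z ∈ divided p (N k) := h3
  rw [h₁ k hk1, ← h₁ (max K₁ K₂) (le_max_left _ _)] at h4
  have h5 : p • z ∈ N (max K₁ K₂) := h4
  have : x = (x - p • z) + p • z := by abel
  rw [this]
  exact add_mem hz h5

theorem divided_step {n : ℕ} (hn : 4 ≤ n) (q : ℕ) : 0 < q → ∀ (N : ℕ → AddSubgroup Poly),
    Monotone N → (∀ k, IsTIdeal (N k)) → (∀ f : Poly, mpow f 3 - mpow f n ∈ N 0) →
    (∃ K, ∀ k, K ≤ k → divided q (N k) = divided q (N K)) →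
    ∃ K, ∀ k, K ≤ k → N k = N K := by
  induction q using Nat.strong_induction_on with
  | _ q ih =>
    intro hq N hmono hT hcube h
    by_cases h1 : q = 1
    · subst h1
      obtain ⟨K, hK⟩ := h
      refine ⟨K, fun k hk => ?_⟩
      have h2 : ∀ M : AddSubgroup Poly, divided 1 M = M := by
        intro M
        ext x
        rw [mem_divided, one_smul]
      have := hK k hk
      rwa [h2, h2] at this
    · have hp := Nat.minFac_prime h1
      obtain ⟨q', hq'⟩ := Nat.minFac_dvd q
      set p := q.minFac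
      have hq'0 : 0 < q' := by
        rcases Nat.eq_zero_or_pos q' with h0 | h0
        · rw [h0, mul_zero] at hq'; omega
        · exact h0
      have hlt : q' < q := by
        rw [hq']
        exact lt_mul_of_one_lt_left hq'0 hp.one_lt
      refine ih q' hlt hq'0 N hmono hT hcube ?_
      refine prime_step hn hp (fun k => divided q' (N k)) (fun i j hij => divided_mono _ (hmono hij))
        (fun k => divided_tideal _ (hT k)) (fun f => le_divided _ _ (hcube f)) ?_
      obtain ⟨K, hK⟩ := h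
      refine ⟨K, fun k hk => ?_⟩
      have h2 : ∀ M : AddSubgroup Poly, divided p (divided q' M) = divided q M := by
        intro M
        ext x
        rw [mem_divided, mem_divided, mem_divided, smul_smul, hq', mul_comm]
      rw [h2, h2]
      exact hK k hk

theorem mpow_nsmul {R : Type u} [NonUnitalRing R] (c : ℕ) (x : R) {k : ℕ} (hk : 1 ≤ k) :
    mpow (c • x) k = c ^ k • mpow x k := by
  induction k, hk using Nat.le_induction with
  | base => simp [mpow]
  | succ k hk ih =>
    rw [mpow_succ _ hk, mpow_succ _ hk, ih, smul_mul_smul_comm, pow_succ]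

theorem torsion_words {n : ℕ} (hn : 4 ≤ n) (N : AddSubgroup Poly) (hT : IsTIdeal N)
    (hcube : ∀ f : Poly, mpow f 3 - mpow f n ∈ N) (i : ℕ) (l : List ℕ) (hl : 7 ≤ l.length + 1) :
    (24 * (2 ^ n - 8)) • pwd i l ∈ N := by
  obtain ⟨Q, hQ, π, hπ, hker⟩ := exists_quotient N hT.left hT.right
  have hsat : ∀ g ∈ N, Satisfies Q g := fun g hg => satisfies_quotient hT π hπ hker g hg
  have hn2 : 8 ≤ 2 ^ n := by
    calc 8 = 2 ^ 3 := by norm_num
      _ ≤ 2 ^ n := Nat.pow_le_pow_right (by norm_num) (by omega)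
  have h1 : ∀ x : Q, (2 ^ n - 8) • (x * x * x) = 0 := by
    intro x
    have h2 := mpow_of_satisfies hcube hsat ((2 : ℕ) • x)
    rw [mpow_nsmul 2 x (by norm_num : 1 ≤ 3), mpow_nsmul 2 x (by omega : 1 ≤ n),
      ← mpow_of_satisfies hcube hsat x, mpow_three] at h2
    have h3 : (2 ^ n - 8) • (x * x * x) + 8 • (x * x * x) = 2 ^ n • (x * x * x) := by
      rw [← add_smul, Nat.sub_add_cancel hn2]
    have h4 : (2 ^ 3) • (x * x * x) = 8 • (x * x * x) := by norm_num
    rw [← h2, h4] at h3
    exact add_eq_right.1 h3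
  obtain ⟨b, c, z₀, t, rfl⟩ : ∃ b c z₀ t, l = b :: c :: z₀ :: t := by
    match l, hl with
    | b :: c :: z₀ :: t, _ => exact ⟨b, c, z₀, t, rfl⟩
  simp only [List.length_cons] at hl
  obtain ⟨m, d, e, f, rfl⟩ : ∃ m d e f, t = m ++ [d, e, f] := by
    obtain ⟨d, e, f, hdef⟩ := List.length_eq_three.1
      (by rw [List.length_drop]; omega : (t.drop (t.length - 3)).length = 3)
    exact ⟨t.take (t.length - 3), d, e, f, by rw [← hdef, List.take_append_drop]⟩
  have hw : pwd i (b :: c :: z₀ :: (m ++ [d, e, f])) =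
      X i * X b * X c * pwd z₀ m * (X d * X e * X f) := by
    simp only [X, pwd_mul]
    simp
  rw [← hker, map_nsmul, hw]
  simp only [map_mul]
  exact nagata_higman (2 ^ n - 8) h1 _ _ _ _ _ _ _

theorem main_chain {n : ℕ} (hn : 4 ≤ n) (N : ℕ → AddSubgroup Poly)
    (hmono : Monotone N) (hT : ∀ k, IsTIdeal (N k))
    (hcube : ∀ f : Poly, mpow f 3 - mpow f n ∈ N 0) :
    ∃ K, ∀ k, K ≤ k → N k = N K := by
  have hn2 : 8 < 2 ^ n := by
    calc 8 < 2 ^ 4 := by norm_num
      _ ≤ 2 ^ n := Nat.pow_le_pow_right (by norm_num) hn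
  refine divided_step hn (24 * (2 ^ n - 8)) (by omega) N hmono hT hcube ?_
  exact beta 7 (fun k => divided (24 * (2 ^ n - 8)) (N k))
    (fun i j hij => divided_mono _ (hmono hij)) (fun k => divided_tideal _ (hT k))
    (fun i l hl => torsion_words hn (N 0) (hT 0) hcube i l hl)

theorem main {n : ℕ} (hn : 4 ≤ n) : MinimumCondition.{u} (cubeVariety n) := by
  rintro ⟨W, hvar, hsub, hstrict⟩
  let N : ℕ → AddSubgroup Poly := fun k =>
    { carrier := {f | ∀ (R : Type u) [NonUnitalRing R], W k R → Satisfies R f}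
      zero_mem' := fun R _ _ v => map_zero _
      add_mem' := fun ha hb R _ hR v => by rw [map_add, ha R hR v, hb R hR v, add_zero]
      neg_mem' := fun ha R _ hR v => by rw [map_neg, ha R hR v, neg_zero] }
  have hmem : ∀ k f, f ∈ N k ↔ ∀ (R : Type u) [NonUnitalRing R], W k R → Satisfies R f :=
    fun _ _ => Iff.rfl
  have hmono : Monotone N := monotone_nat_of_le_succ (fun k f hf R _ hR =>
    hf R ((hstrict k).1 R hR))
  have hT : ∀ k, IsTIdeal (N k) := fun k =>
    { left := fun a f hf R _ hR v => by rw [map_mul, hf R hR v, mul_zero]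
      right := fun a f hf R _ hR v => by rw [map_mul, hf R hR v, zero_mul]
      subst := fun w f hf R _ hR v => by rw [ev_ev, hf R hR] }
  have hcube : ∀ f : Poly, mpow f 3 - mpow f n ∈ N 0 := by
    intro f R _ hR v
    have h1 := hsub 0 R hR
    have h2 : ∀ k, ev v (mpow f k) = mpow (ev v f) k := by
      intro k
      rcases Nat.eq_zero_or_pos k with rfl | hk
      · rfl
      induction k, hk using Nat.le_induction with
      | base => rfl
      | succ k hk ih => rw [mpow_succ _ hk, mpow_succ _ hk, map_mul, ih]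
    rw [map_sub, h2, h2, h1 (ev v f), sub_self]
  obtain ⟨K, hK⟩ := main_chain hn N hmono hT hcube
  apply (hstrict K).2
  intro R _ hR
  obtain ⟨G, hG⟩ := hvar (K + 1)
  rw [hG]
  intro f hf
  have h3 : f ∈ N (K + 1) := fun R' _ hR' => (hG R').1 hR' f hf
  rw [hK (K + 1) (Nat.le_succ K)] at h3
  exact h3 R hR

end Pool.Agent.Work.MP_f5ed0a_al
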