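import Pool.Agent.Work.MP_f5ed0a_al.Defs

set_option autoImplicit false

universe u

namespace Pool.Agent.Work.MP_f5ed0a_al

/-- The word with given first letter and remaining letters. -/
noncomputable def pwd (i : ℕ) (l : List ℕ) : Poly := MonoidAlgebra.single ⟨i, l⟩ 1

/-- The variables. -/
noncomputable def X (i : ℕ) : Poly := pwd i []

theorem ev_pwd {R : Type u} [NonUnitalRing R] (v : ℕ → R) (i : ℕ) (l : List ℕ) :
    ev v (pwd i l) = l.foldl (fun x j => x * v j) (v i) := by
  rw [ev, pwd]
  simp [MonoidAlgebra.liftMagma, FreeSemigroup.lift]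

@[simp] theorem ev_X {R : Type u} [NonUnitalRing R] (v : ℕ → R) (i : ℕ) : ev v (X i) = v i := by
  rw [X, ev_pwd]; rfl

theorem pwd_mul (i : ℕ) (l : List ℕ) (j : ℕ) (l' : List ℕ) :
    pwd i l * pwd j l' = pwd i (l ++ j :: l') := by
  rw [pwd, pwd, pwd, MonoidAlgebra.single_mul_single, one_mul]
  rfl

theorem pwd_append_single (i : ℕ) (l : List ℕ) (j : ℕ) :
    pwd i (l ++ [j]) = pwd i l * X j := by
  rw [X, pwd_mul]

theorem mem_closure_pwd (f : Poly) :
    f ∈ AddSubgroup.closure {g | ∃ i l, g = pwd i l} := by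
  induction f using MonoidAlgebra.induction_linear with
  | zero => exact zero_mem _
  | add f g hf hg => exact add_mem hf hg
  | single w c =>
    have : MonoidAlgebra.single w c = c • pwd w.head w.tail := by
      rw [pwd, MonoidAlgebra.smul_single]
      simp
    rw [this]
    have h : pwd w.head w.tail ∈ AddSubgroup.closure {g | ∃ i l, g = pwd i l} :=
      AddSubgroup.subset_closure ⟨w.head, w.tail, rfl⟩
    exact zsmul_mem h c

/-- Induction on polynomials by words. -/
theorem poly_induction {P : Poly → Prop} (h0 : P 0) (hadd : ∀ f g, P f → P g → P (f + g))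
    (hneg : ∀ f, P f → P (-f)) (hw : ∀ i l, P (pwd i l)) (f : Poly) : P f := by
  induction mem_closure_pwd f using AddSubgroup.closure_induction with
  | mem x hx => obtain ⟨i, l, rfl⟩ := hx; exact hw i l
  | zero => exact h0
  | add f g _ _ hf hg => exact hadd f g hf hg
  | neg f _ hf => exact hneg f hf

/-- Induction on polynomials by variables. -/
theorem poly_induction' {P : Poly → Prop} (h0 : P 0) (hadd : ∀ f g, P f → P g → P (f + g))
    (hneg : ∀ f, P f → P (-f)) (hmul : ∀ f g, P f → P g → P (f * g)) (hX : ∀ i, P (X i))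
    (f : Poly) : P f := by
  refine poly_induction h0 hadd hneg ?_ f
  intro i l
  induction l using List.reverseRecOn with
  | nil => exact hX i
  | append_singleton l j ih => rw [pwd_append_single]; exact hmul _ _ ih (hX j)

theorem map_ev {R : Type u} [NonUnitalRing R] {R' : Type*} [NonUnitalRing R'] (φ : R →ₙ+* R')
    (v : ℕ → R) (f : Poly) : φ (ev v f) = ev (fun i => φ (v i)) f := by
  induction f using poly_induction' with
  | h0 => simp
  | hadd f g hf hg => simp only [map_add, hf, hg]
  | hneg f hf => simp only [map_neg, hf]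
  | hmul f g hf hg => simp only [map_mul, hf, hg]
  | hX i => simp

theorem ev_ev {R : Type u} [NonUnitalRing R] (v : ℕ → R) (w : ℕ → Poly) (f : Poly) :
    ev v (ev w f) = ev (fun i => ev v (w i)) f := by
  induction f using poly_induction' with
  | h0 => simp
  | hadd f g hf hg => simp only [map_add, hf, hg]
  | hneg f hf => simp only [map_neg, hf]
  | hmul f g hf hg => simp only [map_mul, hf, hg]
  | hX i => simp

theorem ev_X_self (f : Poly) : ev X f = f := by
  induction f using poly_induction' with
  | h0 => simp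
  | hadd f g hf hg => simp only [map_add, hf, hg]
  | hneg f hf => simp only [map_neg, hf]
  | hmul f g hf hg => simp only [map_mul, hf, hg]
  | hX i => simp

/-- Only finitely many variables matter. -/
theorem exists_vars (f : Poly) : ∃ m : ℕ, ∀ (R : Type u) [NonUnitalRing R] (v v' : ℕ → R),
    (∀ i < m, v i = v' i) → ev v f = ev v' f := by
  induction f using poly_induction' with
  | h0 => exact ⟨0, fun R _ v v' _ => by simp⟩
  | hadd f g hf hg =>
    obtain ⟨m, hm⟩ := hf
    obtain ⟨m', hm'⟩ := hg
    refine ⟨max m m', fun R _ v v' h => ?_⟩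
    rw [map_add, map_add, hm R v v' (fun i hi => h i (lt_max_of_lt_left hi)),
      hm' R v v' (fun i hi => h i (lt_max_of_lt_right hi))]
  | hneg f hf =>
    obtain ⟨m, hm⟩ := hf
    exact ⟨m, fun R _ v v' h => by rw [map_neg, map_neg, hm R v v' h]⟩
  | hmul f g hf hg =>
    obtain ⟨m, hm⟩ := hf
    obtain ⟨m', hm'⟩ := hg
    refine ⟨max m m', fun R _ v v' h => ?_⟩
    rw [map_mul, map_mul, hm R v v' (fun i hi => h i (lt_max_of_lt_left hi)),
      hm' R v v' (fun i hi => h i (lt_max_of_lt_right hi))]
  | hX i => exact ⟨i + 1, fun R _ v v' h => by rw [ev_X, ev_X]; exact h i (Nat.lt_succ_self i)⟩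

theorem foldl_mul_prod {A : Type*} [Ring A] (v : ℕ → A) (i : ℕ) (l : List ℕ) :
    l.foldl (fun x j => x * v j) (v i) = ((i :: l).map v).prod := by
  induction l using List.reverseRecOn with
  | nil => simp
  | append_singleton l j ih =>
    rw [List.foldl_append, ih]
    simp [mul_assoc]

theorem mpow_succ {R : Type u} [NonUnitalRing R] (x : R) {k : ℕ} (hk : 1 ≤ k) :
    mpow x (k + 1) = mpow x k * x := by
  cases k with
  | zero => omega
  | succ k => rfl

theorem mpow_eq_pow {A : Type u} [Ring A] (x : A) {k : ℕ} (hk : 1 ≤ k) : mpow x k = x ^ k := by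
  induction k, hk using Nat.le_induction with
  | base => simp [mpow]
  | succ k hk ih => rw [mpow_succ x hk, ih, pow_succ]

theorem map_mpow {R : Type u} [NonUnitalRing R] {R' : Type*} [NonUnitalRing R'] (φ : R →ₙ+* R')
    (x : R) (k : ℕ) : φ (mpow x k) = mpow (φ x) k := by
  rcases Nat.eq_zero_or_pos k with rfl | hk
  · rfl
  induction k, hk using Nat.le_induction with
  | base => rfl
  | succ k hk ih => rw [mpow_succ x hk, mpow_succ _ hk, map_mul, ih]

theorem mpow_three {R : Type u} [NonUnitalRing R] (x : R) : mpow x 3 = x * x * x := rfl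

/-- T-ideals. -/
structure IsTIdeal (N : AddSubgroup Poly) : Prop where
  left : ∀ a, ∀ f ∈ N, a * f ∈ N
  right : ∀ a, ∀ f ∈ N, f * a ∈ N
  subst : ∀ v : ℕ → Poly, ∀ f ∈ N, ev v f ∈ N

end Pool.Agent.Work.MP_f5ed0a_al
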