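import Pool.Agent.Work.MP_f5ed0a_al.FiniteRing2
import Pool.Agent.Work.MP_f5ed0a_al.LocFin
import Pool.Agent.Work.MP_f5ed0a_al.Coloured

set_option autoImplicit false

universe u

namespace Pool.Agent.Work.MP_f5ed0a_al

/-- The quotient of a nonunital ring by an ideal. -/
theorem exists_quotient {F : Type u} [NonUnitalRing F] (N : AddSubgroup F)
    (hl : ∀ a, ∀ f ∈ N, a * f ∈ N) (hr : ∀ a, ∀ f ∈ N, f * a ∈ N) :
    ∃ (Q : Type u) (_ : NonUnitalRing Q) (π : F →ₙ+* Q), Function.Surjective π ∧
      ∀ f, π f = 0 ↔ f ∈ N := by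
  let I : TwoSidedIdeal F := TwoSidedIdeal.mk' (N : Set F) N.zero_mem
    (fun hx hy => N.add_mem hx hy) (fun hx => N.neg_mem hx) (fun hy => hl _ _ hy)
    (fun hx => hr _ _ hx)
  refine ⟨I.ringCon.Quotient, inferInstance,
    { toFun := fun x => (x : I.ringCon.Quotient)
      map_zero' := rfl
      map_add' := fun _ _ => rfl
      map_mul' := fun _ _ => rfl }, ?_, ?_⟩
  · intro x
    obtain ⟨y, hy⟩ := Quotient.exists_rep x
    exact ⟨y, hy⟩
  · intro f
    have h1 : f ∈ I ↔ f ∈ N := by
      simp only [I]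
      exact TwoSidedIdeal.mem_mk' _ _ _ _ _ _ _
    rw [← h1, TwoSidedIdeal.mem_iff]
    exact Quotient.eq (r := I.ringCon.toSetoid) (x := f) (y := 0)

/-- The quotient of a unital ring by an ideal. -/
theorem exists_quotient_ring {F : Type u} [Ring F] (N : AddSubgroup F)
    (hl : ∀ a, ∀ f ∈ N, a * f ∈ N) (hr : ∀ a, ∀ f ∈ N, f * a ∈ N) :
    ∃ (Q : Type u) (_ : Ring Q) (π : F →+* Q), Function.Surjective π ∧
      ∀ f, π f = 0 ↔ f ∈ N := by
  let I : TwoSidedIdeal F := TwoSidedIdeal.mk' (N : Set F) N.zero_mem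
    (fun hx hy => N.add_mem hx hy) (fun hx => N.neg_mem hx) (fun hy => hl _ _ hy)
    (fun hx => hr _ _ hx)
  refine ⟨I.ringCon.Quotient, inferInstance,
    { toFun := fun x => (x : I.ringCon.Quotient)
      map_zero' := rfl
      map_one' := rfl
      map_add' := fun _ _ => rfl
      map_mul' := fun _ _ => rfl }, ?_, ?_⟩
  · intro x
    obtain ⟨y, hy⟩ := Quotient.exists_rep x
    exact ⟨y, hy⟩
  · intro f
    have h1 : f ∈ I ↔ f ∈ N := by
      simp only [I]
      exact TwoSidedIdeal.mem_mk' _ _ _ _ _ _ _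
    rw [← h1, TwoSidedIdeal.mem_iff]
    exact Quotient.eq (r := I.ringCon.toSetoid) (x := f) (y := 0)

theorem satisfies_quotient {N : AddSubgroup Poly} (hN : IsTIdeal N) {Q : Type} [NonUnitalRing Q]
    (π : Poly →ₙ+* Q) (hπ : Function.Surjective π) (hker : ∀ f, π f = 0 ↔ f ∈ N) (g : Poly)
    (hg : g ∈ N) : Satisfies Q g := by
  intro v
  choose w hw using fun i => hπ (v i)
  have h1 := map_ev π w g
  have h2 : (fun i => π (w i)) = v := by funext i; exact hw i
  rw [h2] at h1
  rw [← h1, hker]
  exact hN.subst w g hg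

/-- The unitization, with a single ring structure. -/
def UU (R : Type u) [NonUnitalRing R] : Type u := Unitization ℤ R

instance (R : Type u) [NonUnitalRing R] : Ring (UU R) := inferInstanceAs (Ring (Unitization ℤ R))

/-- The scalar component. -/
def UU.fst {R : Type u} [NonUnitalRing R] (z : UU R) : ℤ := (Unitization.toProd z).1

/-- The ring component. -/
def UU.snd {R : Type u} [NonUnitalRing R] (z : UU R) : R := (Unitization.toProd z).2

theorem UU.fst_add {R : Type u} [NonUnitalRing R] (z w : UU R) :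
    (z + w).fst = z.fst + w.fst := Unitization.fst_add _ _

theorem UU.snd_add {R : Type u} [NonUnitalRing R] (z w : UU R) :
    (z + w).snd = z.snd + w.snd := Unitization.snd_add _ _

theorem UU.fst_neg {R : Type u} [NonUnitalRing R] (z : UU R) :
    (-z).fst = -z.fst := Unitization.fst_neg _

theorem UU.snd_neg {R : Type u} [NonUnitalRing R] (z : UU R) :
    (-z).snd = -z.snd := Unitization.snd_neg _

theorem UU.fst_zero {R : Type u} [NonUnitalRing R] : (0 : UU R).fst = 0 := rfl

theorem UU.snd_zero {R : Type u} [NonUnitalRing R] : (0 : UU R).snd = 0 := rfl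

theorem UU.fst_mul {R : Type u} [NonUnitalRing R] (z w : UU R) :
    (z * w).fst = z.fst * w.fst := Unitization.fst_mul _ _

theorem UU.snd_mul {R : Type u} [NonUnitalRing R] (z w : UU R) :
    (z * w).snd = z.fst • w.snd + w.fst • z.snd + z.snd * w.snd := Unitization.snd_mul _ _

/-- The canonical embedding in the unitization. -/
def inrU (R : Type u) [NonUnitalRing R] : R →ₙ+* UU R where
  toFun := fun x => (Unitization.inr x : Unitization ℤ R)
  map_zero' := Unitization.inr_zero _
  map_add' := fun x y => Unitization.inr_add _ x y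
  map_mul' := fun x y => Unitization.inr_mul _ x y

theorem inrU_injective (R : Type u) [NonUnitalRing R] : Function.Injective (inrU R) :=
  Unitization.inr_injective

theorem fst_inrU {R : Type u} [NonUnitalRing R] (x : R) : (inrU R x).fst = 0 :=
  Unitization.fst_inr _ _

theorem snd_inrU {R : Type u} [NonUnitalRing R] (x : R) : (inrU R x).snd = x :=
  Unitization.snd_inr _ _

theorem inrU_mpow {R : Type u} [NonUnitalRing R] (x : R) {k : ℕ} (hk : 1 ≤ k) :
    inrU R (mpow x k) = inrU R x ^ k := by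
  induction k, hk using Nat.le_induction with
  | base => simp [mpow]
  | succ k hk ih => rw [mpow_succ x hk, map_mul, ih, pow_succ]

/-- Local finiteness, for rings without identity element. -/
theorem locally_finite_nu {n : ℕ} (hn : 4 ≤ n) {p : ℕ} (hp : 0 < p) {R : Type u}
    [NonUnitalRing R] (hR : ∀ x : R, mpow x 3 = mpow x n) (hpR : ∀ x : R, p • x = 0) {d : ℕ}
    (a : Fin d → R) : (NonUnitalSubring.closure (Set.range a) : Set R).Finite := by
  have hmem : ∀ x ∈ NonUnitalSubring.closure (Set.range (fun i => inrU R (a i))),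
      ∃ r : R, x = inrU R r := by
    intro x hx
    induction hx using NonUnitalSubring.closure_induction with
    | mem x hx => obtain ⟨i, rfl⟩ := hx; exact ⟨a i, rfl⟩
    | zero => exact ⟨0, by simp⟩
    | add x y _ _ hx hy =>
      obtain ⟨r, rfl⟩ := hx
      obtain ⟨s, rfl⟩ := hy
      exact ⟨r + s, by simp⟩
    | neg x _ hx =>
      obtain ⟨r, rfl⟩ := hx
      exact ⟨-r, by simp⟩
    | mul x y _ _ hx hy =>
      obtain ⟨r, rfl⟩ := hx
      obtain ⟨s, rfl⟩ := hy
      exact ⟨r * s, by simp⟩
  have h1 := locally_finite hn hp (fun i => inrU R (a i))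
    (by
      intro x hx
      obtain ⟨r, rfl⟩ := hmem x hx
      rw [← inrU_mpow r (by norm_num : 1 ≤ 3), ← inrU_mpow r (by omega : 1 ≤ n), hR])
    (by
      intro x hx
      obtain ⟨r, rfl⟩ := hmem x hx
      rw [← map_nsmul, hpR, map_zero])
  have h2 : (NonUnitalSubring.closure (Set.range a) : Set R) ⊆
      inrU R ⁻¹' (NonUnitalSubring.closure (Set.range (fun i => inrU R (a i))) : Set _) := by
    intro x hx
    change inrU R x ∈ NonUnitalSubring.closure _
    change x ∈ NonUnitalSubring.closure _ at hx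
    induction hx using NonUnitalSubring.closure_induction with
    | mem x hx =>
      obtain ⟨i, rfl⟩ := hx
      exact NonUnitalSubring.subset_closure ⟨i, rfl⟩
    | zero => rw [map_zero]; exact zero_mem _
    | add x y _ _ hx hy => rw [map_add]; exact add_mem hx hy
    | neg x _ hx => rw [map_neg]; exact neg_mem hx
    | mul x y _ _ hx hy => rw [map_mul]; exact mul_mem hx hy
  exact (h1.preimage (inrU_injective R).injOn).subset h2

/-- Identities of the rings satisfying `N`. -/
theorem mpow_of_satisfies {N : AddSubgroup Poly} {n : ℕ}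
    (hcube : ∀ f : Poly, mpow f 3 - mpow f n ∈ N) {R : Type u} [NonUnitalRing R]
    (hR : ∀ g ∈ N, Satisfies R g) (x : R) : mpow x 3 = mpow x n := by
  have h1 := hR _ (hcube (X 0)) (fun _ => x)
  rw [map_sub] at h1
  have h2 : ∀ k, ev (fun _ => x) (mpow (X 0) k) = mpow x k := by
    intro k
    rcases Nat.eq_zero_or_pos k with rfl | hk
    · simp [mpow]
    induction k, hk using Nat.le_induction with
    | base => simp [mpow]
    | succ k hk ih => rw [mpow_succ _ hk, mpow_succ _ hk, map_mul, ih, ev_X]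
  rw [h2, h2] at h1
  exact sub_eq_zero.1 h1

theorem torsion_of_satisfies {N : AddSubgroup Poly} {p : ℕ}
    (hp : ∀ f : Poly, p • f ∈ N) {R : Type u} [NonUnitalRing R]
    (hR : ∀ g ∈ N, Satisfies R g) (x : R) : p • x = 0 := by
  have h1 := hR _ (hp (X 0)) (fun _ => x)
  rw [map_nsmul, ev_X] at h1
  exact h1

theorem satisfies_subring {R : Type u} [NonUnitalRing R] (S : NonUnitalSubring R) (g : Poly)
    (h : Satisfies R g) : Satisfies S g := by
  intro v
  have h1 := map_ev (NonUnitalSubringClass.subtype S) v g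
  rw [h] at h1
  exact Subtype.ext h1

theorem exists_min_ring {n : ℕ} (hn : 4 ≤ n) {p : ℕ} [Fact p.Prime] (N : AddSubgroup Poly)
    (hN : IsTIdeal N) (hcube : ∀ f : Poly, mpow f 3 - mpow f n ∈ N)
    (hpN : ∀ f : Poly, p • f ∈ N) (f : Poly) (hf : f ∉ N) :
    ∃ (R : Type) (_ : NonUnitalRing R), (∀ g ∈ N, Satisfies R g) ∧ ¬ Satisfies R f ∧
      ∃ J : AddSubgroup R, (∀ a, ∀ x ∈ J, a * x ∈ J) ∧ (∀ a, ∀ x ∈ J, x * a ∈ J) ∧
      (∀ x ∈ J, x * x * x = 0) ∧ ∃ E : Fin ((n ^ 9) ^ 3) → R, ∀ r, ∃ i, r - E i ∈ J := by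
  classical
  have hppos : 0 < p := (Fact.out : p.Prime).pos
  let P : ℕ → Prop := fun c => ∃ (R : Type) (_ : NonUnitalRing R) (_ : Finite R), Nat.card R = c ∧
    (∀ g ∈ N, Satisfies R g) ∧ ¬ Satisfies R f
  have hex : ∃ c, P c := by
    obtain ⟨Q, hQ, π, hπ, hker⟩ := exists_quotient N hN.left hN.right
    have hsat : ∀ g ∈ N, Satisfies Q g := fun g hg => satisfies_quotient hN π hπ hker g hg
    obtain ⟨m, hm⟩ := exists_vars f
    have hfin := locally_finite_nu hn hppos (mpow_of_satisfies hcube hsat)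
      (torsion_of_satisfies hpN hsat) (fun i : Fin m => π (X i))
    set S := NonUnitalSubring.closure (Set.range (fun i : Fin m => π (X i))) with hS
    have hfinS : Finite S := hfin.to_subtype
    refine ⟨Nat.card S, S, inferInstance, hfinS, rfl, fun g hg => satisfies_subring S g (hsat g hg),
      ?_⟩
    intro hcon
    let v : ℕ → S := fun i => if h : i < m then
      ⟨π (X i), NonUnitalSubring.subset_closure ⟨⟨i, h⟩, rfl⟩⟩ else 0
    have h1 := hcon v
    have h2 := map_ev (NonUnitalSubringClass.subtype S) v f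
    rw [h1, map_zero] at h2
    have h3 : ev (fun i => NonUnitalSubringClass.subtype S (v i)) f = ev (fun i => π (X i)) f := by
      apply hm
      intro i hi
      simp only [v, dif_pos hi]
      rfl
    rw [h3, ← map_ev π X f, ev_X_self] at h2
    exact hf ((hker f).1 h2.symm)
  obtain ⟨R, hR, hRfin, hRc, hRN, hRf⟩ := Nat.find_spec hex
  refine ⟨R, hR, hRN, hRf, ?_⟩
  refine finite_ring hn (p := p) (torsion_of_satisfies hpN hRN) (mpow_of_satisfies hcube hRN) f hRf
    ?_
  intro S hS
  by_contra hcon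
  have h1 : P (Nat.card S) := ⟨S, inferInstance, inferInstance, rfl,
    fun g hg => satisfies_subring S g (hRN g hg), hcon⟩
  have h2 := Nat.find_min' hex h1
  rw [← hRc] at h2
  apply hS
  rw [eq_top_iff]
  intro x _
  by_contra hx
  have h3 : Nat.card S < Nat.card R := by
    refine Finite.card_subtype_lt (p := fun y => y ∈ S) hx
  omega

end Pool.Agent.Work.MP_f5ed0a_al
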