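import Mathlib

set_option autoImplicit false

namespace Pool.Agent.Work.MP_f5ed0a_al

section period

variable {α : Type*}

/-- The factor of length `l` at position `i` of an infinite word. -/
def wd (s : ℕ → α) (l i : ℕ) : List α := (List.range l).map (fun r => s (i + r))

@[simp] theorem wd_length (s : ℕ → α) (l i : ℕ) : (wd s l i).length = l := by simp [wd]

theorem wd_zero (s : ℕ → α) (i : ℕ) : wd s 0 i = [] := rfl

theorem wd_succ (s : ℕ → α) (l i : ℕ) : wd s (l + 1) i = wd s l i ++ [s (i + l)] := by
  simp [wd, List.range_succ]

theorem wd_succ' (s : ℕ → α) (l i : ℕ) : wd s (l + 1) i = s i :: wd s l (i + 1) := by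
  simp only [wd, List.range_succ_eq_map, List.map_cons, List.map_map, Nat.add_zero]
  congr 1
  apply List.map_congr_left
  intro r _
  simp only [Function.comp]
  congr 1
  omega

theorem wd_add (s : ℕ → α) (l m i : ℕ) : wd s (l + m) i = wd s l i ++ wd s m (i + l) := by
  induction l generalizing i with
  | zero => simp [wd_zero]
  | succ l ih =>
    have e : l + 1 + m = (l + m) + 1 := by omega
    rw [e, wd_succ', wd_succ', ih]
    have e2 : i + 1 + l = i + (l + 1) := by omega
    rw [e2]
    rfl

theorem wd_congr {s t : ℕ → α} {l i j : ℕ} (h : ∀ r, r < l → s (i + r) = t (j + r)) :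
    wd s l i = wd t l j := by
  apply List.map_congr_left
  intro r hr
  exact h r (List.mem_range.1 hr)

theorem wd_inj {s : ℕ → α} {l i j : ℕ} (h : wd s l i = wd s l j) :
    ∀ r, r < l → s (i + r) = s (j + r) := by
  intro r hr
  have := congrArg (fun w => w[r]?) h
  simpa [wd, hr] using this

theorem exists_period [DecidableEq α] (s : ℕ → α) (n R : ℕ) (_ : 1 ≤ n) (hR : n ≤ R)
    (h : ((Finset.range R).image (wd s n)).card < n) :
    ∃ i π, 1 ≤ π ∧ i + π < n ∧ ∀ m, i ≤ m → m + π < R → s m = s (m + π) := by
  let p : ℕ → ℕ := fun l => ((Finset.range R).image (wd s l)).card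
  have himg : ∀ l, (Finset.range R).image (wd s l) =
      ((Finset.range R).image (wd s (l + 1))).image (fun w => w.take l) := by
    intro l
    rw [Finset.image_image]
    apply Finset.image_congr
    intro i _
    simp [Function.comp, wd_succ]
  have hmono : ∀ l, p l ≤ p (l + 1) := by
    intro l
    show ((Finset.range R).image (wd s l)).card ≤ _
    rw [himg l]
    exact Finset.card_image_le
  have h0 : p 0 = 1 := by
    show ((Finset.range R).image (wd s 0)).card = 1
    rw [Finset.card_eq_one]
    refine ⟨[], ?_⟩
    ext w
    simp only [Finset.mem_image, Finset.mem_range, wd_zero, Finset.mem_singleton]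
    constructor
    · rintro ⟨_, _, rfl⟩; rfl
    · rintro rfl; exact ⟨0, by omega, rfl⟩
  have hex : ∃ l, l < n ∧ p l = p (l + 1) := by
    by_contra hcon
    push Not at hcon
    have hgrow : ∀ l, l ≤ n → l + 1 ≤ p l := by
      intro l
      induction l with
      | zero => intro _; omega
      | succ l ih =>
        intro hl
        have h1 := ih (by omega)
        have h2 := hmono l
        have h3 := hcon l (by omega)
        omega
    have := hgrow n le_rfl
    have h' : p n < n := h
    omega
  obtain ⟨l, hl, hpl⟩ := hex
  have hpl_lt : p l < n := by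
    have : ∀ k, p l ≤ p (l + k) := by
      intro k
      induction k with
      | zero => exact le_rfl
      | succ k ih => exact ih.trans (hmono _)
    have h1 := this (n - l)
    rw [Nat.add_sub_cancel' hl.le] at h1
    exact lt_of_le_of_lt h1 h
  have hinj : ∀ i j, i < R → j < R → wd s l i = wd s l j → wd s (l + 1) i = wd s (l + 1) j := by
    have h1 : (((Finset.range R).image (wd s (l + 1))).image (fun w => w.take l)).card =
        ((Finset.range R).image (wd s (l + 1))).card := by
      rw [← himg l]
      exact hpl
    rw [Finset.card_image_iff] at h1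
    intro i j hi hj hij
    apply h1
    · simp only [Finset.coe_image, Set.mem_image, Finset.coe_range, Set.mem_Iio]
      exact ⟨i, hi, rfl⟩
    · simp only [Finset.coe_image, Set.mem_image, Finset.coe_range, Set.mem_Iio]
      exact ⟨j, hj, rfl⟩
    · simpa [wd_succ] using hij
  -- pigeonhole
  have hpig : ∃ i j, i < j ∧ j < n ∧ wd s l i = wd s l j := by
    have hmaps : ∀ i ∈ Finset.range n, wd s l i ∈ (Finset.range R).image (wd s l) := by
      intro i hi
      exact Finset.mem_image_of_mem _ (Finset.mem_range.2 (lt_of_lt_of_le (Finset.mem_range.1 hi) hR))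
    obtain ⟨i, hi, j, hj, hne, hij⟩ := Finset.exists_ne_map_eq_of_card_lt_of_maps_to
      (by rw [Finset.card_range]; exact hpl_lt) hmaps
    rcases lt_or_gt_of_ne hne with h | h
    · exact ⟨i, j, h, Finset.mem_range.1 hj, hij⟩
    · exact ⟨j, i, h, Finset.mem_range.1 hi, hij.symm⟩
  obtain ⟨i, j, hij, hjn, hw⟩ := hpig
  have hstep : ∀ k, j + k < R → wd s l (i + k) = wd s l (j + k) := by
    intro k
    induction k with
    | zero => intro _; exact hw
    | succ k ih =>
      intro hk
      have h1 := hinj (i + k) (j + k) (by omega) (by omega) (ih (by omega))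
      rw [wd_succ', wd_succ'] at h1
      have h2 := (List.cons.inj h1).2
      exact h2
  refine ⟨i, j - i, by omega, by omega, ?_⟩
  intro m hm hmR
  -- the position `m` is `i + k`
  obtain ⟨k, rfl⟩ := Nat.exists_eq_add_of_le hm
  have e : i + k + (j - i) = j + k := by omega
  rw [e] at hmR ⊢
  by_cases hkl : k < l
  · exact wd_inj hw k hkl
  · obtain ⟨r, rfl⟩ := Nat.exists_eq_add_of_le (not_lt.1 hkl)
    have h1 := hinj (i + r) (j + r) (by omega) (by omega) (hstep r (by omega))
    have h2 := wd_inj h1 l (by omega)
    have e1 : i + (l + r) = i + r + l := by omega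
    have e2 : j + (l + r) = j + r + l := by omega
    rw [e1, e2]
    exact h2

theorem wd_periodic (s : ℕ → α) (π i k : ℕ) (h : ∀ m, i ≤ m → m + π < i + k * π → s m = s (m + π)) :
    wd s (k * π) i = (List.replicate k (wd s π i)).flatten := by
  induction k with
  | zero => simp [wd_zero]
  | succ k ih =>
    have e : (k + 1) * π = π + k * π := by ring
    rw [e, wd_add, List.replicate_succ, List.flatten_cons]
    congr 1
    rw [← ih (fun m hm hmk => h m hm (by rw [e]; omega))]
    apply wd_congr
    intro r hr
    have := h (i + r) (by omega) (by rw [e]; omega)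
    rw [this]
    congr 1
    omega

theorem wd_getD (w : List α) (d : α) {l i : ℕ} (h : i + l ≤ w.length) :
    wd (fun j => w.getD j d) l i = (w.drop i).take l := by
  apply List.ext_getElem
  · simp; omega
  · intro r h1 h2
    simp only [wd, List.getElem_map, List.getElem_range, List.getElem_take, List.getElem_drop]
    rw [List.getD_eq_getElem]

/-- A long block contains a power, or many different factors of length `n`. -/
theorem block [DecidableEq α] (n : ℕ) (hn : 1 ≤ n) (w : List α) (hw : w.length = n * n + 2 * n) :
    (∃ u v u', v ≠ [] ∧ w = u ++ (List.replicate n v).flatten ++ u') ∨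
    (∃ T : Finset (List α), T.card = n ∧ ∀ x ∈ T, x.length = n ∧ x <:+: w) := by
  have hne : w ≠ [] := by
    rintro rfl
    simp at hw
    omega
  obtain ⟨d, _⟩ := List.exists_mem_of_ne_nil w hne
  let s : ℕ → α := fun j => w.getD j d
  let R := n * n + n + 1
  by_cases h : ((Finset.range R).image (wd s n)).card < n
  · left
    obtain ⟨i, π, hπ, hi, hper⟩ := exists_period s n R hn (by simp only [R]; nlinarith) h
    have hlen : i + n * π ≤ n * n + n := by nlinarith
    refine ⟨w.take i, (w.drop i).take π, w.drop (i + n * π), ?_, ?_⟩
    · intro hcon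
      have := congrArg List.length hcon
      simp at this
      have hnn : n ≤ n * n := Nat.le_mul_self n
      rcases this with h | h <;> omega
    · have h1 : wd s π i = (w.drop i).take π := wd_getD w d (by nlinarith)
      have h2 : wd s (n * π) i = (w.drop i).take (n * π) := wd_getD w d (by omega)
      have h3 := wd_periodic s π i n (fun m hm hmk => hper m hm (by simp only [R]; omega))
      rw [h1, h2] at h3
      rw [← h3, List.append_assoc]
      conv_lhs => rw [← List.take_append_drop i w, ← List.take_append_drop (n * π) (w.drop i)]
      rw [List.drop_drop]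
  · right
    rw [not_lt] at h
    obtain ⟨T, hT, hcard⟩ := Finset.exists_subset_card_eq h
    refine ⟨T, hcard, ?_⟩
    intro x hx
    have hx' := hT hx
    rw [Finset.mem_image] at hx'
    obtain ⟨i, hi, rfl⟩ := hx'
    refine ⟨by simp, ?_⟩
    have hi' : i + n ≤ w.length := by
      rw [Finset.mem_range] at hi
      simp only [R] at hi
      omega
    rw [wd_getD w d hi']
    exact (List.take_prefix _ _).isInfix.trans (List.drop_suffix _ _).isInfix

end period

section chain

variable {α : Type*}

/-- The words of `xs` occur in `w` in this order at disjoint places. -/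
def HasChain : List (List α) → List α → Prop
  | [], _ => True
  | x :: xs, w => ∃ u t, w = u ++ x ++ t ∧ HasChain xs t

theorem HasChain.append_left {xs : List (List α)} {w : List α} (h : HasChain xs w) (u : List α) :
    HasChain xs (u ++ w) := by
  cases xs with
  | nil => trivial
  | cons x xs =>
    obtain ⟨u', t, rfl, ht⟩ := h
    exact ⟨u ++ u', t, by simp, ht⟩

theorem hasChain_of_sublist {fs bs : List (List α)} (h : fs.Sublist bs) :
    ∀ (xs : List (List α)) (r : List α), xs.length ≤ fs.length →
      (∀ x ∈ xs, ∀ b ∈ fs, x <:+: b) → HasChain xs (bs.flatten ++ r) := by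
  induction h with
  | slnil =>
    intro xs r hlen _
    have : xs = [] := List.length_eq_zero_iff.1 (by simpa using hlen)
    subst this
    trivial
  | cons b _ ih =>
    intro xs r hlen hx
    have := (ih xs r hlen hx).append_left b
    simpa using this
  | cons_cons b _ ih =>
    intro xs r hlen hx
    cases xs with
    | nil => trivial
    | cons x xs =>
      obtain ⟨s, t, hst⟩ := hx x (by simp) b (by simp)
      refine ⟨s, t ++ _, ?_, (ih xs r (by simpa using hlen) ?_).append_left t⟩
      · rw [List.flatten_cons, ← hst]
        simp
      · intro y hy b' hb'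
        exact hx y (by simp [hy]) b' (by simp [hb'])

theorem HasChain.decomp {xs : List (List α)} {w : List α} (h : HasChain xs w) :
    ∃ u, ∃ ts : List (List α), ts.length = xs.length ∧
      w = u ++ (List.zipWith (· ++ ·) xs ts).flatten := by
  induction xs generalizing w with
  | nil => exact ⟨w, [], rfl, by simp⟩
  | cons x xs ih =>
    obtain ⟨u, t, rfl, ht⟩ := h
    obtain ⟨u', ts, hlen, rfl⟩ := ih ht
    refine ⟨u, u' :: ts, by simp [hlen], ?_⟩
    simp

theorem exists_fiber {β : Type*} {τ : Type*} [DecidableEq τ] (S : Finset τ) (f : β → τ) (n : ℕ)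
    (l : List β) (hf : ∀ b ∈ l, f b ∈ S) (h : S.card * n < l.length) :
    ∃ T ∈ S, n < (l.filter (fun b => f b = T)).length := by
  by_contra hcon
  push Not at hcon
  have h1 : l.length = ∑ T ∈ S, (l.filter (fun b => f b = T)).length := by
    clear h hcon
    induction l with
    | nil => simp
    | cons b l ih =>
      rw [List.length_cons, ih (fun b' hb' => hf b' (by simp [hb']))]
      have h2 : ∀ T, ((b :: l).filter (fun b => f b = T)).length =
          (l.filter (fun b => f b = T)).length + if T = f b then 1 else 0 := by
        intro T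
        by_cases h : f b = T
        · subst h; simp
        · simp [h, Ne.symm h]
      simp only [h2]
      rw [Finset.sum_add_distrib, Finset.sum_ite_eq' S (f b)]
      simp [hf b (by simp)]
  have h2 : ∑ T ∈ S, (l.filter (fun b => f b = T)).length ≤ ∑ _T ∈ S, n :=
    Finset.sum_le_sum hcon
  rw [Finset.sum_const, smul_eq_mul, ← h1] at h2
  omega

end chain

section num

/-- The number with the given digits, most significant first. -/
def num {d : ℕ} : List (Fin d) → ℕ
  | [] => 0
  | x :: l => x.val * d ^ l.length + num l

theorem num_lt {d : ℕ} (l : List (Fin d)) : num l < d ^ l.length := by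
  induction l with
  | nil => simp [num]
  | cons x l ih =>
    simp only [num, List.length_cons, pow_succ]
    have := x.2
    have h1 : (x.val + 1) * d ^ l.length ≤ d * d ^ l.length := Nat.mul_le_mul_right _ this
    rw [Nat.add_mul] at h1
    rw [mul_comm (d ^ l.length) d]
    omega

theorem num_append {d : ℕ} (u v : List (Fin d)) : num (u ++ v) = num u * d ^ v.length + num v := by
  induction u with
  | nil => simp [num]
  | cons x u ih =>
    simp only [List.cons_append, num, ih, List.length_append, pow_add]
    ring

theorem num_inj {d : ℕ} {u v : List (Fin d)} (hl : u.length = v.length) (h : num u = num v) :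
    u = v := by
  induction u generalizing v with
  | nil =>
    cases v with
    | nil => rfl
    | cons y v => simp at hl
  | cons x u ih =>
    cases v with
    | nil => simp at hl
    | cons y v =>
      simp only [List.length_cons, Nat.add_right_cancel_iff] at hl
      simp only [num, hl] at h
      have h1 := num_lt u
      have h2 := num_lt v
      rw [hl] at h1
      have hxy : x.val = y.val := by
        rcases lt_trichotomy x.val y.val with h3 | h3 | h3
        · exfalso
          have : (x.val + 1) * d ^ v.length ≤ y.val * d ^ v.length := Nat.mul_le_mul_right _ h3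
          rw [Nat.add_mul] at this
          omega
        · exact h3
        · exfalso
          have : (y.val + 1) * d ^ v.length ≤ x.val * d ^ v.length := Nat.mul_le_mul_right _ h3
          rw [Nat.add_mul] at this
          omega
      have hx : x = y := Fin.ext hxy
      subst hx
      rw [ih hl (by omega)]

theorem num_lt_num {d : ℕ} {u x x' r r' : List (Fin d)} (hx : x.length = x'.length)
    (hr : r.length = r'.length) (h : num x < num x') :
    num (u ++ (x ++ r)) < num (u ++ (x' ++ r')) := by
  rw [num_append, num_append u, num_append, num_append, List.length_append, List.length_append,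
    hx, hr]
  have h1 := num_lt r
  rw [hr] at h1
  have : (num x + 1) * d ^ r'.length ≤ num x' * d ^ r'.length := Nat.mul_le_mul_right _ h
  rw [Nat.add_mul] at this
  omega

end num

/-- Cut a word into blocks. -/
theorem exists_blocks {α : Type*} (B M : ℕ) (w : List α) (h : M * B ≤ w.length) :
    ∃ bs : List (List α), bs.length = M ∧ (∀ b ∈ bs, b.length = B) ∧ ∃ r, w = bs.flatten ++ r := by
  induction M generalizing w with
  | zero => exact ⟨[], rfl, by simp, w, by simp⟩
  | succ M ih =>
    have e : (M + 1) * B = M * B + B := by ring
    rw [e] at h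
    obtain ⟨bs, h1, h2, r, h3⟩ := ih (w.drop B) (by rw [List.length_drop]; omega)
    refine ⟨w.take B :: bs, by simp [h1], ?_, r, ?_⟩
    · intro b hb
      rcases List.mem_cons.1 hb with rfl | hb
      · rw [List.length_take]; omega
      · exact h2 b hb
    · rw [List.flatten_cons, List.append_assoc, ← h3, List.take_append_drop]

/-- Shirshov's height lemma, in a weak form. -/
theorem shirshov (d n : ℕ) (hn : 1 ≤ n) : ∃ N, ∀ w : List (Fin d), N ≤ w.length →
    (∃ u v u', v ≠ [] ∧ w = u ++ (List.replicate n v).flatten ++ u') ∨
    (∃ u, ∃ x t : Fin n → List (Fin d), w = u ++ (List.ofFn (fun i => x i ++ t i)).flatten ∧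
      (∀ i, (x i).length = n) ∧ ∀ i j, i < j → num (x j) < num (x i)) := by
  classical
  -- all words of length `n`
  let Wn : Finset (List (Fin d)) := (Finset.univ : Finset (Fin n → Fin d)).image List.ofFn
  have hWn : ∀ x : List (Fin d), x.length = n → x ∈ Wn := by
    intro x hx
    subst hx
    simp only [Wn, Finset.mem_image, Finset.mem_univ, true_and]
    exact ⟨x.get, List.ofFn_get x⟩
  let 𝒯 := Wn.powerset
  let M := 𝒯.card * n + 1
  refine ⟨M * (n * n + 2 * n), ?_⟩
  intro w hw
  obtain ⟨bs, hbl, hbs, r, hr⟩ := exists_blocks (n * n + 2 * n) M w hw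
  by_cases hpow : ∃ b ∈ bs, ∃ u v u', v ≠ [] ∧ b = u ++ (List.replicate n v).flatten ++ u'
  · left
    obtain ⟨b, hb, u, v, u', hv, hbe⟩ := hpow
    obtain ⟨l1, l2, hl⟩ := List.append_of_mem hb
    refine ⟨l1.flatten ++ u, v, u' ++ l2.flatten ++ r, hv, ?_⟩
    rw [hr, hl, hbe]
    simp
  · right
    have hT : ∀ b ∈ bs, ∃ T : Finset (List (Fin d)), T.card = n ∧ ∀ x ∈ T, x.length = n ∧ x <:+: b := by
      intro b hb
      rcases block n hn b (hbs b hb) with h | h
      · exact absurd ⟨b, hb, h⟩ hpow
      · exact h
    let f : List (Fin d) → Finset (List (Fin d)) := fun b =>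
      if h : ∃ T : Finset (List (Fin d)), T.card = n ∧ ∀ x ∈ T, x.length = n ∧ x <:+: b then
        h.choose else ∅
    have hf : ∀ b ∈ bs, (f b).card = n ∧ ∀ x ∈ f b, x.length = n ∧ x <:+: b := by
      intro b hb
      simp only [f, dif_pos (hT b hb)]
      exact (hT b hb).choose_spec
    obtain ⟨T, _, hTn⟩ := exists_fiber 𝒯 f n bs
      (fun b hb => Finset.mem_powerset.2 (fun x hx => hWn x ((hf b hb).2 x hx).1))
      (by rw [hbl]; simp only [M]; omega)
    have hfs := List.filter_sublist (p := fun b => decide (f b = T)) (l := bs)
    have hne : bs.filter (fun b => f b = T) ≠ [] := by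
      intro h
      rw [h] at hTn
      simp at hTn
    obtain ⟨b0, hb0⟩ := List.exists_mem_of_ne_nil _ hne
    rw [List.mem_filter] at hb0
    have hb0T : f b0 = T := by simpa using hb0.2
    have hTcard : T.card = n := by rw [← hb0T]; exact (hf b0 hb0.1).1
    have hTlen : ∀ x ∈ T, x.length = n := by
      intro x hx
      rw [← hb0T] at hx
      exact ((hf b0 hb0.1).2 x hx).1
    -- order `T` decreasingly
    have hinj : Set.InjOn num (T : Set (List (Fin d))) := by
      intro x hx y hy hxy
      exact num_inj (by rw [hTlen x hx, hTlen y hy]) hxy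
    have hcard' : (T.image num).card = n := by
      rw [Finset.card_image_of_injOn hinj, hTcard]
    let e := (T.image num).orderEmbOfFin hcard'
    have he : ∀ i : Fin n, ∃ x ∈ T, num x = e (Fin.rev i) := by
      intro i
      have := Finset.orderEmbOfFin_mem (T.image num) hcard' (Fin.rev i)
      rw [Finset.mem_image] at this
      exact this
    choose x hxT hxe using he
    have hchain : HasChain (List.ofFn x) (bs.flatten ++ r) := by
      refine hasChain_of_sublist hfs (List.ofFn x) r ?_ ?_
      · rw [List.length_ofFn]; exact hTn.le
      · intro y hy b hb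
        rw [List.mem_ofFn] at hy
        obtain ⟨i, rfl⟩ := hy
        rw [List.mem_filter] at hb
        have hbT : f b = T := by simpa using hb.2
        have := hxT i
        rw [← hbT] at this
        exact ((hf b hb.1).2 _ this).2
    obtain ⟨u, ts, htl, hd⟩ := hchain.decomp
    rw [List.length_ofFn] at htl
    refine ⟨u, x, fun i => ts.get (i.cast htl.symm), ?_, fun i => hTlen _ (hxT i), ?_⟩
    · rw [hr, hd]
      congr 2
      apply List.ext_getElem
      · simp [htl]
      · intro i h1 h2
        simp
    · intro i j hij
      rw [hxe, hxe]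
      exact e.strictMono (Fin.rev_lt_rev.2 hij)

end Pool.Agent.Work.MP_f5ed0a_al
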