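import Mathlib

set_option autoImplicit false

namespace Pool.Agent.Work.MP_f5ed0a_al

variable {Δ : Type*}

/-- Fill a pattern with a word: the slots `none` receive the letters of the word. -/
def fill [Zero Δ] : List (Option Δ) → List Δ → List Δ
  | [], w => w
  | some δ :: ρ, w => δ :: fill ρ w
  | none :: ρ, [] => 0 :: fill ρ []
  | none :: ρ, y :: w => y :: fill ρ w

/-- Position to which the letter number `i` is moved by the pattern. -/
def slot : List (Option Δ) → ℕ → ℕ
  | [], i => i
  | some _ :: ρ, i => slot ρ i + 1
  | none :: _, 0 => 0
  | none :: ρ, i + 1 => slot ρ i + 1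

theorem slot_lt {ρ : List (Option Δ)} {i j : ℕ} (h : i < j) : slot ρ i < slot ρ j := by
  induction ρ generalizing i j with
  | nil => simpa [slot] using h
  | cons a ρ ih =>
    cases a with
    | some δ => simpa [slot] using ih h
    | none =>
      cases j with
      | zero => omega
      | succ j =>
        cases i with
        | zero => simp [slot]
        | succ i => simpa [slot] using ih (by omega)

theorem slot_strictMono (ρ : List (Option Δ)) : StrictMono (slot ρ) := fun _ _ h => slot_lt h

/-- A coding of a finite alphabet by digits. -/
structure Coding (Δ : Type*) [Zero Δ] where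
  D : ℕ
  code : Δ → ℕ
  inj : Function.Injective code
  zero : code 0 = 0
  lt : ∀ δ, code δ < D

theorem exists_coding (Δ : Type*) [Zero Δ] [Finite Δ] : Nonempty (Coding Δ) := by
  classical
  obtain ⟨n, ⟨e⟩⟩ := Finite.exists_equiv_fin Δ
  have hn : 0 < n := by
    have := (e 0).2
    omega
  let s : Fin n → Fin n := Equiv.swap (e 0) ⟨0, hn⟩
  refine ⟨⟨n, fun δ => (Equiv.swap (e 0) ⟨0, hn⟩ (e δ) : Fin n).val, ?_, ?_, ?_⟩⟩
  · intro a b hab
    simp only at hab
    exact e.injective ((Equiv.swap (e 0) ⟨0, hn⟩).injective (Fin.ext hab))
  · simp
  · intro δ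
    exact Fin.is_lt _

section rank

variable [Zero Δ] (c : Coding Δ)

/-- The number whose digits are the codes of the letters, least significant first. -/
def rank : List Δ → ℕ
  | [] => 0
  | δ :: w => c.code δ + c.D * rank w

theorem add_mul_lt_iff {D a b x y : ℕ} (ha : a < D) (hb : b < D) :
    a + D * x < b + D * y ↔ x < y ∨ (x = y ∧ a < b) := by
  constructor
  · intro h
    rcases lt_trichotomy x y with h1 | h1 | h1
    · exact Or.inl h1
    · subst h1
      exact Or.inr ⟨rfl, by omega⟩
    · exfalso
      have : D * (y + 1) ≤ D * x := Nat.mul_le_mul_left D h1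
      rw [Nat.mul_add] at this
      omega
  · rintro (h | ⟨rfl, h⟩)
    · have : D * (x + 1) ≤ D * y := Nat.mul_le_mul_left D h
      rw [Nat.mul_add] at this
      omega
    · omega

theorem add_mul_eq_iff {D a b x y : ℕ} (ha : a < D) (hb : b < D) :
    a + D * x = b + D * y ↔ x = y ∧ a = b := by
  constructor
  · intro h
    rcases lt_trichotomy x y with h1 | h1 | h1
    · exfalso
      have := (add_mul_lt_iff ha hb).2 (Or.inl h1)
      omega
    · subst h1
      exact ⟨rfl, by omega⟩
    · exfalso
      have := (add_mul_lt_iff hb ha).2 (Or.inl h1)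
      omega
  · rintro ⟨rfl, rfl⟩
    rfl

theorem rank_zero_cons : rank c [0] = rank c [] := by
  simp [rank, c.zero]

theorem rank_fill (ρ : List (Option Δ)) : ∀ w u : List Δ,
    (rank c w < rank c u → rank c (fill ρ w) < rank c (fill ρ u)) ∧
    (rank c w = rank c u → rank c (fill ρ w) = rank c (fill ρ u)) := by
  induction ρ with
  | nil => intro w u; exact ⟨fun h => h, fun h => h⟩
  | cons a ρ ih =>
    intro w u
    cases a with
    | some δ =>
      simp only [fill, rank]
      constructor
      · intro h
        exact (add_mul_lt_iff (c.lt δ) (c.lt δ)).2 (Or.inl ((ih w u).1 h))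
      · intro h
        rw [(ih w u).2 h]
    | none =>
      -- normalise both words to be nonempty
      have key : ∀ (y : Δ) (w : List Δ) (x : Δ) (u : List Δ),
          (rank c (y :: w) < rank c (x :: u) →
            rank c (fill (none :: ρ) (y :: w)) < rank c (fill (none :: ρ) (x :: u))) ∧
          (rank c (y :: w) = rank c (x :: u) →
            rank c (fill (none :: ρ) (y :: w)) = rank c (fill (none :: ρ) (x :: u))) := by
        intro y w x u
        simp only [fill, rank]
        rw [add_mul_lt_iff (c.lt y) (c.lt x), add_mul_lt_iff (c.lt y) (c.lt x),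
          add_mul_eq_iff (c.lt y) (c.lt x), add_mul_eq_iff (c.lt y) (c.lt x)]
        constructor
        · rintro (h | ⟨h1, h2⟩)
          · exact Or.inl ((ih w u).1 h)
          · exact Or.inr ⟨(ih w u).2 h1, h2⟩
        · rintro ⟨h1, h2⟩
          exact ⟨(ih w u).2 h1, h2⟩
      have e1 : fill (none :: ρ) ([] : List Δ) = fill (none :: ρ) [0] := rfl
      cases w with
      | nil =>
        rw [e1, ← rank_zero_cons c]
        cases u with
        | nil =>
          rw [e1, ← rank_zero_cons c]
          exact key _ _ _ _
        | cons x u => exact key _ _ _ _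
      | cons y w =>
        cases u with
        | nil =>
          rw [e1, ← rank_zero_cons c]
          exact key _ _ _ _
        | cons x u => exact key _ _ _ _

theorem rank_eq_zero {w : List Δ} (h : rank c w = 0) : ∀ δ ∈ w, δ = 0 := by
  induction w with
  | nil => simp
  | cons δ w ih =>
    simp only [rank] at h
    have hD : 0 < c.D := lt_of_le_of_lt (Nat.zero_le _) (c.lt 0)
    have h1 : c.code δ = 0 := by omega
    have h2 : rank c w = 0 := by
      have : c.D * rank c w = 0 := by omega
      rcases Nat.mul_eq_zero.1 this with h | h
      · omega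
      · exact h
    have h3 : δ = 0 := c.inj (by rw [h1, c.zero])
    intro x hx
    rcases List.mem_cons.1 hx with rfl | hx
    · exact h3
    · exact ih h2 x hx

end rank

section collect

variable {B : Type*}

/-- Shift a letter by one variable. -/
def up (x : ℕ × B) : ℕ × B := (x.1 + 1, x.2)

/-- All coloured letters of a decorated word. -/
def collect (φ : Δ → List B) : List Δ → List (ℕ × B)
  | [] => []
  | δ :: w => (φ δ).map (fun b => (0, b)) ++ (collect φ w).map up

/-- All coloured letters inserted by a pattern. -/
def collectIns (φ : Δ → List B) : List (Option Δ) → List (ℕ × B)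
  | [] => []
  | some δ :: ρ => (φ δ).map (fun b => (0, b)) ++ (collectIns φ ρ).map up
  | none :: ρ => (collectIns φ ρ).map up

/-- Move a coloured letter by a map of variables. -/
def mv (σ : ℕ → ℕ) (x : ℕ × B) : ℕ × B := (σ x.1, x.2)

theorem collect_zeros [Zero Δ] (φ : Δ → List B) (h0 : φ 0 = []) {w : List Δ}
    (h : ∀ δ ∈ w, δ = 0) : collect φ w = [] := by
  induction w with
  | nil => rfl
  | cons δ w ih =>
    have h1 : δ = 0 := h δ (by simp)
    subst h1
    simp [collect, h0, ih (fun x hx => h x (by simp [hx]))]

theorem collect_rank_eq [Zero Δ] (c : Coding Δ) (φ : Δ → List B) (h0 : φ 0 = []) :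
    ∀ w w' : List Δ, rank c w = rank c w' → collect φ w = collect φ w' := by
  intro w
  induction w with
  | nil =>
    intro w' h
    rw [collect_zeros φ h0 (rank_eq_zero c h.symm)]
    rfl
  | cons δ w ih =>
    intro w' h
    cases w' with
    | nil =>
      rw [collect_zeros φ h0 (rank_eq_zero c h)]
      rfl
    | cons δ' w' =>
      simp only [rank] at h
      rw [add_mul_eq_iff (c.lt δ) (c.lt δ')] at h
      have := c.inj h.2
      subst this
      simp only [collect]
      rw [ih w' h.1]

theorem collect_fill [Zero Δ] (φ : Δ → List B) (h0 : φ 0 = []) :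
    ∀ (ρ : List (Option Δ)) (w : List Δ),
      (collect φ (fill ρ w)).Perm (collectIns φ ρ ++ (collect φ w).map (mv (slot ρ))) := by
  intro ρ
  induction ρ with
  | nil =>
    intro w
    have : (mv (slot ([] : List (Option Δ))) : ℕ × B → ℕ × B) = id := by
      funext x; rfl
    simp [fill, collectIns, this]
  | cons a ρ ih =>
    intro w
    cases a with
    | some δ =>
      simp only [fill, collect, collectIns, List.append_assoc]
      refine List.Perm.append_left _ ?_
      have := (ih w).map (up : ℕ × B → ℕ × B)
      rw [List.map_append] at this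
      refine this.trans ?_
      refine List.Perm.append_left _ ?_
      rw [List.map_map]
      refine List.Perm.of_eq ?_
      congr 1
    | none =>
      cases w with
      | nil =>
        simp only [fill, collect, collectIns, h0, List.map_nil, List.nil_append, List.append_nil]
        have := (ih []).map (up : ℕ × B → ℕ × B)
        simpa [collect] using this
      | cons y w =>
        simp only [fill, collect, collectIns, List.map_append, List.map_map]
        have := (ih w).map (up : ℕ × B → ℕ × B)
        rw [List.map_append, List.map_map] at this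
        have e1 : (mv (slot (none :: ρ)) ∘ fun b : B => ((0 : ℕ), b)) = fun b : B => (0, b) := by
          funext b; rfl
        have e2 : (mv (slot (none :: ρ)) ∘ (up : ℕ × B → ℕ × B)) = up ∘ mv (slot ρ) := by
          funext b; rfl
        rw [e1, e2]
        refine (List.Perm.append_left _ this).trans ?_
        rw [← List.append_assoc, ← List.append_assoc]
        exact List.Perm.append_right _ List.perm_append_comm

theorem count_collect [Zero Δ] [DecidableEq B] (φ : Δ → List B) (h0 : φ 0 = []) (w : List Δ)
    (i : ℕ) (b : B) : (collect φ w).count (i, b) = (φ (w.getD i 0)).count b := by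
  induction w generalizing i with
  | nil => simp [collect, h0]
  | cons δ w ih =>
    have hinj0 : Function.Injective (fun b : B => ((0 : ℕ), b)) := fun x y h => by simpa using h
    have hinj1 : Function.Injective (up : ℕ × B → ℕ × B) := fun x y h => by
      simp only [up, Prod.mk.injEq, Nat.add_right_cancel_iff] at h
      exact Prod.ext h.1 h.2
    simp only [collect, List.count_append]
    cases i with
    | zero =>
      have h2 : ((collect φ w).map up).count ((0 : ℕ), b) = 0 := by
        rw [List.count_eq_zero]
        intro hmem
        obtain ⟨x, _, hx⟩ := List.mem_map.1 hmem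
        simp [up] at hx
      rw [h2]
      have h3 : ((φ δ).map (fun b : B => ((0 : ℕ), b))).count ((0 : ℕ), b) = (φ δ).count b :=
        List.count_map_of_injective (φ δ) (fun b : B => ((0 : ℕ), b)) hinj0 b
      rw [h3]
      simp
    | succ i =>
      have h2 : ((φ δ).map (fun b : B => ((0 : ℕ), b))).count (i + 1, b) = 0 := by
        rw [List.count_eq_zero]
        intro hmem
        obtain ⟨x, _, hx⟩ := List.mem_map.1 hmem
        simp at hx
      have h3 : ((collect φ w).map up).count (i + 1, b) = (collect φ w).count (i, b) :=
        List.count_map_of_injective (collect φ w) up hinj1 (i, b)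
      rw [h2, h3, ih i]
      simp

end collect

theorem exists_fill_of_sublist [Zero Δ] {u v : List Δ} (h : u.Sublist v) :
    ∃ ρ : List (Option Δ), fill ρ u = v := by
  induction h with
  | slnil => exact ⟨[], rfl⟩
  | cons a _ ih =>
    obtain ⟨ρ, hρ⟩ := ih
    exact ⟨some a :: ρ, by simp [fill, hρ]⟩
  | cons_cons a _ ih =>
    obtain ⟨ρ, hρ⟩ := ih
    exact ⟨none :: ρ, by simp [fill, hρ]⟩

end Pool.Agent.Work.MP_f5ed0a_al
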